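import Mathlib

/-! Two lemmas on graded families of subspaces of an algebra. -/

namespace Pool.Agent.Lib.MP_bc213e_ag.KBN

open Polynomial

variable {k W : Type} [Field k] [CommRing W] [Algebra k W]

/-- A graded submodule of a finitely generated graded module is generated in bounded degree. -/
theorem noeth_gen {V M₀ : Submodule k W} (hV : V.FG) (hM₀ : M₀.FG) (M : ℕ → Submodule k W)
    (hle : ∀ μ, M μ ≤ V ^ μ * M₀) (hmul : ∀ μ, V * M μ ≤ M (μ + 1)) :
    ∃ μ₀, ∀ μ, μ₀ ≤ μ → M (μ + 1) ≤ V * M μ := by
  classical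
  obtain ⟨S, hS⟩ := hV
  obtain ⟨T, hT⟩ := hM₀
  let A : Subalgebra k W[X] := Algebra.adjoin k ((fun v => C v * X) '' (S : Set W))
  have : IsNoetherianRing A :=
    isNoetherianRing_of_fg (Subalgebra.fg_def.2 ⟨_, S.finite_toSet.image _, rfl⟩)
  have hA : ∀ μ, ∀ v ∈ V ^ μ, monomial μ v ∈ A := by
    intro μ v hv
    induction hv using Submodule.pow_induction_on_left' with
    | algebraMap c => exact A.algebraMap_mem c
    | add a b i _ _ ha hb => rw [map_add]; exact add_mem ha hb
    | mem_mul a ha i b _ hb =>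
      have h1 : C a * X ∈ A := by
        rw [← hS] at ha
        induction ha using Submodule.span_induction with
        | mem z hz => exact Algebra.subset_adjoin ⟨z, hz, rfl⟩
        | zero => simp
        | add z z' _ _ hz hz' => rw [map_add, add_mul]; exact add_mem hz hz'
        | smul c z _ hz => rw [← smul_C, smul_mul_assoc]; exact A.smul_mem hz c
      have h2 := mul_mem h1 hb
      rwa [C_mul_X_eq_monomial, monomial_mul_monomial, add_comm] at h2
  let G : Set W[X] := {p | ∃ μ, ∃ z ∈ M μ, p = monomial μ z}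
  have hfg : (Submodule.span A G).FG := by
    refine (Submodule.fg_span (R := A) (T.finite_toSet.image C)).of_le (Submodule.span_le.2 ?_)
    rintro _ ⟨μ, z, hz, rfl⟩
    refine Submodule.mul_induction_on (hle μ hz) (fun v hv m hm => ?_) fun a b ha hb => ?_
    · have h1 : C m ∈ Submodule.span A (C '' (T : Set W)) := by
        rw [← hT] at hm
        induction hm using Submodule.span_induction with
        | mem z hz => exact Submodule.subset_span ⟨z, hz, rfl⟩
        | zero => simp
        | add z z' _ _ hz hz' => rw [map_add]; exact add_mem hz hz'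
        | smul c z _ hz =>
          rw [← smul_C]
          exact Submodule.smul_of_tower_mem _ c hz
      have h2 := Submodule.smul_mem _ (⟨_, hA μ v hv⟩ : A) h1
      rwa [Subalgebra.smul_def, smul_eq_mul, monomial_mul_C] at h2
    · rw [map_add]
      exact add_mem ha hb
  obtain ⟨t, ht, hspan⟩ := (Submodule.fg_span_iff_fg_span_finset_subset _).1 hfg
  have ht' : ∀ p ∈ t, ∃ μ, ∃ z ∈ M μ, p = monomial μ z := fun p hp => ht hp
  choose! d z hz hd using ht'
  refine ⟨t.sup d, fun μ hμ w hw => ?_⟩
  let Q : W[X] → Prop := fun p => (∀ j, p.coeff j ∈ M j) ∧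
    ∀ j, t.sup d ≤ j → p.coeff (j + 1) ∈ V * M j
  have hadd : ∀ p q, Q p → Q q → Q (p + q) := fun p q hp hq =>
    ⟨fun j => by rw [coeff_add]; exact add_mem (hp.1 j) (hq.1 j),
      fun j hj => by rw [coeff_add]; exact add_mem (hp.2 j hj) (hq.2 j hj)⟩
  have hQA : ∀ a ∈ A, ∀ p, Q p → Q (a * p) := by
    intro a ha
    induction ha using Algebra.adjoin_induction with
    | mem a ha =>
      obtain ⟨v, hv, rfl⟩ := ha
      intro p hp
      have hv' : v ∈ V := hS ▸ Submodule.subset_span hv
      have h1 : ∀ j, (C v * X * p).coeff (j + 1) ∈ V * M j := fun j => by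
        rw [mul_assoc, coeff_C_mul, coeff_X_mul]
        exact Submodule.mul_mem_mul hv' (hp.1 j)
      refine ⟨fun j => ?_, fun j _ => h1 j⟩
      cases j with
      | zero => simp
      | succ j => exact hmul j (h1 j)
    | algebraMap c =>
      intro p hp
      rw [← Algebra.smul_def]
      exact ⟨fun j => by rw [coeff_smul]; exact Submodule.smul_mem _ _ (hp.1 j),
        fun j hj => by rw [coeff_smul]; exact Submodule.smul_mem _ _ (hp.2 j hj)⟩
    | add a b _ _ ha hb =>
      intro p hp
      rw [add_mul]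
      exact hadd _ _ (ha p hp) (hb p hp)
    | mul a b _ _ ha hb =>
      intro p hp
      rw [mul_assoc]
      exact ha _ (hb p hp)
  have key : ∀ p ∈ Submodule.span A (t : Set W[X]), Q p := by
    intro p hp
    induction hp using Submodule.span_induction with
    | mem p hp =>
      have h1 : d p ≤ t.sup d := Finset.le_sup hp
      refine ⟨fun j => ?_, fun j hj => ?_⟩
      · rw [hd p hp, coeff_monomial]
        split_ifs with h
        · exact h ▸ hz p hp
        · exact zero_mem _
      · rw [hd p hp, coeff_monomial, if_neg (by omega)]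
        exact zero_mem _
    | zero => exact ⟨fun j => by simp, fun j _ => by simp⟩
    | add p q _ _ hp hq => exact hadd p q hp hq
    | smul a p _ hp => exact hQA a a.2 p hp
  have h1 : monomial (μ + 1) w ∈ Submodule.span A G := Submodule.subset_span ⟨_, w, hw, rfl⟩
  rw [hspan] at h1
  simpa using (key _ h1).2 μ hμ

theorem noeth_pow {V : Submodule k W} {M : ℕ → Submodule k W} {μ₀ : ℕ}
    (h : ∀ μ, μ₀ ≤ μ → M (μ + 1) ≤ V * M μ) {μ : ℕ} (hμ : μ₀ ≤ μ) (j : ℕ) :
    M (μ + j) ≤ V ^ j * M μ := by
  induction j with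
  | zero => simp
  | succ j ih =>
    rw [pow_succ', mul_assoc]
    exact (h (μ + j) (by omega)).trans (mul_le_mul_right ih _)

/-- If powers of the generators of `V` lie in a graded family, then so do the powers of all
elements of `V`. -/
theorem rad_span {T : Set W} (J : ℕ → Submodule k W) (N : ℕ)
    (hJ : ∀ n, ∀ v ∈ Submodule.span k T, ∀ z ∈ J n, v * z ∈ J (n + 1))
    (h : ∀ x ∈ T, ∃ n, x ^ (n + N) ∈ J n) : ∀ v ∈ Submodule.span k T, ∃ n, v ^ (n + N) ∈ J n := by
  have hJ' : ∀ n j, ∀ v ∈ Submodule.span k T, ∀ z ∈ J n, v ^ j * z ∈ J (n + j) := by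
    intro n j v hv z hz
    induction j with
    | zero => simpa using hz
    | succ j ih =>
      rw [pow_succ', mul_assoc]
      exact hJ _ v hv _ ih
  intro v hv
  induction hv using Submodule.span_induction with
  | mem x hx => exact h x hx
  | zero => exact ⟨1, by simp⟩
  | add a b ha hb h1 h2 =>
    obtain ⟨n, hn⟩ := h1
    obtain ⟨m, hm⟩ := h2
    refine ⟨n + m + N, ?_⟩
    rw [add_pow]
    refine Submodule.sum_mem _ fun i hi => ?_
    have hi' := Finset.mem_range.1 hi
    rw [mul_comm, ← nsmul_eq_mul]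
    refine nsmul_mem ?_ _
    rcases le_or_gt (n + N) i with h3 | h3
    · obtain ⟨r, rfl⟩ := Nat.exists_eq_add_of_le h3
      have h4 := hJ' _ (n + m + N + N - (n + N + r)) b hb _ (hJ' _ r a ha _ hn)
      rw [show n + r + (n + m + N + N - (n + N + r)) = n + m + N by omega] at h4
      convert h4 using 1
      ring
    · obtain ⟨r, hr⟩ : ∃ r, n + m + N + N - i = m + N + r := ⟨n + N - i, by omega⟩
      have h4 := hJ' _ i a ha _ (hJ' _ r b hb _ hm)
      rw [show m + r + i = n + m + N by omega] at h4
      rw [hr]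
      convert h4 using 1
      ring
  | smul c a _ h1 =>
    obtain ⟨n, hn⟩ := h1
    exact ⟨n, by rw [_root_.smul_pow]; exact Submodule.smul_mem _ _ hn⟩

end Pool.Agent.Lib.MP_bc213e_ag.KBN
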