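import Pool.Agent.Lib.MP_bc213e_ag.KBB.Main
import Pool.Agent.Lib.MP_bc213e_ag.KBN.Noeth

/-! Global generation in terms of products of spaces of sections. -/

namespace Pool.Agent.Lib.MP_bc213e_ag.KBN

open Pool.Agent.Lib.MP_bc213e_ag.Hyp Pool.Agent.Lib.MP_bc213e_ag.KBB

variable {K ι : Type} [Field K] [Algebra ℂ K] {x g : ι → Kˣ}

theorem genx_mul {t : ℤ} {a μ : ℕ} {v s : K} (hv : v ∈ Vs ℂ x ^ μ) (hs : s ∈ SecS x g t a) :
    v * s ∈ SecS x g t (a + μ) := fun i => by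
  have h := (chart x i).mul_mem (ua_div_mem hv i) (hs i)
  rwa [div_mul_div_comm, mul_left_comm, ← pow_add, add_comm μ] at h

theorem genx_mul2 {t t' : ℤ} {a a' μ : ℕ} {v z : K} (hv : v ∈ Vs ℂ x ^ μ)
    (hz : z ∈ SecS x g t a * SecS x g t' a') : v * z ∈ SecS x g t (a + μ) * SecS x g t' a' := by
  refine Submodule.mul_induction_on hz (fun s hs s' hs' => ?_) fun s s' hs hs' => ?_
  · rw [← mul_assoc]
    exact Submodule.mul_mem_mul (genx_mul hv hs) hs'
  · rw [mul_add]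
    exact add_mem hs hs'

theorem genx_span {t t' : ℤ} {a a' : ℕ} (i : ι) {s w : K} (hs : s ∈ SecS x g t a)
    (hw : w ∈ Submodule.span (chart x i) {s | Sec x g t' a' s}) :
    ∃ e : ℕ, (x i : K) ^ e * (s * w) ∈ SecS x g t (a + e) * SecS x g t' a' := by
  have hp : ∀ e : ℕ, (x i : K) ^ e ∈ Vs ℂ x ^ e := fun e =>
    Submodule.pow_mem_pow _ (uvf0_x x i) e
  induction hw using Submodule.span_induction with
  | mem w hw => exact ⟨0, by simpa using Submodule.mul_mem_mul hs hw⟩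
  | zero => exact ⟨0, by simp⟩
  | add w w' _ _ h h' =>
    obtain ⟨e, h⟩ := h
    obtain ⟨e', h'⟩ := h'
    have h1 := genx_mul2 (hp e') h
    have h2 := genx_mul2 (hp e) h'
    rw [add_right_comm] at h2
    refine ⟨e + e', ?_⟩
    rw [← add_assoc]
    convert add_mem h1 h2 using 1
    ring
  | smul r w _ h =>
    obtain ⟨e, h⟩ := h
    obtain ⟨e', h'⟩ := uvf0_chart (k := ℂ) x i (r := r) (by rw [chartR_eq]; exact r.2)
    refine ⟨e + e', ?_⟩
    rw [← add_assoc]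
    convert genx_mul2 h' h using 1
    rw [Subalgebra.smul_def, smul_eq_mul]
    ring

theorem gen_of_free [Fintype ι] (hc : Cart x g) {a : ℤ} {N : ℕ} (hf : Free x g a N) {z : K}
    (hz : z ∈ Vs ℂ x) :
    ∃ M₀ : ℕ, ∀ M, M₀ ≤ M → z ^ (M + N) ∈ SecS x g (-a) M * SecS x g a N := by
  obtain ⟨n, hn⟩ := rad_span (fun n => SecS x g (-a) n * SecS x g a N) N
    (fun n v hv z hz => genx_mul2 (by rw [pow_one]; exact hv) hz) (by
      rintro _ ⟨i, rfl⟩
      obtain ⟨e₀, h0⟩ := main_sec hc (-a) i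
      obtain ⟨e, h⟩ := genx_span i (s := fr x g (-a) e₀ i) h0 (hf i)
      refine ⟨e₀ + e, ?_⟩
      convert h using 1
      have h1 : (g i : K) ^ (-a) * (g i : K) ^ a = 1 := by
        rw [← zpow_add₀ (g i).ne_zero, neg_add_cancel, zpow_zero]
      rw [fr]
      linear_combination (-((x i : K) ^ (e₀ + e + N))) * h1) z hz
  refine ⟨n, fun M hM => ?_⟩
  obtain ⟨c, rfl⟩ := Nat.exists_eq_add_of_le hM
  convert genx_mul2 (Submodule.pow_mem_pow _ hz c) hn using 1
  ring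

theorem free_one [Fintype ι] (hc : Cart x g) : ∃ e : ℕ, Free x g 1 e := by
  choose e he using main_sec hc 1
  refine ⟨Finset.univ.sup e, fun i => Submodule.subset_span ?_⟩
  obtain ⟨c, hc'⟩ := Nat.exists_eq_add_of_le (Finset.le_sup (f := e) (Finset.mem_univ i))
  have h := genx_mul (Submodule.pow_mem_pow _ (uvf0_x (k := ℂ) x i) c) (he i)
  rw [hc', pow_add, ← mul_assoc, mul_comm]
  exact h

end Pool.Agent.Lib.MP_bc213e_ag.KBN
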