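import Pool.Agent.Lib.MP_bc213e_ag.KBN.Glue
import Pool.Agent.Lib.MP_bc213e_ag.KBN.GenX

/-! The sharp lifting lemma on the virtual curve. -/

set_option linter.unusedSectionVars false

namespace Pool.Agent.Lib.MP_bc213e_ag.KBN

open KBV KBV.Base Module MvPolynomial Hyp KBB

variable {k F₀ Ω : Type} [Field k] [Field F₀] [Field Ω] [Algebra k F₀] [Algebra F₀ Ω]
  [Algebra k Ω] [IsScalarTower k F₀ Ω] [IsAlgClosure F₀ Ω] [CharZero k] [CharZero F₀] [CharZero Ω]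
  {B : Base k F₀ Ω} {F K : IntermediateField F₀ Ω} {G L : B.Dv} {s : ℕ}
  {y : Fin s → F₀} {Q : Option (Fin s) → QVal F₀}

variable (F L y) in
/-- `a L + N H` is generated by global sections. -/
def GenD (a : ℤ) (N : ℕ) : Prop := ∃ M : ℕ, ∀ i : Option (Fin s),
  algebraMap F₀ F (i.elim 1 y) ^ (M + N) ∈
    GF B F ((M : ℤ) • B.H + (-a) • L) * GF B F ((N : ℤ) • B.H + a • L)

variable [FiniteDimensional F₀ F]

/-- Regularity on a chart can be tested by traces. -/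
theorem PS.final (S : PS B y Q) (hG : B.IsDiv F G) (i : Option (Fin s)) {x : F}
    (h : ∀ m : ℕ, ∀ u ∈ GF B F (m • B.H - (G - B.Cod F)), ∃ N : ℕ,
      TrS B F (N + m) (algebraMap F₀ F (i.elim 1 y ^ N) * (x * u))) :
    (x : Ω) ∈ B.Γ' F {v | B.res v ≠ Q i} G := by
  refine ⟨x.2, fun v₀ hv₀ => nv_codiff hG v₀ fun z hz => ?_⟩
  by_cases h0 : z = 0
  · simp [h0]
  have h0' : (z : Ω) ≠ 0 := by simpa using h0
  obtain ⟨m, ρ, h1, h2, h3⟩ := ((nv_lb ((isDiv_dv z.2).sub hG)).mono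
    (sub_le_sub_left (sub_le_self G (nv_cod F)) _)).exists_sec (T := {B.res v₀})
      fun v hv => sub_nonneg.2 ((hz v hv).le h0')
  obtain ⟨N, h4⟩ := h m (algebraMap F₀ F ρ * z) (GF_le (GF_mul (GF_dv _) (GF_dv z))
    (sub_nonneg.1 (h2.trans_eq (by
      change _ = _ - (-B.dv (algebraMap F₀ Ω ρ) + _)
      abel))))
  have h5 := mem_GF.1 h4 v₀
  have h6 := h3 v₀ rfl
  have h7 := congrFun (S.hQ i) v₀
  have h8 : i.elim 1 y ^ N * ρ ≠ 0 := mul_ne_zero (pow_ne_zero _ (S.ne i)) h1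
  rw [mul_left_comm x, ← mul_assoc, ← map_mul, ← Algebra.smul_def, map_smul, smul_eq_mul,
    mul_comm] at h5
  have h9 := (QVal.ge_mul_iff h8).1 ((QVal.comap_ge v₀.1 (algebraMap F₀ Ω) _ _).2 h5)
  rw [QVal.ord_mul _ (pow_ne_zero _ (S.ne i)) h1, QVal.ord_pow] at h9
  rw [ov_of_ne hv₀] at h7
  refine QVal.Ge.mono h9 (le_of_eq ?_)
  simp only [Pi.add_apply, Pi.smul_apply, dv_apply, QVal.comap_ord] at h6 h7 ⊢
  rw [nsmul_eq_mul] at h6
  rw [zsmul_eq_mul]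
  push_cast
  linear_combination (N : ℚ) * h7 + h6

theorem PS.cous (S : PS B y Q) (hL : B.IsDiv F L) (inv : ∃ N, GenD F L y 1 N)
    (nef : ∀ t : ℕ, ∃ N : ℕ, 0 < N ∧ GenD F L y (N * t : ℕ) N) (hG : B.IsDiv F G) {κ b₀ : ℕ}
    (hκ : 0 < κ) {e₀ : F} (h0 : e₀ ≠ 0)
    (he : e₀ ∈ GF B F (κ • (G - B.Cod F + (s + 1) • B.H) + (κ * b₀) • L - B.H)) :
    ∃ D : B.Dv, B.IsDiv F D ∧ D ≤ G ∧ ∀ b, b₀ ≤ b → B.Cous F Q (D + b • L) (G + b • L) := by
  classical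
  obtain ⟨d, hΓ, hx, monic, ker, den, out⟩ := S.exists_bg F L
  have hgen : ∀ a N, GenD F L y a N → d.Gen a N := fun a N ⟨M, h⟩ =>
    ⟨M, fun i => by rw [hΓ, hΓ, hx]; exact h i⟩
  obtain ⟨D₀, hD₀⟩ : ∃ D₀, D₀ = G - B.Cod F + (s + 1) • B.H := ⟨_, rfl⟩
  rw [← hD₀] at he
  have l0 : Lb B D₀ := by
    refine Lb.of_nsmul hκ ((nv_lb ((isDiv_dv e₀.2).add (hL.nsmul (κ * b₀))).neg).mono ?_)
    have h1 := ((mem_Γ_iff_dv (by simpa using h0)).1 (mem_GF'.1 he)).2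
    exact sub_nonneg.1 ((add_nonneg h1 H_nonneg).trans_eq (by abel))
  obtain ⟨m, g, g0, hg, -⟩ := l0.exists_sec (T := ∅) fun _ h => h.elim
  have g0' : algebraMap F₀ F g ≠ 0 := (map_ne_zero _).2 g0
  have hH := (isDiv_H (B := B) F).nsmul (s + 1 + m)
  obtain ⟨D, hD, le1, le2, le3⟩ : ∃ D : B.Dv, B.IsDiv F D ∧ D ≤ G ∧
      D ≤ -((s + 1 + m) • B.H + B.dv (algebraMap F₀ F g)) ∧
      D ≤ -((s + 1 + m) • B.H + b₀ • L + B.dv e₀ ⊔ 0) :=
    ⟨_, hG.inf ((hH.add (isDiv_dv (algebraMap F₀ F g).2)).neg.inf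
      ((hH.add (hL.nsmul b₀)).add ((isDiv_dv e₀.2).sup .zero)).neg), inf_le_left,
      inf_le_right.trans inf_le_left, inf_le_right.trans inf_le_right⟩
  refine ⟨D, hD, le1, fun b hb a ha hab => ?_⟩
  obtain ⟨r, rfl⟩ := Nat.exists_eq_add_of_le hb
  lift a to Option (Fin s) → F using ha
  obtain ⟨m₀, z, z0, hz, -⟩ := (l0.add (nv_lb (hL.nsmul (b₀ + r)))).exists_sec (T := ∅)
    fun _ h => h.elim
  have z0' : algebraMap F₀ F z ≠ 0 := (map_ne_zero _).2 z0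
  obtain ⟨j, T, hT, test⟩ := S.test d (fun μ => by simp [hΓ]) hx hz
  choose n₀ hn₀ using fun i i' => nv_glob (hD.add (hL.nsmul (b₀ + r))) (F.algebraMap_mem _)
    (F.algebraMap_mem _) ((map_ne_zero _).2 (S.ne i)) ((map_ne_zero _).2 (S.ne i')) (S.hQ i)
    (S.hQ i') (hab i i')
  obtain ⟨n₁, hn₁⟩ : ∃ n₁, ∀ i i', n₀ i i' ≤ n₁ :=
    ⟨Finset.univ.sup fun p : _ × _ => n₀ p.1 p.2, fun i i' =>
      Finset.le_sup (f := fun p : _ × _ => n₀ p.1 p.2) (Finset.mem_univ (i, i'))⟩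
  obtain ⟨n, hn⟩ : ∃ n, n = n₁ + m₀ + s + 2 := ⟨_, rfl⟩
  have hc : ∀ i i', (xi d.Y i * xi d.Y i') ^ n * (a i - a i') ∈
      GF B F (D + (b₀ + r) • L + (2 * n) • B.H) := fun i i' => by
    rw [hx, hx]
    exact hn₀ i i' n ((hn₁ i i').trans (by omega))
  have hu : ∀ l : T, (l : F) * (algebraMap F₀ F z)⁻¹ ∈
      GF B F (((j : ℤ) - m₀) • B.H - D₀ - (b₀ + r) • L) := fun l =>
    GF_le (GF_mul (hT l l.2) (GF_inv _)) (le_of_eq (by
      change _ + B.dv (algebraMap F₀ Ω z) = _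
      module))
  have hg' : algebraMap F₀ F g ∈ GF B F (D₀ + m • B.H) :=
    GF_le (GF_dv _) (sub_nonneg.1 (hg.trans_eq (by
      change _ = _ - -B.dv (algebraMap F₀ Ω g)
      abel)))
  obtain ⟨a', ha'⟩ := nc0 (Λ := T)
    { d with
      κ := κ
      b := b₀ + r
      t := κ * r
      m := m
      n := n
      μ := j + n₁ + 1
      E := j - m₀
      e₀ := Units.mk0 (e₀ / algebraMap F₀ F g ^ κ) (div_ne_zero h0 (pow_ne_zero _ g0'))
      u := fun l => algebraMap F₀ F g * (l * (algebraMap F₀ F z)⁻¹)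
      a := fun i => a i / algebraMap F₀ F g
      κ_pos := hκ
      μ_pos := by omega
      hμ := by rw [hn]; push_cast; ring
      inv := inv.imp fun N h => hgen _ _ h
      nef := (nef _).imp fun N h => ⟨h.1, hgen _ _ h.2⟩
      hu := fun l => by
        rw [hΓ]
        exact GF_le (GF_mul hg' (hu l)) (le_of_eq (by push_cast; module))
      hu' := fun l => by
        rw [hΓ, Units.val_mk0, mul_pow, ← mul_assoc, div_mul_cancel₀ _ (pow_ne_zero _ g0')]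
        exact GF_le (GF_mul he (GF_pow (hu l) κ)) (le_of_eq (by push_cast; module))
      ha := fun i i' => by
        rw [hΓ, ← sub_div, ← mul_div_assoc, div_eq_mul_inv]
        exact GF_le (GF_mul (hc i i') (GF_inv _))
          (sub_nonneg.1 ((sub_nonneg.2 le2).trans_eq (by push_cast; module)))
      ha' := fun i i' => by
        rw [hΓ, ← sub_div, ← mul_div_assoc, div_pow, Units.val_inv_eq_inv_val, Units.val_mk0,
          inv_div, div_mul_div_cancel₀ (pow_ne_zero _ g0'), div_eq_mul_inv]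
        refine GF_le (GF_mul (GF_pow (hc i i') κ) (GF_inv _)) (sub_nonneg.1 ?_)
        have h1 : B.dv e₀ ≤ κ • (B.dv e₀ ⊔ 0) :=
          le_sup_left.trans (le_self_nsmul le_sup_right hκ.ne')
        exact (add_nonneg (nsmul_nonneg (sub_nonneg.2 le3) κ) (sub_nonneg.2 h1)).trans_eq
          (by push_cast; module) } monic ker den
  refine ⟨(algebraMap F₀ F g * a' : F), SetLike.coe_mem _, fun i => ?_⟩
  refine S.final (x := a i - algebraMap F₀ F g * a') (hG.add (hL.nsmul (b₀ + r))) i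
    fun m' u h1 => ⟨j + n, ?_⟩
  have h2 := test (xi d.Y i ^ n * (a i - algebraMap F₀ F g * a') / algebraMap F₀ F z)
    (j + n₁ + 1 : ℕ) (fun l hl => by
      obtain ⟨σ, h2, h3⟩ := ha' i ⟨l, hl⟩
      refine out _ σ _ h2 (h3.trans (congrArg _ ?_))
      field_simp) (m' + s + 1 + m₀) (u * algebraMap F₀ F z * algebraMap F₀ F (i.elim 1 y) ^ j)
    (GF_le (GF_mul (GF_mul h1 (GF_dv _)) (GF_pow (S.mem i) j)) (le_of_eq (by
      change _ + -B.dv (algebraMap F₀ Ω z) + _ = _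
      rw [hD₀]
      module)))
  convert h2 using 1
  · rw [hn]
    push_cast
    ring
  · rw [hx, map_pow]
    field_simp
    ring

omit [FiniteDimensional F₀ F] in
theorem genD_of_free {X' ι : Type} [Field X'] [Algebra ℂ X'] [Fintype ι] {x g : ι → X'ˣ}
    (hc : Cart x g) (φ : X' →+* Ω) {ξ₀ : X'} (hK : K ≤ F)
    (sec : ∀ {b : ℤ} {j : ℕ} {z : X'}, Sec x g b j z → φ (z / ξ₀ ^ j) ∈ B.Γ K (j • B.H + b • L))
    (hX : ∀ i : Option (Fin s), ∃ z ∈ Vs ℂ x, algebraMap F₀ Ω (i.elim 1 y) = φ (z / ξ₀))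
    {a : ℤ} {N : ℕ} (hf : Free x g a N) : GenD F L y a N := by
  choose z h1 h2 using hX
  choose M h3 using fun i => gen_of_free hc hf (h1 i)
  refine ⟨Finset.univ.sup M, fun i => GF_lift hK ?_⟩
  have h4 := h3 i _ (Finset.le_sup (Finset.mem_univ i))
  rw [SubmonoidClass.coe_pow, natCast_zsmul, natCast_zsmul]
  change algebraMap F₀ Ω _ ^ _ ∈ _
  rw [h2, ← map_pow, div_pow]
  refine Submodule.mul_induction_on (C := fun w => φ (w / ξ₀ ^ (Finset.univ.sup M + N)) ∈ _) h4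
    (fun a ha b hb => ?_) fun a b ha hb => ?_
  · rw [pow_add, mul_div_mul_comm, map_mul]
    exact Submodule.mul_mem_mul (sec ha) (sec hb)
  · rw [add_div, map_add]
    exact add_mem ha hb

omit [FiniteDimensional F₀ F] in
open Classical in
/-- The field `nc` of `Base.Geo`. -/
theorem geo_nc {X' ι : Type} [Field X'] [Algebra ℂ X'] [Fintype ι] {x g : ι → X'ˣ}
    (hc : Cart x g) (hn : Nef x g) (φ : X' →+* Ω) {ξ₀ : X'} (h0 : ξ₀ ≠ 0) (m0 : ξ₀ ∈ Vs ℂ x)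
    (B : Base k F₀ Ω) {K : IntermediateField F₀ Ω} {L : B.Dv} (hL : B.IsDiv K L)
    (sec : ∀ {b : ℤ} {j : ℕ} {z : X'}, Sec x g b j z → φ (z / ξ₀ ^ j) ∈ B.Γ K (j • B.H + b • L))
    {s : ℕ} (ev : MvPolynomial (Fin s) k →ₐ[k] F₀) (inj : Function.Injective ev)
    (frac : ∀ z : F₀, ∃ p q, q ≠ 0 ∧ z = ev p / ev q)
    (gam : ∀ (μ : ℕ) (z : F₀), (∀ p ∈ B.Pl, p.Ge z (if p = B.inf then -(μ : ℚ) else 0)) ↔
      ∃ f : MvPolynomial (Fin s) k, f.totalDegree ≤ μ ∧ z = ev f)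
    (hX : ∀ l, ∃ z ∈ Vs ℂ x, algebraMap F₀ Ω (ev (X l)) = φ (z / ξ₀))
    (Q : Option (Fin s) → QVal F₀) (hQ0 : Q none = B.inf)
    (hQ : ∀ l, B.H + B.dv (algebraMap F₀ Ω (ev (X l))) = B.ov (Q (some l))) :
    ∀ F : IntermediateField F₀ Ω, K ≤ F → FiniteDimensional F₀ F → ∀ G, B.IsDiv F G →
      ∃ h : ℕ, ∀ κ b₀ : ℕ, 0 < κ → ∀ e₀ ∈ B.Γ F
        (κ • (G - B.Cod F + Fintype.card (Option (Fin s)) • B.H) + (κ * b₀) • L - h • B.H), e₀ ≠ 0 →
        ∃ (D : B.Dv) (b₁ : ℕ), B.IsDiv F D ∧ D ≤ G ∧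
          ∀ b, b₁ ≤ b → B.Cous F Q (D + b • L) (G + b • L) := by
  intro F hK _ G hG
  have hev : ev = aeval fun l => ev (X l) := algHom_ext fun l => by simp
  have key : ∀ (μ : ℕ) (z : F₀) (v : B.P),
      (B.res v).Ge z (if B.res v = B.inf then -(μ : ℚ) else 0) ↔
        v.1.Ge (algebraMap F₀ Ω z) (-(μ * B.H v)) := fun μ z v => by
    rw [← QVal.comap_ge]
    by_cases h : B.res v = B.inf
    · rw [if_pos h, Base.H, ov_of_eq h, mul_one]
      rfl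
    · rw [if_neg h, Base.H, ov_of_ne h, mul_zero, neg_zero]
      rfl
  have S : PS B (fun l => ev (X l)) Q := ⟨hev ▸ inj, hev ▸ frac, fun μ z => by
    rw [← hev, ← gam]
    refine ⟨fun h p hp => ?_, fun h v => (key μ z v).1 (h _ (res_mem v))⟩
    obtain ⟨v, rfl⟩ := exists_over hp
    exact (key μ z v).2 (h v), fun i => by
      cases i with
      | none => simp [hQ0, Base.H]
      | some l => exact hQ l⟩
  have hX' : ∀ i : Option (Fin s), ∃ z ∈ Vs ℂ x,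
      algebraMap F₀ Ω (i.elim 1 fun l => ev (X l)) = φ (z / ξ₀) := fun i => by
    cases i with
    | none => exact ⟨ξ₀, m0, by simp [h0]⟩
    | some l => exact hX l
  refine ⟨1, fun κ b₀ hκ e₀ he h1 => ?_⟩
  rw [Fintype.card_option, Fintype.card_fin, one_smul] at he
  obtain ⟨D, h2⟩ := S.cous (hL.mono hK) ((free_one hc).imp fun _ h => genD_of_free hc φ hK sec hX' h)
    (fun t => (hn t).imp fun N h => ⟨h.1, genD_of_free hc φ hK sec hX' (by exact_mod_cast h.2)⟩)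
    hG hκ (e₀ := ⟨e₀, he.1⟩) (fun h => h1 (congrArg Subtype.val h)) he
  exact ⟨D, b₀, h2⟩

end Pool.Agent.Lib.MP_bc213e_ag.KBN
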