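import Pool.Agent.Lib.MP_bc213e_ag.KBN.CoreU

/-! The Frobenius argument in one fibre. -/

namespace Pool.Agent.Lib.MP_bc213e_ag.KBN

open Pool.Agent.Lib.MP_bc213e_ag.KBB MvPolynomial

noncomputable section

variable {k W Λ : Type} [Field k] [CommRing W] [Algebra k W] {s : ℕ}

/-- The Cousin problem is solvable, as a linear system in bounded degree. -/
def Dat.Sol (d : Dat k W Λ s) : Prop :=
  ∃ σ : Option (Fin s) → Λ → MvPolynomial (Option (Fin s)) k,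
    (∀ i l, σ i l ∈ WD k s d.e (d.μ + d.c)) ∧
    (∀ i l l', d.u l' * aeval d.Y (σ i l) = d.u l * aeval d.Y (σ i l')) ∧
    ∀ i j l, xi d.Y j ^ d.n * aeval d.Y (σ i l) - xi d.Y i ^ d.n * aeval d.Y (σ j l) =
      aeval d.Y (pderiv none d.P) * ((xi d.Y i * xi d.Y j) ^ d.n * d.u l * (d.a i - d.a j))

theorem BG.tau (B : BG k W s) (r : ℕ) :
    ∏ l : Fin s, B.Y (some l) ^ r ∈ B.Γ 0 ((s + 1) * r) := by
  have h : ∀ t : Finset (Fin s), ∏ l ∈ t, B.Y (some l) ^ r ∈ B.Γ 0 (t.card * r) := fun t => by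
    classical
    induction t using Finset.induction_on with
    | empty => simpa using B.one
    | insert a t ha ih =>
      rw [Finset.prod_insert ha, Finset.card_insert_of_notMem ha]
      exact BG.le (B.mul (B.xi_pow (some a) r) ih) (by simp) (le_of_eq (by push_cast; ring))
  refine BG.le (h Finset.univ) rfl ?_
  rw [Finset.card_univ, Fintype.card_fin]
  have : (0 : ℤ) ≤ r := Int.natCast_nonneg r
  linarith

theorem fib (p : ℕ) [Fact p.Prime] [CharP k p] [PerfectRing k p] (d : Dat k W Λ s)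
    (Φ : Fib k W s) (hY : Φ.Y = d.Y) (hP : Φ.P = d.P) : d.Sol := by
  rcases subsingleton_or_nontrivial W with hW | hW
  · exact ⟨0, fun _ _ => zero_mem _, fun _ _ _ => Subsingleton.elim _ _,
      fun _ _ _ => Subsingleton.elim _ _⟩
  have : CharP W p := charP_of_injective_algebraMap (algebraMap k W).injective p
  have hp : p.Prime := Fact.out
  obtain ⟨N₁, hN₁⟩ := d.inv
  obtain ⟨N, hN0, hN⟩ := d.nef
  choose j₀ hj₀ using fun a : ℕ => BG.ucous hN (hN₁.nsmul a)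
  obtain ⟨μ₀, hμ₀⟩ := d.toBG.h0
  obtain ⟨J, hJ⟩ : ∃ J, ∀ a ≤ 2 * N * d.t + d.κ * d.b, j₀ a ≤ J :=
    ⟨(Finset.range (2 * N * d.t + d.κ * d.b + 1)).sup j₀, fun a ha =>
      Finset.le_sup (f := j₀) (Finset.mem_range.2 (Nat.lt_succ_of_le ha))⟩
  obtain ⟨r, hr⟩ : ∃ r, r = d.κ * (2 * N * (J + d.κ * d.m + s + 1)) + μ₀ := ⟨_, rfl⟩
  obtain ⟨Ψ, hΨ1, hΨ2, hΨ3⟩ := exists_psi' p Φ (e := d.e) (hP ▸ wtd_le_iff.1 d.hP) r
  rw [hY, hP] at hΨ3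
  rw [hY] at hΨ2
  have hsub : ∀ x y : W, (x - y) ^ p ^ r = x ^ p ^ r - y ^ p ^ r := fun x y =>
    sub_pow_char_pow x y r
  have hq : r < p ^ r := Nat.lt_pow_self hp.one_lt
  generalize p ^ r = q at hΨ1 hΨ2 hΨ3 hsub hq
  obtain ⟨q', rfl⟩ : ∃ q', q = q' + 1 := ⟨q - 1, by omega⟩
  rw [Nat.add_sub_cancel] at hΨ2 hΨ3
  obtain ⟨t₁, s₁, hs₁, e₁⟩ : ∃ t₁ s₁, s₁ < d.κ ∧ q' + 1 = d.κ * t₁ + s₁ :=
    ⟨_, _, Nat.mod_lt _ d.κ_pos, (Nat.div_add_mod _ _).symm⟩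
  obtain ⟨u, s₂, hs₂, e₂⟩ : ∃ u s₂, s₂ < 2 * N ∧ t₁ = 2 * N * u + s₂ :=
    ⟨_, _, Nat.mod_lt _ (by omega), (Nat.div_add_mod _ _).symm⟩
  have h1 : 2 * N * (J + d.κ * d.m + s + 1) < t₁ + 1 :=
    lt_of_mul_lt_mul_left (a := d.κ) (by rw [mul_add d.κ t₁]; omega) (Nat.zero_le _)
  have h2 : J + d.κ * d.m + s + 1 < u + 1 :=
    lt_of_mul_lt_mul_left (a := 2 * N) (by rw [mul_add (2 * N) u]; omega) (Nat.zero_le _)
  have h3 : u ≤ u * N := Nat.le_mul_of_pos_right u hN0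
  have h4 : s₁ * d.m ≤ d.κ * d.m := Nat.mul_le_mul_right _ hs₁.le
  have h5 : 2 * N * u = 2 * (u * N) := by ring
  obtain ⟨j, hj, e₃⟩ : ∃ j, J ≤ j ∧ t₁ = u * N + s₁ * d.m + s + 1 + j :=
    ⟨t₁ - (u * N + s₁ * d.m + s + 1), by omega, by omega⟩
  have z₁ : (q' : ℤ) = d.κ * t₁ + s₁ - 1 := by
    have : ((q' + 1 : ℕ) : ℤ) = (d.κ * t₁ + s₁ : ℕ) := congrArg _ e₁
    push_cast at this
    linarith
  have z₂ : (t₁ : ℤ) = 2 * N * u + s₂ := by exact_mod_cast e₂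
  have z₃ : (j : ℤ) = t₁ - (u * N + s₁ * d.m + s + 1) := by
    have : (t₁ : ℤ) = (u * N + s₁ * d.m + s + 1 + j : ℕ) := congrArg _ e₃
    push_cast at this
    linarith
  have z₄ : d.E = d.μ + s + 1 - d.n := by linarith [d.hμ]
  obtain ⟨τ, hτ⟩ : ∃ τ, τ = ∏ l : Fin s, d.Y (some l) ^ q' := ⟨_, rfl⟩
  have hτ' : τ ∈ d.Γ 0 ((s + 1) * q') := hτ ▸ d.toBG.tau q'
  rw [← hτ] at hΨ3
  obtain ⟨ζ, hζ⟩ : ∃ ζ : Option (Fin s) → W,
    ∀ i, ζ i = d.a i ^ (q' + 1) * τ * ((d.e₀⁻¹ : Wˣ) : W) ^ t₁ := ⟨_, fun _ => rfl⟩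
  have hc : ∀ i l, (xi d.Y i * xi d.Y l) ^ (d.n * (q' + 1)) * (ζ i - ζ l) ∈
      d.Γ (u * (N * (2 * d.t) : ℕ) + (s₂ * d.t + s₁ * d.b : ℕ) * 1)
        (u * N + j + 2 * (d.n * (q' + 1) : ℕ)) := fun i l => by
    have e : (xi d.Y i * xi d.Y l) ^ (d.n * (q' + 1)) * (ζ i - ζ l) =
        (((xi d.Y i * xi d.Y l) ^ d.n * (d.a i - d.a l)) ^ d.κ * ((d.e₀⁻¹ : Wˣ) : W)) ^ t₁ *
          ((xi d.Y i * xi d.Y l) ^ d.n * (d.a i - d.a l)) ^ s₁ * τ := by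
      rw [hζ, hζ, ← sub_mul, ← sub_mul, ← hsub, e₁]
      generalize d.a i - d.a l = y
      ring
    rw [e]
    refine BG.le (d.mul (d.mul (BG.pow (d.ha' i l) t₁) (BG.pow (d.ha i l) s₁)) hτ') ?_ ?_
    · push_cast
      rw [z₂]
      ring
    · push_cast
      have : (0 : ℤ) ≤ t₁ + d.κ * t₁ * d.m := by positivity
      rw [z₃, z₁]
      nlinarith
  obtain ⟨z, hz⟩ := hj₀ (s₂ * d.t + s₁ * d.b) u j ((hJ _ (add_le_add
    (Nat.mul_le_mul_right _ hs₂.le) (Nat.mul_le_mul_right _ hs₁.le))).trans hj) ζ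
    fun i l => ⟨_, by rw [mul_comm (xi d.Y i)]; exact hc l i⟩
  choose n' hn' using hz
  have hw : ∀ l, d.u l ^ (q' + 1) * (d.e₀ : W) ^ t₁ ∈
      d.Γ (t₁ * -d.t + s₁ * -d.b) (t₁ * (d.κ * d.E - 1) + s₁ * (d.E + d.m)) := fun l => by
    have e : d.u l ^ (q' + 1) * (d.e₀ : W) ^ t₁ = (d.e₀ * d.u l ^ d.κ) ^ t₁ * d.u l ^ s₁ := by
      rw [e₁]
      ring
    rw [e]
    exact d.mul (BG.pow (d.hu' l) t₁) (BG.pow (d.hu l) s₁)
  have hv : ∀ i l, xi d.Y i ^ (d.n * (q' + 1)) * (d.u l ^ (q' + 1) * (d.e₀ : W) ^ t₁) * (ζ i - z) ∈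
      d.Γ 0 ((q' + 1) * d.μ + q' * (s + 1) : ℕ) := fun i l => by
    refine hμ₀ _ ?_ _ fun a => ⟨n' a + d.n * (q' + 1), ?_⟩
    · have := Nat.le_mul_of_pos_right (q' + 1) d.μ_pos
      omega
    have e : xi d.Y a ^ (n' a + d.n * (q' + 1)) * (xi d.Y i ^ (d.n * (q' + 1)) *
        (d.u l ^ (q' + 1) * (d.e₀ : W) ^ t₁) * (ζ i - z)) =
        xi d.Y i ^ (d.n * (q' + 1)) * xi d.Y a ^ (d.n * (q' + 1)) *
          (d.u l ^ (q' + 1) * (d.e₀ : W) ^ t₁) * (xi d.Y a ^ n' a * (ζ a - z)) +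
        xi d.Y a ^ n' a * (d.u l ^ (q' + 1) * (d.e₀ : W) ^ t₁) *
          ((xi d.Y i * xi d.Y a) ^ (d.n * (q' + 1)) * (ζ i - ζ a)) := by ring
    rw [e]
    refine add_mem (BG.le (d.mul (d.mul (d.mul (d.toBG.xi_pow i _) (d.toBG.xi_pow a _)) (hw l))
      (hn' a)) ?_ (le_of_eq ?_)) (BG.le (d.mul (d.mul (d.toBG.xi_pow a _) (hw l)) (hc i a))
      ?_ (le_of_eq ?_))
    · push_cast
      rw [z₂]
      ring
    · push_cast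
      rw [z₃, z₁, z₄]
      ring
    · push_cast
      rw [z₂]
      ring
    · push_cast
      rw [z₃, z₁, z₄]
      ring
  obtain ⟨θ, hθ⟩ : ∃ θ : Option (Fin s) → W, ∀ i,
    θ i = Ψ (aeval d.Y (pderiv none d.P) * (d.e₀ : W) ^ t₁ * (ζ i - z)) := ⟨_, fun _ => rfl⟩
  have hσ : ∀ i l, ∃ σ ∈ WD k s d.e (d.μ + d.c),
      aeval d.Y σ = xi d.Y i ^ d.n * d.u l * θ i := fun i l => by
    obtain ⟨f, f1, -, f2⟩ := d.rep _ _ (hv i l)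
    obtain ⟨σ, σ1, σ2⟩ := hΨ2 _ (d.μ + d.c) (by nlinarith) f (wtd_le_iff.1 f1)
    refine ⟨σ, σ1, ?_⟩
    rw [σ2, f2, hθ, ← hΨ1]
    congr 1
    ring
  have hθ' : ∀ i l, θ i - θ l = (d.a i - d.a l) * aeval d.Y (pderiv none d.P) := fun i l => by
    rw [hθ, hθ, ← map_sub, ← hΨ3, ← hΨ1, hΨ3, hsub, hζ, hζ]
    congr 1
    have h : (d.e₀ : W) ^ t₁ * ((d.e₀⁻¹ : Wˣ) : W) ^ t₁ = 1 := by
      rw [← mul_pow, Units.mul_inv, one_pow]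
    linear_combination
      (aeval d.Y (pderiv none d.P) * τ * (d.a i ^ (q' + 1) - d.a l ^ (q' + 1))) * h
  choose σ σ1 σ2 using hσ
  refine ⟨σ, σ1, fun i l l' => ?_, fun i j l => ?_⟩
  · rw [σ2, σ2]
    ring
  · rw [σ2, σ2]
    linear_combination (xi d.Y i * xi d.Y j) ^ d.n * d.u l * hθ' i j

end

end Pool.Agent.Lib.MP_bc213e_ag.KBN
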