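import Pool.Agent.Lib.MP_4287a9_ag.SerC

/-! Serre vanishing in the form of Cousin problems. -/

namespace Pool.Agent.Lib.MP_bc213e_ag.KBN

open Pool.Agent.Lib.MP_4287a9_ag

noncomputable section

variable {T A N ι : Type} [CommRing T] [IsNoetherianRing T] [CommRing A] [Algebra T A]
  [AddCommGroup N] [Module T N] [Module A N] [IsScalarTower T A N] [Fintype ι]

/-- The family is generated by the `G a` in large degrees. -/
def HGen (G : ι → Aˣ) (M : ℕ → Submodule T N) : Prop :=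
  ∃ j1, ∀ j, j1 ≤ j → ∀ v ∈ M (j + 1), ∃ w : ι → N,
    (∀ a, w a ∈ M j) ∧ v = ∑ a, (G a : A) • w a

omit [IsNoetherianRing T] [Algebra T A] [IsScalarTower T A N] in
theorem HGen.equiv {ι' : Type} [Fintype ι'] (ε : ι' ≃ ι) {G : ι → Aˣ} {M : ℕ → Submodule T N}
    (h : HGen G M) : HGen (fun a => G (ε a)) M := by
  obtain ⟨j1, h⟩ := h
  refine ⟨j1, fun j hj v hv => ?_⟩
  obtain ⟨w, hw, rfl⟩ := h j hj v hv
  exact ⟨fun a => w (ε a), fun a => hw _, (ε.sum_comp fun a => (G a : A) • w a).symm⟩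

/-- Graded submodules of finitely generated graded modules are finitely generated. -/
theorem HGen.sub {G : ι → Aˣ} {M K : ℕ → Submodule T N}
    (hG : ∀ a j, ∀ v ∈ M j, (G a : A) • v ∈ M (j + 1)) (hfg : ∀ j, (M j).FG) (h : HGen G M)
    (hK : ∀ j, K j ≤ M j) (hG' : ∀ a j, ∀ v ∈ K j, (G a : A) • v ∈ K (j + 1)) : HGen G K := by
  let ε := (Fintype.equivFin ι).symm
  obtain ⟨k, d, Φ, h1, h2⟩ := exists_cover (fun a => G (ε a)) M (fun a => hG _) hfg (h.equiv ε)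
  obtain ⟨j1, h3⟩ := sub_gen d (fun j => frM T _ d j ⊓ (K j).comap Φ) (fun j => inf_le_left)
    (fun a j v hv => ⟨frM_step d j a hv.1, by
      rw [SetLike.mem_coe, Submodule.mem_comap, h2]
      exact hG' _ _ _ hv.2⟩)
  have h4 : HGen (fun a => G (ε a)) K := by
    refine ⟨j1, fun j hj v hv => ?_⟩
    have h5 := hK _ hv
    rw [← h1] at h5
    obtain ⟨x, hx, rfl⟩ := h5
    obtain ⟨w, hw, rfl⟩ := h3 j hj x ⟨hx, hv⟩
    exact ⟨fun a => Φ (w a), fun a => (hw a).2, by simp only [map_sum, h2]⟩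
  simpa using h4.equiv ε.symm

theorem serre_fin {m : ℕ} (G : Fin m → Aˣ) (M : ℕ → Submodule T N)
    (hG : ∀ a j, ∀ v ∈ M j, (G a : A) • v ∈ M (j + 1)) (hfg : ∀ j, (M j).FG) (h : HGen G M)
    (a₀ : Fin m) : ∃ j0, ∀ j, j0 ≤ j →
      (∀ w : N, (∀ a, ∃ n, (G a : A) ^ n • w ∈ M (j + n)) → w ∈ M j) ∧
      ∀ c : Fin m → N, (∀ a b, ∃ n, ((G a : A) * G b) ^ n • (c b - c a) ∈ M (j + 2 * n)) →
        ∃ z, ∀ a, ∃ n, (G a : A) ^ n • (c a - z) ∈ M (j + n) := by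
  classical
  obtain ⟨j0, h0⟩ := serre G M hG hfg h
  have hpair : ∀ σ : Finset (Fin m), σ.card = 1 + 1 → ∃ a b, a < b ∧ σ = {a, b} := fun σ hσ => by
    obtain ⟨a, b, hab, rfl⟩ := Finset.card_eq_two.1 hσ
    rcases lt_or_gt_of_ne hab with h | h
    · exact ⟨a, b, h, rfl⟩
    · exact ⟨b, a, h, Finset.pair_comm _ _⟩
  refine ⟨j0, fun j hj => ⟨fun w hw => ?_, fun c hc => ?_⟩⟩
  · obtain ⟨b, hb, hb'⟩ := h0 j hj 0 (fun _ => w) (fun σ hσ => by
      obtain ⟨a, rfl⟩ := Finset.card_eq_one.1 hσ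
      obtain ⟨n, hn⟩ := hw a
      exact ⟨n, by simpa using hn⟩) (fun σ hσ => by
      obtain ⟨a, b, hab, rfl⟩ := hpair σ hσ
      rw [cdel_pair _ hab, sub_self])
    have h1 := hb' {a₀} (Finset.card_singleton _)
    rw [cdel_single] at h1
    obtain ⟨e, he⟩ := hb ∅ rfl
    simpa [h1] using he
  · obtain ⟨b, hb1, hb2⟩ := h0 j hj 1 (cdel fun σ => ∑ a ∈ σ, c a)
      (fun σ hσ => by
        obtain ⟨a, b, hab, rfl⟩ := hpair σ hσ
        obtain ⟨n, hn⟩ := hc a b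
        refine ⟨n, ?_⟩
        rw [cdel_pair _ hab, Finset.sum_singleton, Finset.sum_singleton, hσ,
          Finset.prod_pair hab.ne, Units.val_pow_eq_pow_val, Units.val_mul, mul_comm n]
        exact hn)
      (fun σ _ => by rw [cdel_cdel, Pi.zero_apply])
    have h1 : ∀ a a', a < a' → c a - b {a} = c a' - b {a'} := fun a a' h => by
      have h2 := hb2 {a, a'} (Finset.card_pair h.ne)
      rw [cdel_pair _ h, cdel_pair _ h, Finset.sum_singleton, Finset.sum_singleton] at h2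
      rw [sub_eq_sub_iff_sub_eq_sub, ← neg_sub, ← h2, neg_sub]
    have h2 : ∀ a a', c a - b {a} = c a' - b {a'} := fun a a' => by
      rcases lt_trichotomy a a' with h | h | h
      · exact h1 a a' h
      · rw [h]
      · exact (h1 a' a h).symm
    refine ⟨c a₀ - b {a₀}, fun a => ?_⟩
    obtain ⟨n, hn⟩ := hb1 {a} (Finset.card_singleton a)
    refine ⟨n, ?_⟩
    rw [h2 a₀ a, sub_sub_cancel]
    simpa using hn

theorem serre_cous [Nonempty ι] (G : ι → Aˣ) (M : ℕ → Submodule T N)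
    (hG : ∀ a j, ∀ v ∈ M j, (G a : A) • v ∈ M (j + 1)) (hfg : ∀ j, (M j).FG) (h : HGen G M) :
    ∃ j0, ∀ j, j0 ≤ j →
      (∀ w : N, (∀ a, ∃ n, (G a : A) ^ n • w ∈ M (j + n)) → w ∈ M j) ∧
      ∀ c : ι → N, (∀ a b, ∃ n, ((G a : A) * G b) ^ n • (c b - c a) ∈ M (j + 2 * n)) →
        ∃ z, ∀ a, ∃ n, (G a : A) ^ n • (c a - z) ∈ M (j + n) := by
  let ε := (Fintype.equivFin ι).symm
  obtain ⟨i⟩ := ‹Nonempty ι›
  obtain ⟨j0, h0⟩ := serre_fin (fun a => G (ε a)) M (fun a => hG _) hfg (h.equiv ε) (ε.symm i)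
  refine ⟨j0, fun j hj => ⟨fun w hw => (h0 j hj).1 w fun a => hw _, fun c hc => ?_⟩⟩
  obtain ⟨z, hz⟩ := (h0 j hj).2 (fun a => c (ε a)) fun a b => hc _ _
  refine ⟨z, fun a => ?_⟩
  obtain ⟨a, rfl⟩ := ε.surjective a
  exact hz a

end

end Pool.Agent.Lib.MP_bc213e_ag.KBN
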