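import Pool.Agent.Lib.MP_bc213e_ag.KBN.CoreW
import Pool.Agent.Lib.MP_bc213e_ag.KBN.CoreS

/-! Serre vanishing for a bigraded family, uniform along a generated line bundle. -/

namespace Pool.Agent.Lib.MP_bc213e_ag.KBN

open MvPolynomial

noncomputable section

variable {k W : Type} [Field k] [CommRing W] [Algebra k W] {s : ℕ}

namespace BG

variable (B : BG k W s)

/-- The coordinates as units. -/
def xu (i : Option (Fin s)) : Wˣ := (B.unit_y i).unit

theorem xu_coe (i : Option (Fin s)) : (B.xu i : W) = xi B.Y i := (B.unit_y i).unit_spec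

variable {B}

theorem le {m μ m' μ' : ℤ} {x : W} (hx : x ∈ B.Γ m μ) (h : m = m') (h' : μ ≤ μ') :
    x ∈ B.Γ m' μ' := by
  subst h
  induction μ', h' using Int.leInduction with
  | base => exact hx
  | succ n _ ih => simpa [xi] using B.mul ih (B.xi_mem none)

theorem pow {m μ : ℤ} {x : W} (hx : x ∈ B.Γ m μ) (n : ℕ) : x ^ n ∈ B.Γ (n * m) (n * μ) := by
  induction n with
  | zero => simpa using B.one
  | succ n ih =>
    rw [pow_succ]
    exact le (B.mul ih hx) (by push_cast; ring) (le_of_eq (by push_cast; ring))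

theorem mul_le (B : BG k W s) (m μ m' μ' : ℤ) :
    B.Γ m μ * B.Γ m' μ' ≤ B.Γ (m + m') (μ + μ') :=
  Submodule.mul_le.2 fun _ hx _ hy => B.mul hx hy

theorem xi_pow (B : BG k W s) (i : Option (Fin s)) (n : ℕ) : xi B.Y i ^ n ∈ B.Γ 0 n :=
  le (pow (B.xi_mem i) n) (by simp) (by simp)

theorem Gen.zero (B : BG k W s) : B.Gen 0 0 :=
  ⟨0, fun i => by simpa using Submodule.mul_mem_mul B.one B.one⟩

theorem Gen.add {a a' : ℤ} {N N' : ℕ} (h : B.Gen a N) (h' : B.Gen a' N') :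
    B.Gen (a + a') (N + N') := by
  obtain ⟨M, h⟩ := h
  obtain ⟨M', h'⟩ := h'
  refine ⟨M + M', fun i => ?_⟩
  have h1 := Submodule.mul_mem_mul (h i) (h' i)
  rw [mul_mul_mul_comm, ← pow_add] at h1
  have h2 := mul_le_mul' (B.mul_le (-a) M (-a') M') (B.mul_le a N a' N') h1
  rw [show M + M' + (N + N') = M + N + (M' + N') by ring, neg_add]
  push_cast
  exact h2

theorem Gen.nsmul {a : ℤ} {N : ℕ} (h : B.Gen a N) (n : ℕ) : B.Gen (n * a) (n * N) := by
  induction n with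
  | zero => simpa using Gen.zero B
  | succ n ih => simpa [add_mul] using ih.add h

/-- Finitely many sections suffice. -/
theorem Gen.fin {a : ℤ} {N : ℕ} (h : B.Gen a N) : ∃ (M : ℕ) (V : Submodule k W), V.FG ∧
    V ≤ B.Γ a N ∧ ∀ i, xi B.Y i ^ (M + N) ∈ B.Γ (-a) M * V := by
  obtain ⟨M, h⟩ := h
  have h1 : ∀ x ∈ B.Γ (-a) M * B.Γ a N, ∃ V : Submodule k W, V.FG ∧ V ≤ B.Γ a N ∧
      x ∈ B.Γ (-a) M * V := fun x hx => by
    refine Submodule.mul_induction_on hx (fun u hu v hv => ?_) ?_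
    · exact ⟨Submodule.span k {v}, Submodule.fg_span_singleton v,
        (Submodule.span_singleton_le_iff_mem _ _).2 hv,
        Submodule.mul_mem_mul hu (Submodule.mem_span_singleton_self v)⟩
    · rintro x y ⟨V, h1, h2, h3⟩ ⟨V', h1', h2', h3'⟩
      exact ⟨V ⊔ V', h1.sup h1', sup_le h2 h2',
        add_mem ((mul_le_mul_right (le_sup_left : V ≤ V ⊔ V') (B.Γ (-a) M)) h3)
          ((mul_le_mul_right (le_sup_right : V' ≤ V ⊔ V') (B.Γ (-a) M)) h3')⟩
  choose V h2 h3 h4 using fun i => h1 _ (h i)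
  exact ⟨M, ⨆ i, V i, Submodule.fg_iSup _ h2, iSup_le h3, fun i =>
    mul_le_mul_right (le_iSup V i) _ (h4 i)⟩

variable (B)

/-- Reduced polynomials of bounded weight, divided by `∂ P`. -/
def amb (j : ℕ) : Submodule k W :=
  ((WD k s B.e (j + B.c) ⊓
    restrictSupport k {m | m none < B.P.degreeOf none}).map (aeval B.Y).toLinearMap).map
    (LinearMap.mulLeft k (B.unit_d.unit⁻¹ : Wˣ))

theorem mem_amb {j : ℕ} {r : W} : r ∈ B.amb j ↔ ∃ q ∈ WD k s B.e (j + B.c),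
    (∀ m ∈ q.support, m none < B.P.degreeOf none) ∧
      aeval B.Y q = aeval B.Y (pderiv none B.P) * r := by
  constructor
  · rintro ⟨_, ⟨q, ⟨h1, h2⟩, rfl⟩, rfl⟩
    refine ⟨q, h1, (mem_restrictSupport_iff k).1 h2, ?_⟩
    rw [LinearMap.mulLeft_apply, ← mul_assoc, IsUnit.mul_val_inv, one_mul]
    rfl
  · rintro ⟨q, h1, h2, h3⟩
    refine ⟨_, ⟨q, ⟨h1, (mem_restrictSupport_iff k).2 h2⟩, rfl⟩, ?_⟩
    rw [LinearMap.mulLeft_apply, AlgHom.toLinearMap_apply, h3, ← mul_assoc, IsUnit.val_inv_mul,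
      one_mul]

theorem amb_fg (j : ℕ) : (B.amb j).FG :=
  (((WD_fg B.e_pos _).of_le inf_le_left).map _).map _

theorem amb_step (a : Option (Fin s)) (j : ℕ) (v : W) (hv : v ∈ B.amb j) :
    (B.xu a : W) • v ∈ B.amb (j + 1) := by
  obtain ⟨q, h1, h2, h3⟩ := B.mem_amb.1 hv
  rw [xu_coe, smul_eq_mul]
  cases a with
  | none => exact B.mem_amb.2 ⟨q, WD_mono (by omega) h1, h2, by simpa [xi] using h3⟩
  | some l =>
    refine B.mem_amb.2 ⟨q * X (some l), WD_mono (by omega) (WD_mul h1 (X_some_mem_WD l)),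
      fun m hm => ?_, ?_⟩
    · rw [support_mul_X] at hm
      obtain ⟨m', hm', rfl⟩ := Finset.mem_map.1 hm
      simpa using h2 m' hm'
    · rw [map_mul, h3, aeval_X]
      simp only [xi, Option.elim]
      ring

theorem amb_gen : HGen B.xu B.amb := by
  classical
  refine ⟨B.P.degreeOf none * B.e, fun j hj v hv => ?_⟩
  obtain ⟨q, h1, h2, h3⟩ := B.mem_amb.1 hv
  have h4 : v = ∑ m ∈ q.support, (B.unit_d.unit⁻¹ : Wˣ) * aeval B.Y (monomial m (coeff m q)) := by
    rw [← Finset.mul_sum, ← map_sum, ← q.as_sum, h3, ← mul_assoc, IsUnit.val_inv_mul, one_mul]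
  rw [h4]
  refine Finset.sum_induction _ (fun v => ∃ w : Option (Fin s) → W,
    (∀ a, w a ∈ B.amb j) ∧ v = ∑ a, (B.xu a : W) • w a) ?_ ⟨0, fun _ => zero_mem _, by simp⟩ ?_
  · rintro _ _ ⟨w, hw, rfl⟩ ⟨w', hw', rfl⟩
    exact ⟨w + w', fun a => add_mem (hw a) (hw' a), by
      simp only [Pi.add_apply, smul_add, Finset.sum_add_distrib]⟩
  intro m hm
  have key : ∀ (a : Option (Fin s)) (m' : Option (Fin s) →₀ ℕ),
      Finsupp.weight (wt s B.e) m' ≤ j + B.c → m' none = m none →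
      aeval B.Y (monomial m (coeff m q)) = xi B.Y a * aeval B.Y (monomial m' (coeff m q)) →
      ∃ w : Option (Fin s) → W, (∀ a, w a ∈ B.amb j) ∧
        (B.unit_d.unit⁻¹ : Wˣ) * aeval B.Y (monomial m (coeff m q)) =
          ∑ a, (B.xu a : W) • w a := fun a m' e1 e2 e3 => by
    refine ⟨Pi.single a ((B.unit_d.unit⁻¹ : Wˣ) * aeval B.Y (monomial m' (coeff m q))),
      fun b => ?_, ?_⟩
    · rw [Pi.single_apply]
      split_ifs
      · refine B.mem_amb.2 ⟨monomial m' (coeff m q), monomial_mem_WD e1 _, fun m'' h => ?_, ?_⟩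
        · rw [Finset.mem_singleton.1 (support_monomial_subset h), e2]
          exact h2 m hm
        · rw [← mul_assoc, IsUnit.mul_val_inv, one_mul]
      · exact zero_mem _
    · rw [Finset.sum_eq_single a (fun b _ hb => by simp [hb]) (by simp), Pi.single_eq_same, e3,
        xu_coe, smul_eq_mul, mul_left_comm]
  have h5 := mem_WD.1 h1 m hm
  by_cases h6 : ∀ l, m (some l) = 0
  · refine key none m ?_ rfl (by simp [xi])
    have h7 := Nat.mul_le_mul_right B.e (h2 m hm).le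
    rw [weight_wt]
    simp only [h6, Finset.sum_const_zero, add_zero]
    omega
  · obtain ⟨l, hl⟩ := not_forall.1 h6
    have h7 := Finsupp.weight_sub_single_add (w := wt s B.e) hl
    have h8 : wt s B.e (some l) = 1 := rfl
    refine key (some l) (m - Finsupp.single (some l) 1) (by omega) (by simp) ?_
    have h9 : monomial m (coeff m q) =
        X (some l) * monomial (m - Finsupp.single (some l) 1) (coeff m q) := by
      rw [X, monomial_mul, one_mul, add_comm, Finsupp.sub_add_single_one_cancel hl]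
    rw [h9, map_mul, aeval_X]
    rfl

theorem le_amb (j : ℕ) : B.Γ 0 j ≤ B.amb j := fun r hr => by
  obtain ⟨q, h1, h2, h3⟩ := B.rep j r hr
  exact B.mem_amb.2 ⟨q, wtd_le_iff.1 h1, fun m hm => (monomial_le_degreeOf none hm).trans_lt h2, h3⟩

theorem fg (j : ℕ) : (B.Γ 0 j).FG := (B.amb_fg j).of_le (B.le_amb j)

theorem step (a : Option (Fin s)) (j : ℕ) (v : W) (hv : v ∈ B.Γ 0 j) :
    (B.xu a : W) • v ∈ B.Γ 0 (j + 1 : ℕ) := by
  rw [xu_coe, smul_eq_mul]
  exact le (B.mul (B.xi_mem a) hv) (by simp) (by push_cast; omega)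

theorem hgen : HGen B.xu fun j : ℕ => B.Γ 0 j :=
  B.amb_gen.sub B.amb_step B.amb_fg B.le_amb B.step

/-- Global sections of large multiples of `H`. -/
theorem h0 : ∃ μ₀ : ℕ, ∀ μ : ℕ, μ₀ ≤ μ → ∀ w : W,
    (∀ i, ∃ n : ℕ, xi B.Y i ^ n * w ∈ B.Γ 0 (μ + n)) → w ∈ B.Γ 0 μ := by
  obtain ⟨j0, h⟩ := serre_cous B.xu (fun j : ℕ => B.Γ 0 j) B.step B.fg B.hgen
  refine ⟨j0, fun μ hμ w hw => (h μ hμ).1 w fun a => ?_⟩
  obtain ⟨n, hn⟩ := hw a
  exact ⟨n, by simpa [xu_coe] using hn⟩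

end BG

end

end Pool.Agent.Lib.MP_bc213e_ag.KBN
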