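import Pool.Agent.Lib.MP_bc213e_ag.KBB.Red

/-! Reduction modulo a prime over an arbitrary base field. -/

namespace Pool.Agent.Lib.MP_bc213e_ag.KBN

open Pool.Agent.Lib.MP_bc213e_ag.Hyp Pool.Agent.Lib.MP_bc213e_ag.KBB MvPolynomial

noncomputable section

variable {k₀ : Type} [Field k₀]

theorem exists_reduction' (s : Finset k₀) : ∃ (Λ : Subring k₀) (k : Type) (_ : Field k) (p : ℕ)
    (_ : Fact p.Prime) (_ : CharP k p) (_ : PerfectRing k p) (f : Λ →+* k),
    (∀ a ∈ s, a ∈ Λ) ∧ ∀ a : Λ, (a : k₀) ∈ s → a ≠ 0 → f a ≠ 0 := by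
  classical
  let t : Finset k₀ := s ∪ s.image fun a => a⁻¹
  let A : Subalgebra ℤ k₀ := Algebra.adjoin ℤ (t : Set k₀)
  have hA : Algebra.FiniteType ℤ A :=
    (Subalgebra.fg_iff_finiteType A).1 (Subalgebra.fg_adjoin_finset t)
  obtain ⟨𝔪, h𝔪⟩ := Ideal.exists_maximal A
  let _ : Field (A ⧸ 𝔪) := Ideal.Quotient.field 𝔪
  have hF : Algebra.FiniteType ℤ (A ⧸ 𝔪) :=
    Algebra.FiniteType.of_surjective (Ideal.Quotient.mkₐ ℤ 𝔪) (Ideal.Quotient.mkₐ_surjective ℤ 𝔪)
  have hJ := PLC_int_jacobson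
  have hfin : Module.Finite ℤ (A ⧸ 𝔪) := finite_of_finite_type_of_isJacobsonRing ℤ (A ⧸ 𝔪)
  obtain ⟨p, hp⟩ := CharP.exists (A ⧸ 𝔪)
  have hp0 : p ≠ 0 := by
    rintro rfl
    have : CharZero (A ⧸ 𝔪) := CharP.charP_to_charZero (A ⧸ 𝔪)
    exact Int.not_isField (isField_of_isIntegral_of_isField (R := ℤ) (S := A ⧸ 𝔪)
      (RingHom.injective_int _) (Field.toIsField _))
  have hpp : p.Prime := (CharP.char_is_prime_or_zero (A ⧸ 𝔪) p).resolve_right hp0
  have : Fact p.Prime := ⟨hpp⟩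
  refine ⟨A.toSubring, AlgebraicClosure (A ⧸ 𝔪), inferInstance, p, inferInstance, inferInstance,
    inferInstance, (algebraMap (A ⧸ 𝔪) (AlgebraicClosure (A ⧸ 𝔪))).comp (Ideal.Quotient.mk 𝔪),
    fun a ha => Algebra.subset_adjoin (Finset.mem_coe.2 (Finset.mem_union_left _ ha)),
    fun a ha ha0 => ?_⟩
  have hinv : (a : k₀)⁻¹ ∈ A.toSubring := Algebra.subset_adjoin
    (Finset.mem_coe.2 (Finset.mem_union_right _ (Finset.mem_image_of_mem _ ha)))
  have hu : a * ⟨(a : k₀)⁻¹, hinv⟩ = 1 := by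
    apply Subtype.ext
    exact mul_inv_cancel₀ (fun h => ha0 (Subtype.ext h))
  exact ((IsUnit.of_mul_eq_one _ hu).map _).ne_zero

/-- Reduction of a part `W` of `K` modulo a maximal ideal of `Λ`. -/
structure Red' {K : Type} [Field K] [Algebra k₀ K] {n : ℕ} (Y : Option (Fin n) → K)
    (P : MvPolynomial (Option (Fin n)) k₀) (Λ : Subring k₀) (k W' : Type) [Field k] [CommRing W']
    [Algebra k W'] where
  f : Λ →+* k
  W : Subring K
  π : K → W'
  Φ : Fib k W' n
  P₀ : MvPolynomial (Option (Fin n)) Λ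
  π_one : π 1 = 1
  π_add : ∀ a ∈ W, ∀ b ∈ W, π (a + b) = π a + π b
  π_mul : ∀ a ∈ W, ∀ b ∈ W, π (a * b) = π a * π b
  c_mem : ∀ a : Λ, algebraMap k₀ K a ∈ W
  π_c : ∀ a : Λ, π (algebraMap k₀ K a) = algebraMap k W' (f a)
  Y_mem : ∀ l, Y l ∈ W
  π_Y : ∀ l, π (Y l) = Φ.Y l
  map_P : map Λ.subtype P₀ = P
  Φ_P : Φ.P = map f P₀
  deg_P : Φ.P.degreeOf none = P.degreeOf none
  P_ne : Φ.P ≠ 0
  int : ∀ q : MvPolynomial (Option (Fin n)) k₀, q.degreeOf none < P.degreeOf none →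
    aeval Y q ∈ W → ∃ q₀ : MvPolynomial (Option (Fin n)) Λ, map Λ.subtype q₀ = q

theorem div_sub' {σ : Type} [Finite σ] (Λ : Subring k₀) (D h : MvPolynomial σ k₀)
    (hD : ∀ m, coeff m D ∈ Λ ∧ (coeff m D)⁻¹ ∈ Λ) (h0 : D ≠ 0) (hh : ∀ m, coeff m (D * h) ∈ Λ) :
    ∀ m, coeff m h ∈ Λ := by
  classical
  let _ : LinearOrder σ := LinearOrder.lift' (Finite.equivFin σ) (Finite.equivFin σ).injective
  have : WellFoundedGT σ := Finite.to_wellFoundedGT
  let o : MonomialOrder σ := MonomialOrder.lex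
  let h₁ : MvPolynomial σ k₀ := ∑ m ∈ h.support with coeff m h ∈ Λ, monomial m (coeff m h)
  have c₁ : ∀ m, coeff m h₁ = if coeff m h ∈ Λ then coeff m h else 0 := by
    intro m
    simp only [h₁, coeff_sum, coeff_monomial, Finset.sum_ite_eq', Finset.mem_filter,
      mem_support_iff]
    by_cases h0 : coeff m h = 0
    · simp [h0]
    · simp [h0]
  have m₁ : ∀ m, coeff m h₁ ∈ Λ := by
    intro m
    rw [c₁]
    split_ifs with hm
    · exact hm
    · exact zero_mem _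
  have m₂ : ∀ m, coeff m (D * (h - h₁)) ∈ Λ := by
    intro m
    rw [mul_sub, coeff_sub]
    refine sub_mem (hh m) ?_
    rw [coeff_mul]
    exact sum_mem fun c _ => mul_mem (hD _).1 (m₁ _)
  have hz : h - h₁ = 0 := by
    by_contra hne
    have e1 : o.leadingCoeff D * o.leadingCoeff (h - h₁) ∈ Λ := by
      rw [← MonomialOrder.leadingCoeff_mul]
      exact m₂ _
    have e2 : o.leadingCoeff D ≠ 0 := MonomialOrder.leadingCoeff_ne_zero_iff.2 h0
    have e3 : o.leadingCoeff (h - h₁) ∈ Λ := by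
      have := mul_mem (hD (o.degree D)).2 e1
      rwa [← mul_assoc, show coeff (o.degree D) D = o.leadingCoeff D from rfl,
        inv_mul_cancel₀ e2, one_mul] at this
    have e4 : o.leadingCoeff (h - h₁) ≠ 0 := MonomialOrder.leadingCoeff_ne_zero_iff.2 hne
    change coeff (o.degree (h - h₁)) (h - h₁) ∈ Λ at e3
    change coeff (o.degree (h - h₁)) (h - h₁) ≠ 0 at e4
    rw [coeff_sub, c₁] at e3 e4
    split_ifs at e3 e4 with hm
    · exact e4 (sub_self _)
    · rw [sub_zero] at e3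
      exact hm e3
  intro m
  rw [sub_eq_zero.1 hz]
  exact m₁ m

theorem red_div_pow' {σ : Type} [Finite σ] (Λ : Subring k₀) (D : MvPolynomial σ k₀)
    (hD : ∀ m, coeff m D ∈ Λ ∧ (coeff m D)⁻¹ ∈ Λ) (h0 : D ≠ 0) (N : ℕ) (h : MvPolynomial σ k₀)
    (hh : ∀ m, coeff m (D ^ N * h) ∈ Λ) : ∀ m, coeff m h ∈ Λ := by
  induction N with
  | zero => simpa using hh
  | succ N ih =>
    refine ih (div_sub' Λ D _ hD h0 ?_)
    rwa [← mul_assoc, ← pow_succ']

theorem red_lift' {σ : Type} (Λ : Subring k₀) (q : MvPolynomial σ k₀) (h : ∀ m, coeff m q ∈ Λ) :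
    ∃ q₀ : MvPolynomial σ Λ, map Λ.subtype q₀ = q := by
  classical
  refine mem_range_map_iff_coeffs_subset.2 fun a ha => ?_
  obtain ⟨m, -, rfl⟩ := mem_coeffs_iff.1 ha
  exact ⟨⟨_, h m⟩, rfl⟩

/-- A common denominator. -/
theorem red_den' {K : Type} [Field K] [Algebra k₀ K] {n : ℕ} (Y : Option (Fin n) → K)
    (den : ∀ z : K, ∃ q ρ : MvPolynomial (Option (Fin n)) k₀, ρ ≠ 0 ∧ ρ.degreeOf none = 0 ∧
      aeval Y ρ * z = aeval Y q) (S : Finset K) :
    ∃ δ : MvPolynomial (Fin n) k₀, δ ≠ 0 ∧ ∀ s ∈ S, ∃ q : MvPolynomial (Option (Fin n)) k₀,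
      s * aeval Y (rename some δ) = aeval Y q := by
  classical
  induction S using Finset.induction_on with
  | empty => exact ⟨1, one_ne_zero, by simp⟩
  | insert z S _ ih =>
    obtain ⟨δ, h0, hδ⟩ := ih
    obtain ⟨q, ρ, h1, h2, h3⟩ := den z
    rw [← natDegree_optionEquivLeft] at h2
    obtain ⟨δ', h4⟩ := Polynomial.natDegree_eq_zero.1 h2
    rw [← red_opt_rename] at h4
    obtain rfl := (optionEquivLeft k₀ (Fin n)).injective h4
    refine ⟨δ * δ', mul_ne_zero h0 fun h => h1 (by rw [h, map_zero]), fun s hs => ?_⟩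
    rcases Finset.mem_insert.1 hs with rfl | hs
    · refine ⟨rename some δ * q, ?_⟩
      simp only [map_mul, ← h3]
      ring
    · obtain ⟨q', h5⟩ := hδ s hs
      refine ⟨q' * rename some δ', ?_⟩
      simp only [map_mul, ← h5]
      ring

theorem exists_red' {K : Type} [Field K] [Algebra k₀ K] {n : ℕ} (Y : Option (Fin n) → K)
    (P : MvPolynomial (Option (Fin n)) k₀) (monic : (optionEquivLeft k₀ (Fin n) P).Monic)
    (ker : ∀ q, aeval Y q = 0 ↔ P ∣ q)
    (den : ∀ z : K, ∃ q ρ : MvPolynomial (Option (Fin n)) k₀, ρ ≠ 0 ∧ ρ.degreeOf none = 0 ∧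
      aeval Y ρ * z = aeval Y q) (S : Finset K) (C : Finset k₀) :
    ∃ (Λ : Subring k₀) (k W' : Type) (_ : Field k) (p : ℕ) (_ : Fact p.Prime) (_ : CharP k p)
      (_ : PerfectRing k p) (_ : CommRing W') (_ : Algebra k W') (R : Red' Y P Λ k W'),
      (∀ c ∈ C, c ∈ Λ) ∧ ∀ s ∈ S, s ∈ R.W := by
  classical
  obtain ⟨δ, hδ, hq⟩ := red_den' Y den S
  choose! q hq using hq
  let T : Finset k₀ := C ∪ P.coeffs ∪ δ.coeffs ∪ (rename some δ).coeffs ∪
    (rename some δ).coeffs.image (fun a => a⁻¹) ∪ S.biUnion fun s => (q s).coeffs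
  obtain ⟨Λ, k, _, p, _, _, _, f, h1, h2⟩ := exists_reduction' T
  have hc : ∀ {σ : Type} (Q : MvPolynomial σ k₀), Q.coeffs ⊆ T → ∀ m, coeff m Q ∈ Λ := by
    intro σ Q hQ m
    by_cases h : coeff m Q = 0
    · rw [h]
      exact zero_mem _
    · exact h1 _ (hQ (coeff_mem_coeffs m h))
  have sP : P.coeffs ⊆ T := fun a ha => by simp [T, ha]
  have sδ : δ.coeffs ⊆ T := fun a ha => by simp [T, ha]
  have sD : (rename some δ).coeffs ⊆ T := fun a ha => by simp [T, ha]
  have sq : ∀ s ∈ S, (q s).coeffs ⊆ T := fun s hs a ha =>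
    Finset.mem_union_right _ (Finset.mem_biUnion.2 ⟨s, hs, ha⟩)
  have hD : ∀ m, coeff m (rename some δ) ∈ Λ ∧ (coeff m (rename some δ))⁻¹ ∈ Λ := by
    intro m
    refine ⟨hc _ sD m, ?_⟩
    by_cases h : coeff m (rename some δ) = 0
    · rw [h, inv_zero]
      exact zero_mem _
    · exact h1 _ (Finset.mem_union_left _ (Finset.mem_union_right _
        (Finset.mem_image_of_mem _ (coeff_mem_coeffs m h))))
  have hD0 : rename some δ ≠ 0 := fun h =>
    hδ (rename_injective _ (Option.some_injective _) (by rw [h, map_zero]))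
  obtain ⟨P₀, hP₀⟩ := red_lift' Λ P (hc P sP)
  obtain ⟨δ₀, hδ₀⟩ := red_lift' Λ δ (hc δ sδ)
  have hinj : Function.Injective (map Λ.subtype : MvPolynomial (Fin n) Λ → _) :=
    map_injective _ Λ.subtype_injective
  have hm : (optionEquivLeft Λ (Fin n) P₀).Monic :=
    Polynomial.monic_of_injective hinj (by rwa [← red_opt_map, hP₀])
  have hm' : (optionEquivLeft k (Fin n) (map f P₀)).Monic := by
    rw [red_opt_map]
    exact hm.map _
  have hδk : map f δ₀ ≠ 0 := by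
    obtain ⟨m, hm⟩ := exists_coeff_ne_zero hδ
    have e : ((coeff m δ₀ : Λ) : k₀) = coeff m δ := by
      rw [← hδ₀, coeff_map]
      rfl
    intro h
    refine h2 (coeff m δ₀) ?_ (fun h0 => hm ?_) ?_
    · rw [e]
      exact sδ (coeff_mem_coeffs m hm)
    · rw [← e, h0]
      rfl
    · rw [← coeff_map, h, coeff_zero]
  obtain ⟨W', _, _, Φ, hΦP, hΦD⟩ := red_fib (map f P₀) hm' (map f δ₀) hδk
  let φ : MvPolynomial (Option (Fin n)) Λ →+* K := (aeval Y).toRingHom.comp (map Λ.subtype)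
  let ψ : MvPolynomial (Option (Fin n)) Λ →+* W' := (aeval Φ.Y).toRingHom.comp (map f)
  have hφ : ∀ r, φ r = aeval Y (map Λ.subtype r) := fun _ => rfl
  have hψ : ∀ r, ψ r = aeval Φ.Y (map f r) := fun _ => rfl
  have hφd : φ (rename some δ₀) = aeval Y (rename some δ) := by rw [hφ, map_rename, hδ₀]
  obtain ⟨W, π, hW, hadd, hmul, hπ⟩ := red_graph φ ψ (rename some δ₀)
    (by rw [hψ, map_rename, ← hΦD]; exact Φ.unit) (by
      intro r hr
      rw [hφ, ker, ← hP₀, ← map_dvd_iff (optionEquivLeft k₀ (Fin n)), red_opt_map, red_opt_map,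
        Polynomial.map_dvd_map _ hinj hm, map_dvd_iff] at hr
      rw [hψ, Φ.ker, hΦP]
      exact map_dvd _ hr)
  have hmem : ∀ r, φ r ∈ W := fun r => (hW _).2 ⟨0, r, by simp⟩
  have eC : ∀ a : Λ, algebraMap k₀ K a = φ (MvPolynomial.C a) := fun a => by
    rw [hφ, map_C, aeval_C]
    rfl
  have eX : ∀ l, Y l = φ (X l) := fun l => by rw [hφ, map_X, aeval_X]
  refine ⟨Λ, k, W', inferInstance, p, inferInstance, inferInstance, inferInstance, inferInstance,
    inferInstance,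
    { f := f
      W := W
      π := π
      Φ := Φ
      P₀ := P₀
      π_one := by rw [← φ.map_one, hπ, map_one]
      π_add := hadd
      π_mul := hmul
      c_mem := fun a => by rw [eC]; exact hmem _
      π_c := fun a => by rw [eC, hπ, hψ, map_C, aeval_C]
      Y_mem := fun l => by rw [eX]; exact hmem _
      π_Y := fun l => by rw [eX, hπ, hψ, map_X, aeval_X]
      map_P := hP₀
      Φ_P := hΦP
      deg_P := by
        rw [hΦP, ← hP₀, ← natDegree_optionEquivLeft, ← natDegree_optionEquivLeft, red_opt_map,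
          red_opt_map, hm.natDegree_map, hm.natDegree_map]
      P_ne := fun h => hm'.ne_zero (by rw [← hΦP, h, map_zero])
      int := fun Q hQ hQW => ?_ }, fun c hcC => h1 c (by simp [T, hcC]), fun s hs => ?_⟩
  · obtain ⟨N, r, hr⟩ := (hW _).1 hQW
    rw [hφd, hφ, ← map_pow, ← map_mul, ← sub_eq_zero, ← map_sub, ker,
      ← map_dvd_iff (optionEquivLeft k₀ (Fin n)), ← Polynomial.modByMonic_eq_zero_iff_dvd monic,
      map_sub, Polynomial.sub_modByMonic, sub_eq_zero, mul_comm, map_mul, map_pow, red_opt_rename,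
      ← Polynomial.C_pow, ← Polynomial.smul_eq_C_mul, Polynomial.smul_modByMonic,
      (Polynomial.modByMonic_eq_self_iff monic).2 (Polynomial.degree_lt_degree (by
        rwa [natDegree_optionEquivLeft, natDegree_optionEquivLeft])), ← hP₀, red_opt_map,
      red_opt_map, ← Polynomial.map_modByMonic _ hm, Polynomial.smul_eq_C_mul, Polynomial.C_pow,
      ← red_opt_rename, ← map_pow, ← map_mul] at hr
    obtain ⟨g, hg⟩ := (optionEquivLeft Λ (Fin n)).surjective
      (optionEquivLeft Λ (Fin n) r %ₘ optionEquivLeft Λ (Fin n) P₀)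
    rw [← hg, ← red_opt_map] at hr
    have e := (optionEquivLeft k₀ (Fin n)).injective hr
    refine red_lift' Λ Q (red_div_pow' Λ _ hD hD0 N Q fun m => ?_)
    rw [e, coeff_map]
    exact (coeff m g).2
  · obtain ⟨q₀, hq₀⟩ := red_lift' Λ (q s) (hc _ (sq s hs))
    exact (hW s).2 ⟨1, q₀, by rw [pow_one, hφd, hφ, hq₀, hq s hs]⟩

end

end Pool.Agent.Lib.MP_bc213e_ag.KBN
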