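import Pool.Agent.Lib.MP_bc213e_ag.KBB.Defs

/-! Definitions for the sharp lifting lemma on a finite cover of projective space. -/

namespace Pool.Agent.Lib.MP_bc213e_ag.KBN

open MvPolynomial

noncomputable section

/-- The weights: `e` for the primitive element, `1` for the coordinates. -/
def wt (s e : ℕ) (i : Option (Fin s)) : ℕ := i.elim e fun _ => 1

/-- The homogeneous coordinates `1, y₁, …, y_s`. -/
def xi {W : Type} [One W] {s : ℕ} (Y : Option (Fin s) → W) (i : Option (Fin s)) : W :=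
  i.elim 1 fun l => Y (some l)

/-- `Γ m μ` plays the role of the sections of `m L + μ H` on a finite cover of projective space
with the hypersurface model `P (Y) = 0`; `c = e (N - 1)` is the weight of `∂ P`. -/
structure BG (k W : Type) [Field k] [CommRing W] [Algebra k W] (s : ℕ) where
  Y : Option (Fin s) → W
  P : MvPolynomial (Option (Fin s)) k
  e : ℕ
  c : ℕ
  Γ : ℤ → ℤ → Submodule k W
  e_pos : 0 < e
  hP : P.weightedTotalDegree (wt s e) ≤ c + e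
  unit_y : ∀ i, IsUnit (xi Y i)
  unit_d : IsUnit (aeval Y (pderiv none P))
  one : (1 : W) ∈ Γ 0 0
  xi_mem : ∀ i, xi Y i ∈ Γ 0 1
  mul : ∀ {m μ m' μ' : ℤ} {x y : W}, x ∈ Γ m μ → y ∈ Γ m' μ' → x * y ∈ Γ (m + m') (μ + μ')
  rep : ∀ μ : ℕ, ∀ r ∈ Γ 0 μ, ∃ q : MvPolynomial (Option (Fin s)) k,
    q.weightedTotalDegree (wt s e) ≤ μ + c ∧ q.degreeOf none < P.degreeOf none ∧
      aeval Y q = aeval Y (pderiv none P) * r

variable {k W : Type} [Field k] [CommRing W] [Algebra k W] {s : ℕ}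

/-- `a L + N H` is invertible and generated by global sections. -/
def BG.Gen (B : BG k W s) (a : ℤ) (N : ℕ) : Prop :=
  ∃ M : ℕ, ∀ i, xi B.Y i ^ (M + N) ∈ B.Γ (-a) M * B.Γ a N

/-- One Cousin problem `a` for `b L - (s + 1 + m) H`, the section `e₀` and a test family `u`. -/
structure Dat (k W Λ : Type) [Field k] [CommRing W] [Algebra k W] (s : ℕ) extends BG k W s where
  κ : ℕ
  b : ℕ
  t : ℕ
  m : ℕ
  n : ℕ
  μ : ℕ
  E : ℤ
  e₀ : Wˣ
  u : Λ → W
  a : Option (Fin s) → W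
  κ_pos : 0 < κ
  μ_pos : 0 < μ
  hμ : (μ : ℤ) + s + 1 = E + n
  inv : ∃ N : ℕ, toBG.Gen 1 N
  nef : ∃ N : ℕ, 0 < N ∧ toBG.Gen (N * (2 * t) : ℕ) N
  hu : ∀ l, u l ∈ Γ (-b) (E + m)
  hu' : ∀ l, e₀ * u l ^ κ ∈ Γ (-t) (κ * E - 1)
  ha : ∀ i j, (xi Y i * xi Y j) ^ n * (a i - a j) ∈ Γ b (2 * n - (s + 1 + m))
  ha' : ∀ i j, ((xi Y i * xi Y j) ^ n * (a i - a j)) ^ κ * ((e₀⁻¹ : Wˣ) : W) ∈
    Γ t (κ * (2 * n - (s + 1 + m)))

end

end Pool.Agent.Lib.MP_bc213e_ag.KBN
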