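import Pool.Agent.Lib.MP_bc213e_ag.KBB.Psi
import Pool.Agent.Lib.MP_bc213e_ag.KBN.Defs

/-! Weighted degrees and the exact degree of the Fedder operator. -/

namespace Pool.Agent.Lib.MP_bc213e_ag.KBN

open Pool.Agent.Lib.MP_bc213e_ag.Hyp Pool.Agent.Lib.MP_bc213e_ag.KBB MvPolynomial

noncomputable section

/-- Polynomials of weighted degree at most `μ`. -/
def WD (k : Type) [CommRing k] (s e μ : ℕ) : Submodule k (MvPolynomial (Option (Fin s)) k) :=
  restrictSupport k {m | Finsupp.weight (wt s e) m ≤ μ}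

variable {k : Type} [CommRing k] {s e : ℕ}

theorem mem_WD {μ : ℕ} {f : MvPolynomial (Option (Fin s)) k} :
    f ∈ WD k s e μ ↔ ∀ m ∈ f.support, Finsupp.weight (wt s e) m ≤ μ := by
  rw [WD, mem_restrictSupport_iff]
  rfl

theorem wtd_le_iff {μ : ℕ} {f : MvPolynomial (Option (Fin s)) k} :
    f.weightedTotalDegree (wt s e) ≤ μ ↔ f ∈ WD k s e μ := by
  rw [mem_WD, weightedTotalDegree, Finset.sup_le_iff]

theorem weight_wt (m : Option (Fin s) →₀ ℕ) :
    Finsupp.weight (wt s e) m = m none * e + ∑ l, m (some l) := by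
  rw [Finsupp.weight_eq_sum, Fintype.sum_option]
  simp [wt]

theorem WD_mono {μ ν : ℕ} (h : μ ≤ ν) : WD k s e μ ≤ WD k s e ν :=
  fun _ hf => mem_WD.2 fun m hm => (mem_WD.1 hf m hm).trans h

theorem WD_mul {μ ν : ℕ} {f g : MvPolynomial (Option (Fin s)) k} (hf : f ∈ WD k s e μ)
    (hg : g ∈ WD k s e ν) : f * g ∈ WD k s e (μ + ν) := by
  classical
  refine mem_WD.2 fun m hm => ?_
  obtain ⟨a, ha, b, hb, rfl⟩ := Finset.mem_add.1 (support_mul f g hm)
  rw [map_add]
  exact add_le_add (mem_WD.1 hf a ha) (mem_WD.1 hg b hb)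

theorem monomial_mem_WD {μ : ℕ} {m : Option (Fin s) →₀ ℕ} (h : Finsupp.weight (wt s e) m ≤ μ)
    (c : k) : monomial m c ∈ WD k s e μ :=
  mem_WD.2 fun m' hm' => by
    classical
    rw [Finset.mem_singleton.1 (support_monomial_subset hm')]
    exact h

theorem C_mem_WD (c : k) : (C c : MvPolynomial (Option (Fin s)) k) ∈ WD k s e 0 :=
  monomial_mem_WD (by simp) c

theorem WD_pow {μ : ℕ} {f : MvPolynomial (Option (Fin s)) k} (hf : f ∈ WD k s e μ) (n : ℕ) :
    f ^ n ∈ WD k s e (n * μ) := by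
  induction n with
  | zero => simpa using C_mem_WD (k := k) (s := s) (e := e) 1
  | succ n ih =>
    rw [pow_succ, Nat.succ_mul]
    exact WD_mul ih hf

theorem X_none_mem_WD : (X none : MvPolynomial (Option (Fin s)) k) ∈ WD k s e e :=
  monomial_mem_WD (by simp [Finsupp.weight_single, wt]) 1

theorem X_some_mem_WD (l : Fin s) : (X (some l) : MvPolynomial (Option (Fin s)) k) ∈ WD k s e 1 :=
  monomial_mem_WD (by simp [Finsupp.weight_single, wt]) 1

theorem rename_mem_WD {μ : ℕ} {f : MvPolynomial (Fin s) k} (hf : f.totalDegree ≤ μ) :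
    rename some f ∈ WD k s e μ := by
  classical
  rw [f.as_sum, map_sum]
  refine Submodule.sum_mem _ fun m hm => ?_
  rw [rename_monomial]
  refine monomial_mem_WD (le_trans (le_of_eq ?_) ((le_totalDegree hm).trans hf)) _
  rw [weight_wt, Finsupp.mapDomain_of_notMem_range _ _ (by simp), zero_mul, zero_add,
    Finsupp.sum_fintype _ _ (fun _ => rfl)]
  exact Finset.sum_congr rfl fun l _ => Finsupp.mapDomain_apply (Option.some_injective _) _ _

theorem map_mem_WD {k' : Type} [CommRing k'] (φ : k →+* k') {μ : ℕ}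
    {f : MvPolynomial (Option (Fin s)) k} (hf : f ∈ WD k s e μ) : map φ f ∈ WD k' s e μ :=
  mem_WD.2 fun m hm => mem_WD.1 hf m (support_map_subset φ f hm)

theorem of_map_mem_WD {k' : Type} [CommRing k'] {φ : k →+* k'} (hφ : Function.Injective φ)
    {μ : ℕ} {f : MvPolynomial (Option (Fin s)) k} (hf : map φ f ∈ WD k' s e μ) :
    f ∈ WD k s e μ :=
  mem_WD.2 fun m hm => mem_WD.1 hf m (by rwa [support_map_of_injective f hφ])

theorem wt_finite (he : 0 < e) (μ : ℕ) :
    {m : Option (Fin s) →₀ ℕ | Finsupp.weight (wt s e) m ≤ μ}.Finite :=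
  Finsupp.finite_of_nat_weight_le _ (fun o => by cases o <;> simp [wt, he.ne']) μ

theorem WD_fg (he : 0 < e) (μ : ℕ) : (WD k s e μ).FG := by
  rw [WD, restrictSupport_eq_span]
  exact Submodule.fg_span ((wt_finite he μ).image _)

theorem pderiv_mem_WD {N : ℕ} {P : MvPolynomial (Option (Fin s)) k}
    (hP : P ∈ WD k s e ((N + 1) * e)) : pderiv none P ∈ WD k s e (N * e) := by
  rw [P.as_sum, map_sum]
  refine Submodule.sum_mem _ fun m hm => ?_
  rw [pderiv_monomial]
  by_cases h0 : m none = 0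
  · simp [h0]
  refine monomial_mem_WD ?_ _
  have h1 := mem_WD.1 hP m hm
  have h2 := Finsupp.weight_sub_single_add (w := wt s e) h0
  have h3 : wt s e none = e := rfl
  rw [add_mul] at h1
  omega

section char

variable {k : Type} [Field k] (p : ℕ) [Fact p.Prime] [CharP k p] [PerfectRing k p]

theorem comp_mem_WD (r : ℕ) {μ ν : ℕ} {g : MvPolynomial (Option (Fin s)) k} (hg : g ∈ WD k s e μ)
    (h : μ < p ^ r * (ν + 1) + (p ^ r - 1) * (s + e)) :
    FT1comp p r (fun _ => p ^ r - 1) g ∈ WD k s e ν := by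
  have hq : 0 < p ^ r := pow_pos (Fact.out : p.Prime).pos r
  rw [g.as_sum, map_sum]
  refine Submodule.sum_mem _ fun m hm => ?_
  by_cases h1 : ∀ o, m o % p ^ r = p ^ r - 1
  · rw [FT1comp_pos p r _ _ _ h1]
    refine monomial_mem_WD ?_ _
    have h2 := mem_WD.1 hg m hm
    have h3 : ∀ o, m o = p ^ r * FT1quo (p ^ r) m o + (p ^ r - 1) := fun o => by
      rw [FT1quo_apply, ← h1 o, Nat.div_add_mod]
    have h4 : Finsupp.weight (wt s e) m =
        p ^ r * Finsupp.weight (wt s e) (FT1quo (p ^ r) m) + (p ^ r - 1) * (s + e) := by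
      rw [weight_wt, weight_wt, h3 none, Finset.sum_congr rfl fun l _ => h3 (some l),
        Finset.sum_add_distrib, ← Finset.mul_sum, Finset.sum_const, Finset.card_univ,
        Fintype.card_fin, smul_eq_mul]
      ring
    have h5 : p ^ r * Finsupp.weight (wt s e) (FT1quo (p ^ r) m) < p ^ r * (ν + 1) := by omega
    exact Nat.lt_succ_iff.1 (lt_of_mul_lt_mul_left h5 (Nat.zero_le _))
  · rw [FT1comp_neg p r _ _ _ h1]
    exact zero_mem _

variable {W : Type} [CommRing W] [Algebra k W]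

include p in
/-- The Fedder operator with the exact bound for the weighted degree. -/
theorem exists_psi' (Φ : Fib k W s) {d : ℕ} (hP : Φ.P ∈ WD k s e d) (r : ℕ) : ∃ Ψ : W →+ W,
    (∀ u v, Ψ (u ^ p ^ r * v) = u * Ψ v) ∧
    (∀ μ ν, μ + (p ^ r - 1) * d < p ^ r * (ν + 1) + (p ^ r - 1) * (s + e) →
      ∀ f ∈ WD k s e μ, ∃ f' ∈ WD k s e ν, aeval Φ.Y f' = Ψ (aeval Φ.Y f)) ∧
    Ψ (aeval Φ.Y (pderiv none Φ.P) * ∏ l : Fin s, Φ.Y (some l) ^ (p ^ r - 1)) =
      aeval Φ.Y (pderiv none Φ.P) := by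
  have hq : 0 < p ^ r := pow_pos (Fact.out : p.Prime).pos r
  have hu : ∀ N : ℕ, IsUnit (aeval Φ.Y Φ.D ^ N) := fun N => Φ.unit.pow N
  choose Ψ hΨ using psi_key p Φ r
  have h0 : ∀ f, Ψ (aeval Φ.Y f) = psi_phi p Φ r f := fun f => by
    have h := hΨ (aeval Φ.Y f) 0 f (by rw [mul_zero, pow_zero, mul_one])
    rwa [pow_zero, mul_one] at h
  refine ⟨AddMonoidHom.mk' Ψ fun w w' => ?_, fun u v => ?_, fun μ ν h f hf => ?_, ?_⟩
  · obtain ⟨f, N, h⟩ := psi_den Φ hq w
    obtain ⟨f', N', h'⟩ := psi_den Φ hq w'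
    have h1 := hΨ (w + w') (N + N') ((Φ.D ^ N') ^ p ^ r * f + (Φ.D ^ N) ^ p ^ r * f') (by
      rw [map_add, map_mul, map_mul, map_pow, map_pow, map_pow, map_pow, ← h, ← h']
      ring)
    rw [map_add, psi_mul, psi_mul, ← hΨ w N f h, ← hΨ w' N' f' h', map_pow, map_pow] at h1
    refine (hu (N + N')).mul_right_cancel (h1.trans ?_)
    ring
  · obtain ⟨g, M, h⟩ := Φ.den u
    obtain ⟨f, N, h'⟩ := psi_den Φ hq v
    have h1 := hΨ (u ^ p ^ r * v) (M + N) (g ^ p ^ r * f) (by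
      rw [map_mul, map_pow, ← h, ← h']
      ring)
    rw [psi_mul, ← hΨ v N f h', ← h] at h1
    refine (hu (M + N)).mul_right_cancel (h1.trans ?_)
    rw [AddMonoidHom.mk'_apply]
    ring
  · refine ⟨FT1comp p r (fun _ => p ^ r - 1) (Φ.P ^ (p ^ r - 1) * f),
      comp_mem_WD p r (WD_mul (WD_pow hP _) hf) (by omega), (h0 f).symm⟩
  · have h1 : aeval Φ.Y (pderiv none Φ.P) * ∏ l : Fin s, Φ.Y (some l) ^ (p ^ r - 1) =
        aeval Φ.Y (pderiv none Φ.P * ∏ l : Fin s, X (some l) ^ (p ^ r - 1)) := by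
      simp only [map_mul, map_prod, map_pow, aeval_X]
    rw [AddMonoidHom.mk'_apply, h1, h0, psi_phi_apply, car]

end char

end

end Pool.Agent.Lib.MP_bc213e_ag.KBN
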