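import Pool.Agent.Lib.MP_bc213e_ag.Hyp.PLC

/-! Large finitely generated subrings of a field, and transfer of linear systems. -/

namespace Pool.Agent.Lib.MP_bc213e_ag.KBN

open MvPolynomial Pool.Agent.Lib.MP_bc213e_ag.Hyp

variable {k₀ : Type} [Field k₀]

/-- The subrings of a field that contain a given finite set. -/
def big (k₀ : Type) [Field k₀] : Filter (Subring k₀) where
  sets := {U | ∃ s : Finset k₀, ∀ Λ : Subring k₀, (∀ c ∈ s, c ∈ Λ) → Λ ∈ U}
  univ_sets := ⟨∅, fun _ _ => trivial⟩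
  sets_of_superset := fun ⟨s, hs⟩ h => ⟨s, fun Λ hΛ => h (hs Λ hΛ)⟩
  inter_sets := fun ⟨s, hs⟩ ⟨t, ht⟩ => by
    classical
    exact ⟨s ∪ t, fun Λ hΛ => ⟨hs Λ fun c hc => hΛ c (Finset.mem_union_left _ hc),
      ht Λ fun c hc => hΛ c (Finset.mem_union_right _ hc)⟩⟩

theorem big_mem (c : k₀) : ∀ᶠ Λ : Subring k₀ in big k₀, c ∈ Λ :=
  ⟨{c}, fun _ h => h c (Finset.mem_singleton_self c)⟩

theorem big_lift {σ : Type} (Q : MvPolynomial σ k₀) :
    ∀ᶠ Λ : Subring k₀ in big k₀, ∃ Q' : MvPolynomial σ Λ, map Λ.subtype Q' = Q :=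
  ⟨Q.coeffs, fun Λ h => (mem_range_map_iff_coeffs_subset (f := Λ.subtype)).2
    fun a ha => ⟨⟨a, h a ha⟩, rfl⟩⟩

theorem big_red {P : Subring k₀ → Prop} (h : ∀ᶠ Λ : Subring k₀ in big k₀, P Λ) :
    ∃ (Λ : Subring k₀) (k : Type) (_ : Field k) (p : ℕ) (_ : Fact p.Prime) (_ : CharP k p)
      (_ : PerfectRing k p) (_ : Λ →+* k), P Λ := by
  obtain ⟨t, ht⟩ := h
  let A : Subalgebra ℤ k₀ := Algebra.adjoin ℤ (t : Set k₀)
  have hA : Algebra.FiniteType ℤ A :=
    (Subalgebra.fg_iff_finiteType A).1 (Subalgebra.fg_adjoin_finset t)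
  obtain ⟨𝔪, h𝔪⟩ := Ideal.exists_maximal A
  let _ : Field (A ⧸ 𝔪) := Ideal.Quotient.field 𝔪
  have hF : Algebra.FiniteType ℤ (A ⧸ 𝔪) :=
    Algebra.FiniteType.of_surjective (Ideal.Quotient.mkₐ ℤ 𝔪) (Ideal.Quotient.mkₐ_surjective ℤ 𝔪)
  have hJ := PLC_int_jacobson
  have hfin : Module.Finite ℤ (A ⧸ 𝔪) := finite_of_finite_type_of_isJacobsonRing ℤ (A ⧸ 𝔪)
  obtain ⟨p, hp⟩ := CharP.exists (A ⧸ 𝔪)
  have hp0 : p ≠ 0 := by
    rintro rfl
    have : CharZero (A ⧸ 𝔪) := CharP.charP_to_charZero (A ⧸ 𝔪)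
    exact Int.not_isField (isField_of_isIntegral_of_isField (R := ℤ) (S := A ⧸ 𝔪)
      (RingHom.injective_int _) (Field.toIsField _))
  have hpp : p.Prime := (CharP.char_is_prime_or_zero (A ⧸ 𝔪) p).resolve_right hp0
  have : Fact p.Prime := ⟨hpp⟩
  exact ⟨A.toSubring, AlgebraicClosure (A ⧸ 𝔪), inferInstance, p, inferInstance, inferInstance,
    inferInstance, (algebraMap (A ⧸ 𝔪) (AlgebraicClosure (A ⧸ 𝔪))).comp (Ideal.Quotient.mk 𝔪),
    ht _ fun a ha => Algebra.subset_adjoin (Finset.mem_coe.2 ha)⟩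

theorem deg_red {σ k : Type} [CommRing k] {Λ : Subring k₀} (f : Λ →+* k) (Q : MvPolynomial σ Λ) :
    (map f Q).totalDegree ≤ (map Λ.subtype Q).totalDegree := by
  rw [totalDegree, totalDegree, support_map_of_injective Q Λ.subtype_injective]
  exact Finset.sup_mono (support_map_subset f Q)

/-- A nonzero polynomial stays nonzero under every reduction. -/
theorem big_ne {σ : Type} {Q : MvPolynomial σ k₀} (hQ : Q ≠ 0) :
    ∀ᶠ Λ : Subring k₀ in big k₀, ∀ (k : Type) [Field k] (f : Λ →+* k) (Q' : MvPolynomial σ Λ),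
      map Λ.subtype Q' = Q → map f Q' ≠ 0 := by
  obtain ⟨m, hm⟩ := ne_zero_iff.1 hQ
  filter_upwards [big_mem (coeff m Q)⁻¹] with Λ h k _ f Q' e h0
  have h1 : coeff m Q' * ⟨_, h⟩ = 1 := Subtype.ext (by
    have : ((coeff m Q' : Λ) : k₀) = coeff m Q := by rw [← e, coeff_map]; rfl
    rw [Subring.coe_mul, this]
    exact mul_inv_cancel₀ hm)
  have h2 := congrArg (coeff m) h0
  rw [coeff_map, coeff_zero] at h2
  have h3 := congrArg f h1
  rw [map_mul, h2, zero_mul, map_one] at h3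
  exact zero_ne_one h3

section

variable {σ L : Type} [Fintype L] {R S : Type} [CommRing R] [CommRing S]

/-- A linear form on tuples of polynomials. -/
noncomputable def linF (M : Finset (σ →₀ ℕ)) (lam : L → (σ →₀ ℕ) → R)
    (F : L → MvPolynomial σ R) : R := ∑ l, ∑ m ∈ M, coeff m (F l) * lam l m

theorem linF_map (f : R →+* S) (M : Finset (σ →₀ ℕ)) (lam : L → (σ →₀ ℕ) → R)
    (F : L → MvPolynomial σ R) :
    f (linF M lam F) = linF M (fun l m => f (lam l m)) fun l => map f (F l) := by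
  simp only [linF, map_sum, map_mul, coeff_map]

theorem linF_sum {J : Type} (s : Finset J) (M : Finset (σ →₀ ℕ)) (lam : L → (σ →₀ ℕ) → R)
    (c : J → R) (F : J → L → MvPolynomial σ R) :
    linF M lam (fun l => ∑ j ∈ s, c j • F j l) = ∑ j ∈ s, c j * linF M lam (F j) := by
  simp only [linF, coeff_sum, coeff_smul, smul_eq_mul, Finset.sum_mul, Finset.mul_sum, mul_assoc]
  rw [Finset.sum_comm (s := s)]
  exact Finset.sum_congr rfl fun l _ => Finset.sum_comm

theorem linF_dual (φ : (L → MvPolynomial σ R) →ₗ[R] R) [DecidableEq L] (M : Finset (σ →₀ ℕ))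
    (F : L → MvPolynomial σ R) (hF : ∀ l, (F l).support ⊆ M) :
    linF M (fun l m => φ (Pi.single l (monomial m 1))) F = φ F := by
  have h : F = ∑ l, ∑ m ∈ M, coeff m (F l) • (Pi.single l (monomial m 1) : L → _) := by
    funext l
    rw [Finset.sum_apply, Finset.sum_eq_single l]
    · rw [Finset.sum_apply]
      simp only [Pi.smul_apply, Pi.single_eq_same, smul_monomial, smul_eq_mul, mul_one]
      conv_lhs => rw [(F l).as_sum]
      exact Finset.sum_subset (hF l) fun m _ hm => by rw [notMem_support_iff.1 hm, map_zero]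
    · intro b _ hb
      rw [Finset.sum_apply]
      exact Finset.sum_eq_zero fun m _ => by rw [Pi.smul_apply, Pi.single_eq_of_ne hb.symm, smul_zero]
    · exact fun h => absurd (Finset.mem_univ l) h
  conv_rhs => rw [h]
  simp only [linF, map_sum, map_smul, smul_eq_mul]

theorem lin_expand [Fintype σ] {J : Type} [Fintype J] (D : J → ℕ) (u : J → MvPolynomial σ R)
    (hu : ∀ j, (u j).totalDegree ≤ D j) (a : J → MvPolynomial σ R) :
    ∑ j, a j * u j = ∑ ε : Σ j, (Finsupp.finite_of_degree_le (σ := σ) (D j)).toFinset,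
      coeff ε.2.1 (u ε.1) • (a ε.1 * monomial ε.2.1 1) := by
  rw [Fintype.sum_sigma]
  refine Finset.sum_congr rfl fun j _ => ?_
  simp only [← mul_smul_comm, ← Finset.mul_sum, smul_monomial, smul_eq_mul, mul_one]
  congr 1
  rw [Finset.sum_coe_sort _ fun m => monomial m (coeff m (u j))]
  conv_lhs => rw [(u j).as_sum]
  exact Finset.sum_subset (fun m hm => (Set.Finite.mem_toFinset _).2
    ((le_totalDegree hm).trans (hu j))) fun m _ hm => by rw [notMem_support_iff.1 hm, map_zero]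

end

/-- A linear system in bounded degree without solution has no solution after reduction. -/
theorem big_lin {σ L J : Type} [Fintype σ] [Fintype L] [Fintype J]
    (A : L → J → MvPolynomial σ k₀) (B : L → MvPolynomial σ k₀) (D : J → ℕ)
    (h : ¬ ∃ u : J → MvPolynomial σ k₀, (∀ j, (u j).totalDegree ≤ D j) ∧
      ∀ l, ∑ j, A l j * u j = B l) :
    ∀ᶠ Λ : Subring k₀ in big k₀, ∀ (k : Type) [Field k] (f : Λ →+* k) (A' : L → J → MvPolynomial σ Λ)
      (B' : L → MvPolynomial σ Λ), (∀ l j, map Λ.subtype (A' l j) = A l j) →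
      (∀ l, map Λ.subtype (B' l) = B l) →
      ¬ ∃ u : J → MvPolynomial σ k, (∀ j, (u j).totalDegree ≤ D j) ∧
        ∀ l, ∑ j, map f (A' l j) * u j = map f (B' l) := by
  classical
  let E := Σ j, (Finsupp.finite_of_degree_le (σ := σ) (D j)).toFinset
  let T : E → L → MvPolynomial σ k₀ := fun ε l => A l ε.1 * monomial ε.2.1 1
  have hB : B ∉ Submodule.span k₀ (Set.range T) := by
    intro hB
    obtain ⟨c, hc⟩ := (Submodule.mem_span_range_iff_exists_fun k₀).1 hB
    refine h ⟨fun j => ∑ m, c ⟨j, m⟩ • monomial m.1 1, fun j => ?_, fun l => ?_⟩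
    · refine totalDegree_finsetSum_le fun m _ => (totalDegree_smul_le _ _).trans ?_
      exact (totalDegree_monomial_le _ _).trans ((Finsupp.finite_of_degree_le (D j)).mem_toFinset.1 m.2)
    · rw [← hc, Finset.sum_apply, Fintype.sum_sigma]
      simp only [Finset.mul_sum, mul_smul_comm, Pi.smul_apply, T]
  obtain ⟨φ, h1, h2⟩ := Submodule.exists_dual_map_eq_bot_of_notMem hB inferInstance
  have h3 : ∀ ε, φ (T ε) = 0 := fun ε => (Submodule.eq_bot_iff _).1 h2 _
    (Submodule.mem_map_of_mem (Submodule.subset_span ⟨ε, rfl⟩))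
  let M : Finset (σ →₀ ℕ) := Finset.univ.biUnion fun l =>
    (B l).support ∪ Finset.univ.biUnion fun ε => (T ε l).support
  have hM1 : ∀ l, (B l).support ⊆ M := fun l m hm =>
    Finset.mem_biUnion.2 ⟨l, Finset.mem_univ _, Finset.mem_union_left _ hm⟩
  have hM2 : ∀ ε l, (T ε l).support ⊆ M := fun ε l m hm =>
    Finset.mem_biUnion.2 ⟨l, Finset.mem_univ _, Finset.mem_union_right _
      (Finset.mem_biUnion.2 ⟨ε, Finset.mem_univ _, hm⟩)⟩
  let lam : L → (σ →₀ ℕ) → k₀ := fun l m => φ (Pi.single l (monomial m 1))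
  filter_upwards [big_mem (φ B)⁻¹, (Filter.eventually_all (p := fun (l : L) (Λ : Subring k₀) =>
    ∀ m ∈ M, lam l m ∈ Λ)).2 fun l => (Filter.eventually_all_finset M).2 fun m _ => big_mem _]
    with Λ h4 h5 k _ f A' B' hA hB' ⟨u, hu, hu'⟩
  let lam' : L → (σ →₀ ℕ) → Λ := fun l m => if h : m ∈ M then ⟨_, h5 l m h⟩ else 0
  have h6 : ∀ F : L → MvPolynomial σ Λ, (∀ l, (map Λ.subtype (F l)).support ⊆ M) →
      ((linF M lam' F : Λ) : k₀) = φ fun l => map Λ.subtype (F l) := fun F hF => by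
    rw [← linF_dual φ M _ hF]
    refine (linF_map Λ.subtype M lam' F).trans ?_
    refine Finset.sum_congr rfl fun l _ => Finset.sum_congr rfl fun m hm => ?_
    simp only [lam', dif_pos hm]
    rfl
  have h7 : linF M lam' B' * ⟨_, h4⟩ = 1 := Subtype.ext (by
    rw [Subring.coe_mul, h6 B' fun l => by rw [hB']; exact hM1 l]
    simp only [hB']
    exact mul_inv_cancel₀ h1)
  have h8 : ∀ ε : E, linF M lam' (fun l => A' l ε.1 * monomial ε.2.1 1) = 0 := fun ε =>
    Subtype.ext (by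
      have e : ∀ l, map Λ.subtype (A' l ε.1 * monomial ε.2.1 1) = T ε l := fun l => by
        rw [map_mul, hA, map_monomial, map_one]
      rw [h6 _ fun l => by rw [e]; exact hM2 ε l]
      simp only [e]
      exact h3 ε)
  have h9 := congrArg f h7
  rw [map_mul, map_one, linF_map] at h9
  simp only [← hu', lin_expand D u hu] at h9
  rw [linF_sum, Finset.sum_eq_zero, zero_mul] at h9
  · exact zero_ne_one h9
  · intro ε _
    have := congrArg f (h8 ε)
    rw [linF_map, map_zero] at this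
    simp only [map_mul, map_monomial, map_one] at this
    rw [this, mul_zero]

end Pool.Agent.Lib.MP_bc213e_ag.KBN
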