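import Pool.Agent.Lib.MP_bc213e_ag.KBN.CoreR
import Pool.Agent.Lib.MP_bc213e_ag.KBN.CoreW
import Pool.Agent.Lib.MP_bc213e_ag.KBN.Lin

/-! The graph of a reduction and the transfer of linear systems. -/

namespace Pool.Agent.Lib.MP_bc213e_ag.KBN

open Pool.Agent.Lib.MP_bc213e_ag.KBB MvPolynomial

noncomputable section

variable {k₀ F : Type} [Field k₀] [Field F] [Algebra k₀ F] {s : ℕ}

namespace Red'

variable {Y : Option (Fin s) → F} {P : MvPolynomial (Option (Fin s)) k₀} {Λ : Subring k₀}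
  {k W : Type} [Field k] [CommRing W] [Algebra k W] (R : Red' Y P Λ k W)

theorem π_zero : R.π 0 = 0 := by
  have h := R.π_add 0 (zero_mem _) 0 (zero_mem _)
  rw [add_zero] at h
  exact left_eq_add.1 h

/-- The graph of the reduction. -/
def Gr : Subring (F × W) where
  carrier := {z | z.1 ∈ R.W ∧ z.2 = R.π z.1}
  mul_mem' := fun {a b} h h' =>
    ⟨mul_mem h.1 h'.1, by rw [Prod.snd_mul, Prod.fst_mul, h.2, h'.2, R.π_mul _ h.1 _ h'.1]⟩
  one_mem' := ⟨one_mem _, R.π_one.symm⟩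
  add_mem' := fun {a b} h h' =>
    ⟨add_mem h.1 h'.1, by rw [Prod.snd_add, Prod.fst_add, h.2, h'.2, R.π_add _ h.1 _ h'.1]⟩
  zero_mem' := ⟨zero_mem _, R.π_zero.symm⟩
  neg_mem' := fun {a} h => ⟨neg_mem h.1, by
    have h1 := R.π_add _ h.1 _ (neg_mem h.1)
    rw [add_neg_cancel, R.π_zero, ← h.2] at h1
    exact neg_eq_of_add_eq_zero_right h1.symm⟩

theorem gr_of {a : F} (h : a ∈ R.W) : (a, R.π a) ∈ R.Gr := ⟨h, rfl⟩

variable {R}

theorem uniq {a : F} {b b' : W} (h : (a, b) ∈ R.Gr) (h' : (a, b') ∈ R.Gr) : b = b' :=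
  h.2.trans h'.2.symm

theorem gr_mul {a a' : F} {b b' : W} (h : (a, b) ∈ R.Gr) (h' : (a', b') ∈ R.Gr) :
    (a * a', b * b') ∈ R.Gr := mul_mem h h'

theorem gr_add {a a' : F} {b b' : W} (h : (a, b) ∈ R.Gr) (h' : (a', b') ∈ R.Gr) :
    (a + a', b + b') ∈ R.Gr := add_mem h h'

theorem gr_sub {a a' : F} {b b' : W} (h : (a, b) ∈ R.Gr) (h' : (a', b') ∈ R.Gr) :
    (a - a', b - b') ∈ R.Gr := sub_mem h h'

theorem gr_pow {a : F} {b : W} (h : (a, b) ∈ R.Gr) (n : ℕ) : (a ^ n, b ^ n) ∈ R.Gr := pow_mem h n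

theorem gr_inv {a : F} {b : W} (h : (a, b) ∈ R.Gr) (h0 : a ≠ 0) (h' : a⁻¹ ∈ R.W) :
    b * R.π a⁻¹ = 1 := by
  have h1 := gr_mul h (R.gr_of h')
  rw [mul_inv_cancel₀ h0] at h1
  exact uniq h1 (one_mem R.Gr)

variable (R)

theorem gr_ev (q₀ : MvPolynomial (Option (Fin s)) Λ) :
    (aeval Y (map Λ.subtype q₀), aeval R.Φ.Y (map R.f q₀)) ∈ R.Gr := by
  induction q₀ using MvPolynomial.induction_on with
  | C a =>
    rw [map_C, map_C, aeval_C, aeval_C]
    exact ⟨R.c_mem a, (R.π_c a).symm⟩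
  | add p q hp hq =>
    rw [map_add, map_add, map_add, map_add]
    exact gr_add hp hq
  | mul_X p l hp =>
    rw [map_mul, map_mul, map_mul, map_mul, map_X, map_X, aeval_X, aeval_X]
    exact gr_mul hp ⟨R.Y_mem l, (R.π_Y l).symm⟩

theorem gr_xi (i : Option (Fin s)) : (xi Y i, xi R.Φ.Y i) ∈ R.Gr := by
  cases i with
  | none => exact one_mem R.Gr
  | some l => exact ⟨R.Y_mem _, (R.π_Y _).symm⟩

theorem gr_d : (aeval Y (pderiv none P), aeval R.Φ.Y (pderiv none R.Φ.P)) ∈ R.Gr := by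
  have h := R.gr_ev (pderiv none R.P₀)
  rwa [← pderiv_map, ← pderiv_map, R.map_P, ← R.Φ_P] at h

end Red'

theorem eq_zero_of_dvd {k : Type} [Field k] {P q : MvPolynomial (Option (Fin s)) k} (hP : P ≠ 0)
    (h : P ∣ q) (hq : q.degreeOf none < P.degreeOf none) : q = 0 := by
  obtain ⟨w, rfl⟩ := h
  by_cases hw : w = 0
  · rw [hw, mul_zero]
  · rw [degreeOf_mul_eq hP hw] at hq
    omega

theorem exists_reduced {Y : Option (Fin s) → F} {P : MvPolynomial (Option (Fin s)) k₀}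
    (monic : (optionEquivLeft k₀ (Fin s) P).Monic) (ker : ∀ q, aeval Y q = 0 ↔ P ∣ q)
    (hN : 0 < P.degreeOf none) (q : MvPolynomial (Option (Fin s)) k₀) :
    ∃ q' : MvPolynomial (Option (Fin s)) k₀,
      q'.degreeOf none < P.degreeOf none ∧ aeval Y q' = aeval Y q := by
  refine ⟨(optionEquivLeft k₀ (Fin s)).symm
    (optionEquivLeft k₀ (Fin s) q %ₘ optionEquivLeft k₀ (Fin s) P), ?_, ?_⟩
  · rw [← natDegree_optionEquivLeft, ← natDegree_optionEquivLeft, AlgEquiv.apply_symm_apply]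
    refine Polynomial.natDegree_modByMonic_lt _ monic fun h => ?_
    rw [← natDegree_optionEquivLeft, h] at hN
    simp at hN
  · rw [← sub_eq_zero, ← map_sub, ker, ← map_dvd_iff (optionEquivLeft k₀ (Fin s)), map_sub,
      AlgEquiv.apply_symm_apply]
    exact Polynomial.dvd_modByMonic_sub _ _

theorem red_sum {k J : Type} [Field k] [Fintype J] {N : ℕ} (hN : 0 < N)
    {p : J → MvPolynomial (Option (Fin s)) k} {b : MvPolynomial (Option (Fin s)) k} (ξ : J → k)
    (hp : ∀ j, (p j).degreeOf none < N) (hb : b.degreeOf none < N) :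
    (∑ j, p j * C (ξ j) - b).degreeOf none < N := by
  have e : ∀ q : MvPolynomial (Option (Fin s)) k,
      q.degreeOf none < N ↔ q ∈ restrictSupport k {m | m none < N} := fun q => by
    rw [degreeOf_lt_iff hN, mem_restrictSupport_iff]
    rfl
  rw [e]
  refine sub_mem (Submodule.sum_mem _ fun j _ => ?_) ((e _).1 hb)
  rw [mul_comm, ← smul_eq_C_mul]
  exact Submodule.smul_mem _ _ ((e _).1 (hp j))

/-- An unsolvable linear system stays unsolvable after reduction. -/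
theorem trf0 {Y : Option (Fin s) → F} {P : MvPolynomial (Option (Fin s)) k₀}
    (monic : (optionEquivLeft k₀ (Fin s) P).Monic) (ker : ∀ q, aeval Y q = 0 ↔ P ∣ q)
    (hN : 0 < P.degreeOf none)
    (den : ∀ z : F, ∃ q ρ : MvPolynomial (Option (Fin s)) k₀, ρ ≠ 0 ∧ ρ.degreeOf none = 0 ∧
      aeval Y ρ * z = aeval Y q) {J L : Type} [Fintype J] [Fintype L] (v : J → L → F) (b : L → F)
    (h : ¬ ∃ ξ : J → k₀, ∀ l, ∑ j, ξ j • v j l = b l) :
    ∀ᶠ Λ : Subring k₀ in big k₀, ∀ (k W : Type) [Field k] [CommRing W] [Algebra k W]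
      (R : Red' Y P Λ k W) (v' : J → L → W) (b' : L → W), (∀ j l, (v j l, v' j l) ∈ R.Gr) →
      (∀ l, (b l, b' l) ∈ R.Gr) → ¬ ∃ ξ : J → k, ∀ l, ∑ j, ξ j • v' j l = b' l := by
  classical
  obtain ⟨δ, hδ, hq⟩ := red_den' Y den
    (Finset.univ.image (fun x : J × L => v x.1 x.2) ∪ Finset.univ.image b)
  have hP0 : P ≠ 0 := fun h => by simp [h] at hN
  have hD : aeval Y (rename some δ) ≠ 0 := fun h =>
    hδ (rename_injective _ (Option.some_injective _) (by
      rw [map_zero]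
      refine eq_zero_of_dvd hP0 ((ker _).1 h) ?_
      rwa [← natDegree_optionEquivLeft, red_opt_rename, Polynomial.natDegree_C]))
  have h1 : ∀ j l, ∃ q : MvPolynomial (Option (Fin s)) k₀, q.degreeOf none < P.degreeOf none ∧
      aeval Y q = v j l * aeval Y (rename some δ) := fun j l => by
    obtain ⟨q, hq⟩ := hq (v j l) (Finset.mem_union_left _ (Finset.mem_image.2 ⟨(j, l), by simp⟩))
    rw [hq]
    exact exists_reduced monic ker hN q
  have h2 : ∀ l, ∃ q : MvPolynomial (Option (Fin s)) k₀, q.degreeOf none < P.degreeOf none ∧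
      aeval Y q = b l * aeval Y (rename some δ) := fun l => by
    obtain ⟨q, hq⟩ := hq (b l) (Finset.mem_union_right _ (by simp))
    rw [hq]
    exact exists_reduced monic ker hN q
  choose p p1 p2 using h1
  choose r r1 r2 using h2
  have h3 := big_lin (fun l j => p j l) r (fun _ => 0) (by
    rintro ⟨u, hu, hu'⟩
    refine h ⟨fun j => coeff 0 (u j), fun l => mul_right_cancel₀ hD ?_⟩
    rw [← r2, ← hu' l, map_sum, Finset.sum_mul]
    refine Finset.sum_congr rfl fun j _ => ?_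
    rw [totalDegree_eq_zero_iff_eq_C.1 (Nat.le_zero.1 (hu j)), map_mul, p2, aeval_C,
      Algebra.smul_def]
    ring)
  filter_upwards [h3, big_lift (rename some δ),
    Filter.eventually_all.2 fun x : J × L => big_lift (p x.1 x.2),
    Filter.eventually_all.2 fun l => big_lift (r l)] with Λ h4 ⟨δ₀, hδ₀⟩ h5 h6 k W _ _ _ R v' b' hv hb
  choose p₀ hp₀ using h5
  choose r₀ hr₀ using h6
  rintro ⟨ξ, hξ⟩
  refine h4 k R.f (fun l j => p₀ (j, l)) r₀ (fun l j => hp₀ (j, l)) hr₀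
    ⟨fun j => C (ξ j), fun j => by simp, fun l => ?_⟩
  have hdeg : ∀ q₀ : MvPolynomial (Option (Fin s)) Λ,
      (map Λ.subtype q₀).degreeOf none < P.degreeOf none →
      (map R.f q₀).degreeOf none < P.degreeOf none := fun q₀ h => by
    rw [degreeOf_lt_iff hN] at h ⊢
    intro m hm
    exact h m (by
      rw [support_map_of_injective q₀ Λ.subtype_injective]
      exact support_map_subset _ _ hm)
  have hδ' := R.gr_ev δ₀
  rw [hδ₀] at hδ'
  have e1 : ∀ j, aeval R.Φ.Y (map R.f (p₀ (j, l))) = v' j l * aeval R.Φ.Y (map R.f δ₀) := fun j => by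
    have h := R.gr_ev (p₀ (j, l))
    rw [hp₀, p2] at h
    exact Red'.uniq h (Red'.gr_mul (hv j l) hδ')
  have e2 : aeval R.Φ.Y (map R.f (r₀ l)) = b' l * aeval R.Φ.Y (map R.f δ₀) := by
    have h := R.gr_ev (r₀ l)
    rw [hr₀, r2] at h
    exact Red'.uniq h (Red'.gr_mul (hb l) hδ')
  rw [← sub_eq_zero]
  refine eq_zero_of_dvd R.P_ne ((R.Φ.ker _).1 ?_) ?_
  · rw [map_sub, map_sum, e2, ← hξ l, Finset.sum_mul, sub_eq_zero]
    refine Finset.sum_congr rfl fun j _ => ?_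
    rw [map_mul, e1, aeval_C, Algebra.smul_def]
    ring
  · rw [R.deg_P]
    exact red_sum hN ξ (fun j => hdeg _ (by rw [hp₀]; exact p1 j l)) (hdeg _ (by rw [hr₀]; exact r1 l))

theorem WD_expand {k W J : Type} [Field k] [CommRing W] [Algebra k W] [Fintype J] {e : ℕ}
    (he : 0 < e) (ν : ℕ) (Z : Option (Fin s) → W) {L : Type} (a : J → L → W) (b : L → W) :
    (∃ u : J → MvPolynomial (Option (Fin s)) k, (∀ j, u j ∈ WD k s e ν) ∧
      ∀ l, ∑ j, a j l * aeval Z (u j) = b l) ↔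
    ∃ ξ : J × (wt_finite (s := s) he ν).toFinset → k, ∀ l,
      ∑ x, ξ x • (a x.1 l * aeval Z (monomial x.2.1 (1 : k))) = b l := by
  have key : ∀ (ξ : J × (wt_finite (s := s) he ν).toFinset → k) (l : L),
      ∑ x, ξ x • (a x.1 l * aeval Z (monomial x.2.1 (1 : k))) =
      ∑ j, a j l * aeval Z (∑ m : (wt_finite (s := s) he ν).toFinset, monomial m.1 (ξ (j, m))) :=
    fun ξ l => by
    rw [Fintype.sum_prod_type]
    refine Finset.sum_congr rfl fun j _ => ?_
    rw [map_sum, Finset.mul_sum]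
    refine Finset.sum_congr rfl fun m _ => ?_
    rw [← mul_smul_comm, ← map_smul, smul_monomial, smul_eq_mul, mul_one]
  constructor
  · rintro ⟨u, hu, hu'⟩
    refine ⟨fun x => coeff x.2.1 (u x.1), fun l => ?_⟩
    rw [key, ← hu' l]
    refine Finset.sum_congr rfl fun j _ => ?_
    congr 2
    rw [Finset.sum_coe_sort _ fun m => monomial m (coeff m (u j))]
    conv_rhs => rw [(u j).as_sum]
    exact (Finset.sum_subset (fun m hm => (Set.Finite.mem_toFinset _).2 (mem_WD.1 (hu j) m hm))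
      fun m _ hm => by rw [notMem_support_iff.1 hm, map_zero]).symm
  · rintro ⟨ξ, hξ⟩
    exact ⟨fun j => ∑ m : (wt_finite (s := s) he ν).toFinset, monomial m.1 (ξ (j, m)),
      fun j => Submodule.sum_mem _ fun m _ =>
        monomial_mem_WD ((wt_finite he ν).mem_toFinset.1 m.2) _, fun l => by rw [← key, hξ]⟩

theorem trf1 {Y : Option (Fin s) → F} {P : MvPolynomial (Option (Fin s)) k₀}
    (monic : (optionEquivLeft k₀ (Fin s) P).Monic) (ker : ∀ q, aeval Y q = 0 ↔ P ∣ q)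
    (hN : 0 < P.degreeOf none)
    (den : ∀ z : F, ∃ q ρ : MvPolynomial (Option (Fin s)) k₀, ρ ≠ 0 ∧ ρ.degreeOf none = 0 ∧
      aeval Y ρ * z = aeval Y q) {J L : Type} [Fintype J] [Fintype L] {e : ℕ} (he : 0 < e) (ν : ℕ)
    (a : J → L → F) (b : L → F)
    (h : ¬ ∃ u : J → MvPolynomial (Option (Fin s)) k₀, (∀ j, u j ∈ WD k₀ s e ν) ∧
      ∀ l, ∑ j, a j l * aeval Y (u j) = b l) :
    ∀ᶠ Λ : Subring k₀ in big k₀, ∀ (k W : Type) [Field k] [CommRing W] [Algebra k W]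
      (R : Red' Y P Λ k W) (a' : J → L → W) (b' : L → W), (∀ j l, (a j l, a' j l) ∈ R.Gr) →
      (∀ l, (b l, b' l) ∈ R.Gr) →
      ¬ ∃ u : J → MvPolynomial (Option (Fin s)) k, (∀ j, u j ∈ WD k s e ν) ∧
        ∀ l, ∑ j, a' j l * aeval R.Φ.Y (u j) = b' l := by
  rw [WD_expand he] at h
  filter_upwards [trf0 monic ker hN den _ b h] with Λ h1 k W _ _ _ R a' b' ha hb
  rw [WD_expand he]
  refine h1 k W R _ b' (fun x l => Red'.gr_mul (ha _ _) ?_) hb
  simpa using R.gr_ev (monomial x.2.1 1)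

end

end Pool.Agent.Lib.MP_bc213e_ag.KBN
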