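import Pool.Agent.Lib.MP_bc213e_ag.KBN.CoreG

/-! The Cousin problem, uniformly along a generated line bundle. -/

namespace Pool.Agent.Lib.MP_bc213e_ag.KBN

open Polynomial

noncomputable section

variable {k W : Type} [Field k] [CommRing W] [Algebra k W] {s : ℕ}

namespace BG

variable {B : BG k W s}

/-- Polynomials whose coefficients are sections of the multiples of `α L + N H`. -/
def secP (B : BG k W s) (α : ℤ) (N : ℕ) : Subalgebra k W[X] where
  carrier := {p | ∀ u : ℕ, p.coeff u ∈ B.Γ (u * α) (u * N)}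
  add_mem' := fun ha hb u => by
    rw [coeff_add]
    exact add_mem (ha u) (hb u)
  mul_mem' := fun {a b} ha hb u => by
    rw [coeff_mul]
    refine sum_mem fun p hp => ?_
    rw [← Finset.HasAntidiagonal.mem_antidiagonal.1 hp]
    exact le (B.mul (ha _) (hb _)) (by push_cast; ring) (le_of_eq (by push_cast; ring))
  algebraMap_mem' := fun c u => by
    rw [Polynomial.algebraMap_apply, coeff_C]
    split_ifs with h
    · rw [h, Algebra.algebraMap_eq_smul_one]
      simpa using Submodule.smul_mem _ c B.one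
    · exact zero_mem _

theorem pow_le (B : BG k W s) (m μ : ℤ) (n : ℕ) : B.Γ m μ ^ n ≤ B.Γ (n * m) (n * μ) := by
  induction n with
  | zero => simpa using B.one
  | succ n ih =>
    rw [pow_succ]
    exact (mul_le_mul' ih le_rfl).trans ((B.mul_le _ _ _ _).trans fun x hx =>
      le hx (by push_cast; ring) (le_of_eq (by push_cast; ring)))

theorem ucous {α α₁ : ℤ} {N N₁ : ℕ} (h : B.Gen α N) (h₁ : B.Gen α₁ N₁) :
    ∃ j₀ : ℕ, ∀ u j : ℕ, j₀ ≤ j → ∀ ζ : Option (Fin s) → W,
      (∀ i l, ∃ n : ℕ, (xi B.Y i * xi B.Y l) ^ n * (ζ l - ζ i) ∈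
        B.Γ (u * α + α₁) (u * N + j + 2 * n)) →
      ∃ z, ∀ i, ∃ n : ℕ, xi B.Y i ^ n * (ζ i - z) ∈ B.Γ (u * α + α₁) (u * N + j + n) := by
  classical
  obtain ⟨M, V, ⟨S, hS⟩, hV, hM⟩ := h.fin
  obtain ⟨M₁, V₁, hfg₁, hV₁, hM₁⟩ := h₁.fin
  obtain ⟨T, hT⟩ : ∃ T : Subalgebra k W[X], T = Algebra.adjoin k (monomial 1 '' (S : Set W)) :=
    ⟨_, rfl⟩
  have : IsNoetherianRing T :=
    isNoetherianRing_of_fg (Subalgebra.fg_def.2 ⟨_, S.finite_toSet.image _, hT.symm⟩)
  have hT1 : ∀ x ∈ V, monomial 1 x ∈ T := fun x hx => by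
    rw [← hS] at hx
    induction hx using Submodule.span_induction with
    | mem x hx => exact hT ▸ Algebra.subset_adjoin ⟨x, hx, rfl⟩
    | zero => simp
    | add x y _ _ hx hy => simpa using T.add_mem hx hy
    | smul c x _ hx =>
      rw [← smul_monomial]
      exact T.smul_mem hx c
  have hT2 : ∀ u : ℕ, ∀ x ∈ V ^ u, monomial u x ∈ T := fun u => by
    induction u with
    | zero =>
      intro x hx
      rw [pow_zero] at hx
      obtain ⟨c, rfl⟩ := Submodule.mem_one.1 hx
      exact T.algebraMap_mem c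
    | succ u ih =>
      intro x hx
      rw [pow_succ] at hx
      refine Submodule.mul_induction_on hx (fun a ha b hb => ?_) fun a b ha hb => ?_
      · rw [← monomial_mul_monomial]
        exact T.mul_mem (ih a ha) (hT1 b hb)
      · rw [map_add]
        exact T.add_mem ha hb
  have hT3 : T ≤ B.secP α N := by
    rw [hT]
    refine Algebra.adjoin_le ?_
    rintro _ ⟨x, hx, rfl⟩ u
    rw [coeff_monomial]
    split_ifs with e
    · simpa [← e] using hV (hS ▸ Submodule.subset_span hx)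
    · exact zero_mem _
  let Mj : ℕ → Submodule T W[X] := fun j => Submodule.span T (C '' (B.Γ 0 j * V₁ : Submodule k W))
  obtain ⟨G, hG⟩ : ∃ G : Option (Fin s) → W[X]ˣ, ∀ a, (G a : W[X]) = C (xi B.Y a) :=
    ⟨fun a => Units.map (C : W →+* W[X]).toMonoidHom (B.xu a), fun a => by simp [xu_coe]⟩
  have hstep : ∀ a j, ∀ v ∈ Mj j, (G a : W[X]) • v ∈ Mj (j + 1) := fun a j v hv => by
    induction hv using Submodule.span_induction with
    | mem x hx =>
      obtain ⟨x, hx, rfl⟩ := hx
      refine Submodule.subset_span ⟨xi B.Y a * x, ?_, by rw [hG, smul_eq_mul, map_mul]⟩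
      refine Submodule.mul_induction_on hx (fun r hr z hz => ?_) fun x y hx hy => ?_
      · rw [← mul_assoc]
        exact Submodule.mul_mem_mul (by simpa [xu_coe] using B.step a j r hr) hz
      · rw [mul_add]
        exact add_mem hx hy
    | zero => simp
    | add x y _ _ hx hy =>
      rw [smul_add]
      exact add_mem hx hy
    | smul c x _ hx =>
      rw [smul_comm]
      exact Submodule.smul_mem _ c hx
  have hpow : ∀ a n j, ∀ v ∈ Mj j, (G a : W[X]) ^ n * v ∈ Mj (j + n) := fun a n j v hv => by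
    induction n with
    | zero => simpa using hv
    | succ n ih =>
      rw [pow_succ', mul_assoc]
      exact hstep a _ _ ih
  have hfg : ∀ j, (Mj j).FG := fun j => by
    obtain ⟨U, hU⟩ := (B.fg j).mul hfg₁
    refine ⟨U.image C, ?_⟩
    have e : (C '' (B.Γ 0 j * V₁ : Submodule k W) : Set W[X]) =
        Submodule.span k (C '' (U : Set W)) := by
      rw [← hU]
      exact congrArg SetLike.coe (Submodule.map_span (CAlgHom (R := k) (A := W)).toLinearMap U)
    rw [Finset.coe_image, ← Submodule.span_span_of_tower k T, ← e]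
  have hgen : HGen G Mj := by
    obtain ⟨j1, h1⟩ := B.hgen
    refine ⟨j1, fun j hj v hv => ?_⟩
    have hadd : ∀ x y : W[X], (∃ w : Option (Fin s) → W[X], (∀ a, w a ∈ Mj j) ∧
        x = ∑ a, (G a : W[X]) • w a) → (∃ w : Option (Fin s) → W[X], (∀ a, w a ∈ Mj j) ∧
        y = ∑ a, (G a : W[X]) • w a) → ∃ w : Option (Fin s) → W[X], (∀ a, w a ∈ Mj j) ∧
        x + y = ∑ a, (G a : W[X]) • w a := by
      rintro _ _ ⟨w, hw, rfl⟩ ⟨w', hw', rfl⟩
      exact ⟨w + w', fun a => add_mem (hw a) (hw' a), by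
        simp only [Pi.add_apply, smul_add, Finset.sum_add_distrib]⟩
    induction hv using Submodule.span_induction with
    | mem x hx =>
      obtain ⟨x, hx, rfl⟩ := hx
      refine Submodule.mul_induction_on hx (fun r hr z hz => ?_) fun x y hx hy => ?_
      · obtain ⟨w, hw, rfl⟩ := h1 j hj r hr
        refine ⟨fun a => C (w a * z), fun a =>
          Submodule.subset_span ⟨_, Submodule.mul_mem_mul (hw a) hz, rfl⟩, ?_⟩
        simp only [hG, xu_coe, smul_eq_mul, Finset.sum_mul, map_sum, map_mul, mul_assoc]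
      · rw [map_add]
        exact hadd _ _ hx hy
    | zero => exact ⟨0, fun _ => zero_mem _, by simp⟩
    | add x y _ _ hx hy => exact hadd _ _ hx hy
    | smul c x _ hx =>
      obtain ⟨w, hw, rfl⟩ := hx
      refine ⟨fun a => c • w a, fun a => Submodule.smul_mem _ c (hw a), ?_⟩
      rw [Finset.smul_sum]
      exact Finset.sum_congr rfl fun a _ => smul_comm _ _ _
  have hout : ∀ j, ∀ p ∈ Mj j, ∀ u : ℕ, p.coeff u ∈ B.Γ (u * α + α₁) (u * N + (j + N₁)) :=
    fun j p hp => by
    induction hp using Submodule.span_induction with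
    | mem x hx =>
      obtain ⟨x, hx, rfl⟩ := hx
      intro u
      rw [coeff_C]
      split_ifs with e
      · simpa [e] using B.mul_le _ _ _ _ (mul_le_mul_right hV₁ (B.Γ 0 j) hx)
      · exact zero_mem _
    | zero => simp
    | add x y _ _ hx hy => exact fun u => by simpa using add_mem (hx u) (hy u)
    | smul c x _ hx =>
      intro u
      rw [Subalgebra.smul_def, smul_eq_mul, coeff_mul]
      refine sum_mem fun p hp => ?_
      rw [← Finset.HasAntidiagonal.mem_antidiagonal.1 hp]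
      exact le (B.mul (hT3 c.2 _) (hx _)) (by push_cast; ring) (le_of_eq (by push_cast; ring))
  have hin : ∀ (i : Option (Fin s)) (u j : ℕ), ∀ v ∈ B.Γ (u * α + α₁) (u * N + (j + N₁)),
      (G i : W[X]) ^ (u * (M + N) + (M₁ + N₁)) * monomial u v ∈
        Mj (j + (u * (M + N) + (M₁ + N₁))) := fun i u j v hv => by
    have h1 := Submodule.pow_mem_pow _ (hM i) u
    rw [mul_pow, ← pow_mul] at h1
    have h2 := Submodule.mul_mem_mul (Submodule.mul_mem_mul h1 (hM₁ i)) hv
    have h3 : B.Γ (-α) M ^ u * V ^ u * (B.Γ (-α₁) M₁ * V₁) *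
        B.Γ (u * α + α₁) (u * N + (j + N₁)) ≤
        V ^ u * (B.Γ 0 (j + (u * (M + N) + (M₁ + N₁)) : ℕ) * V₁) := by
      rw [show B.Γ (-α) M ^ u * V ^ u * (B.Γ (-α₁) M₁ * V₁) *
        B.Γ (u * α + α₁) (u * N + (j + N₁)) = V ^ u * (B.Γ (-α) M ^ u * B.Γ (-α₁) M₁ *
        B.Γ (u * α + α₁) (u * N + (j + N₁)) * V₁) by ac_rfl]
      refine mul_le_mul_right (mul_le_mul_left ?_ _) _
      refine (mul_le_mul_left ((mul_le_mul_left (B.pow_le _ _ u) _).trans
        (B.mul_le _ _ _ _)) _).trans ((B.mul_le _ _ _ _).trans fun x hx => ?_)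
      exact le hx (by ring) (le_of_eq (by push_cast; ring))
    rw [hG, ← map_pow, C_mul_monomial, pow_add, mul_comm u]
    refine Submodule.mul_induction_on (h3 h2) (fun a ha b hb => ?_) fun a b ha hb => ?_
    · rw [← monomial_mul_C]
      exact Submodule.smul_mem (Mj _) ⟨_, hT2 u a ha⟩
        (Submodule.subset_span ⟨b, by rwa [mul_comm u] at hb, rfl⟩)
    · rw [map_add]
      exact add_mem ha hb
  obtain ⟨j₀, h₀⟩ := serre_cous G Mj hstep hfg hgen
  refine ⟨j₀ + N₁, fun u j hj ζ hζ => ?_⟩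
  obtain ⟨j, rfl⟩ : ∃ j', j = j' + N₁ := ⟨j - N₁, by omega⟩
  obtain ⟨z, hz⟩ := (h₀ j (by omega)).2 (fun a => monomial u (ζ a)) fun a b => by
    obtain ⟨n, hn⟩ := hζ a b
    refine ⟨n + (u * (M + N) + (M₁ + N₁)), ?_⟩
    have h1 := hpow b (u * (M + N) + (M₁ + N₁)) _ _ (hin a u (j + 2 * n) _
      (le hn rfl (le_of_eq (by push_cast; ring))))
    convert h1 using 1
    · congr 1
      ring
    · simp only [hG, smul_eq_mul, ← C_mul_X_pow_eq_monomial, map_mul, map_sub, map_pow]
      ring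
  refine ⟨z.coeff u, fun i => ?_⟩
  obtain ⟨n, hn⟩ := hz i
  have h1 := hout _ _ hn u
  rw [hG, ← map_pow, smul_eq_mul, coeff_C_mul, coeff_sub, coeff_monomial, if_pos rfl] at h1
  exact ⟨n, le h1 rfl (le_of_eq (by push_cast; ring))⟩

end BG

end

end Pool.Agent.Lib.MP_bc213e_ag.KBN
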