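import Pool.Agent.Lib.MP_bc213e_ag.KBN.CoreT
import Pool.Agent.Lib.MP_bc213e_ag.KBN.CoreF

/-! Reduction of the data and the sharp lifting lemma. -/

namespace Pool.Agent.Lib.MP_bc213e_ag.KBN

open Pool.Agent.Lib.MP_bc213e_ag.KBB MvPolynomial

noncomputable section

section sys

variable {k W Λ : Type} [Field k] [CommRing W] [Algebra k W] {s : ℕ} (d : Dat k W Λ s)

open Classical in
/-- The matrix of the linear system. -/
def Dat.A (ε : Option (Fin s) × Λ) :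
    (Option (Fin s) × Λ × Λ) ⊕ (Option (Fin s) × Option (Fin s) × Λ) → W
  | .inl x => (if ε = (x.1, x.2.1) then d.u x.2.2 else 0) -
      if ε = (x.1, x.2.2) then d.u x.2.1 else 0
  | .inr x => (if ε = (x.1, x.2.2) then xi d.Y x.2.1 ^ d.n else 0) -
      if ε = (x.2.1, x.2.2) then xi d.Y x.1 ^ d.n else 0

/-- The right hand side of the linear system. -/
def Dat.B : (Option (Fin s) × Λ × Λ) ⊕ (Option (Fin s) × Option (Fin s) × Λ) → W
  | .inl _ => 0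
  | .inr x => aeval d.Y (pderiv none d.P) *
      ((xi d.Y x.1 * xi d.Y x.2.1) ^ d.n * d.u x.2.2 * (d.a x.1 - d.a x.2.1))

theorem Dat.sol_iff [Fintype Λ] : d.Sol ↔
    ∃ u : Option (Fin s) × Λ → MvPolynomial (Option (Fin s)) k,
      (∀ ε, u ε ∈ WD k s d.e (d.μ + d.c)) ∧ ∀ l, ∑ ε, d.A ε l * aeval d.Y (u ε) = d.B l := by
  constructor
  · rintro ⟨σ, h1, h2, h3⟩
    refine ⟨fun ε => σ ε.1 ε.2, fun ε => h1 _ _, ?_⟩
    rintro (⟨i, l, l'⟩ | ⟨i, j, l⟩)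
    · simpa [Dat.A, Dat.B, sub_mul, sub_eq_zero] using h2 i l l'
    · simpa [Dat.A, Dat.B, sub_mul] using h3 i j l
  · rintro ⟨u, h1, h2⟩
    refine ⟨fun i l => u (i, l), fun i l => h1 _, fun i l l' => ?_, fun i j l => ?_⟩
    · simpa [Dat.A, Dat.B, sub_mul, sub_eq_zero] using h2 (.inl (i, l, l'))
    · simpa [Dat.A, Dat.B, sub_mul] using h2 (.inr (i, j, l))

end sys

variable {k₀ F : Type} [Field k₀] [Field F] [Algebra k₀ F] {s : ℕ}

theorem exists_list {A B : Submodule k₀ F} {x : F} (hx : x ∈ A * B) : ∃ l : List (F × F),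
    (∀ p ∈ l, p.1 ∈ A ∧ p.2 ∈ B) ∧ x = (l.map fun p => p.1 * p.2).sum := by
  refine Submodule.mul_induction_on hx (fun a ha b hb => ⟨[(a, b)], by simp [ha, hb], by simp⟩) ?_
  rintro _ _ ⟨l, h, rfl⟩ ⟨l', h', rfl⟩
  exact ⟨l ++ l', fun p hp => (List.mem_append.1 hp).elim (h p) (h' p), by simp⟩

namespace Red'

variable {Y : Option (Fin s) → F} {P : MvPolynomial (Option (Fin s)) k₀} {Λ : Subring k₀}
  {k W : Type} [Field k] [CommRing W] [Algebra k W] (R : Red' Y P Λ k W)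

/-- The reduction of a subspace. -/
def bar (A : Submodule k₀ F) : Submodule k W := Submodule.span k {w | ∃ r ∈ A, (r, w) ∈ R.Gr}

variable {R}

theorem mem_bar {A : Submodule k₀ F} {r : F} {w : W} (h : r ∈ A) (h' : (r, w) ∈ R.Gr) :
    w ∈ R.bar A := Submodule.subset_span ⟨r, h, h'⟩

theorem bar_mul {A B C : Submodule k₀ F} (h : ∀ x ∈ A, ∀ y ∈ B, x * y ∈ C) :
    R.bar A * R.bar B ≤ R.bar C := by
  rw [bar, bar, Submodule.span_mul_span, Submodule.span_le]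
  rintro _ ⟨x, ⟨r, h1, h2⟩, y, ⟨r', h1', h2'⟩, rfl⟩
  exact mem_bar (h r h1 r' h1') (gr_mul h2 h2')

theorem bar_list {A B : Submodule k₀ F} (l : List (F × F)) (h : ∀ p ∈ l, p.1 ∈ A ∧ p.2 ∈ B)
    (h' : ∀ p ∈ l, p.1 ∈ R.W ∧ p.2 ∈ R.W) :
    ∃ w, ((l.map fun p => p.1 * p.2).sum, w) ∈ R.Gr ∧ w ∈ R.bar A * R.bar B := by
  induction l with
  | nil => exact ⟨0, zero_mem R.Gr, zero_mem _⟩
  | cons p l ih =>
    obtain ⟨w, h1, h2⟩ := ih (fun q hq => h q (List.mem_cons_of_mem _ hq))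
      fun q hq => h' q (List.mem_cons_of_mem _ hq)
    have h3 := h p List.mem_cons_self
    have h4 := h' p List.mem_cons_self
    exact ⟨R.π p.1 * R.π p.2 + w, gr_add (gr_mul (R.gr_of h4.1) (R.gr_of h4.2)) h1,
      add_mem (Submodule.mul_mem_mul (mem_bar h3.1 (R.gr_of h4.1)) (mem_bar h3.2 (R.gr_of h4.2)))
        h2⟩

end Red'

theorem BG.deg_pos {k W : Type} [Field k] [CommRing W] [Algebra k W] (B : BG k W s) :
    0 < B.P.degreeOf none := by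
  obtain ⟨q, -, h, -⟩ := B.rep 0 1 B.one
  omega

/-- The reduction of a bigraded family. -/
def BG.red (B : BG k₀ F s) {Λ : Subring k₀} {k W : Type} [Field k] [CommRing W] [Algebra k W]
    (R : Red' B.Y B.P Λ k W) (hy : ∀ i, (xi B.Y i)⁻¹ ∈ R.W)
    (hd : (aeval B.Y (pderiv none B.P))⁻¹ ∈ R.W) : BG k W s where
  Y := R.Φ.Y
  P := R.Φ.P
  e := B.e
  c := B.c
  Γ m μ := R.bar (B.Γ m μ)
  e_pos := B.e_pos
  hP := by
    rw [wtd_le_iff, R.Φ_P]
    exact map_mem_WD _ (of_map_mem_WD Λ.subtype_injective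
      (by rw [R.map_P]; exact wtd_le_iff.1 B.hP))
  unit_y i := IsUnit.of_mul_eq_one _ (Red'.gr_inv (R.gr_xi i) (B.unit_y i).ne_zero (hy i))
  unit_d := IsUnit.of_mul_eq_one _ (Red'.gr_inv R.gr_d B.unit_d.ne_zero hd)
  one := Red'.mem_bar B.one (one_mem R.Gr)
  xi_mem i := Red'.mem_bar (B.xi_mem i) (R.gr_xi i)
  mul hx hy := Red'.bar_mul (fun _ h _ h' => B.mul h h') (Submodule.mul_mem_mul hx hy)
  rep μ r hr := by
    have hN : 0 < R.Φ.P.degreeOf none := R.deg_P ▸ B.deg_pos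
    have key : ∃ q ∈ WD k s B.e (μ + B.c) ⊓ restrictSupport k {m | m none < R.Φ.P.degreeOf none},
        aeval R.Φ.Y q = aeval R.Φ.Y (pderiv none R.Φ.P) * r := by
      induction hr using Submodule.span_induction with
      | mem w hw =>
        obtain ⟨r, h1, h2⟩ := hw
        obtain ⟨q, q1, q2, q3⟩ := B.rep μ r h1
        have h3 := Red'.gr_mul R.gr_d h2
        rw [← q3] at h3
        obtain ⟨q₀, rfl⟩ := R.int q q2 h3.1
        refine ⟨map R.f q₀, ⟨map_mem_WD _ (of_map_mem_WD Λ.subtype_injective (wtd_le_iff.1 q1)),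
          (mem_restrictSupport_iff k).2 fun m hm => ?_⟩, Red'.uniq (R.gr_ev q₀) h3⟩
        rw [R.deg_P]
        refine (degreeOf_lt_iff B.deg_pos).1 q2 m ?_
        rw [support_map_of_injective q₀ Λ.subtype_injective]
        exact support_map_subset _ _ hm
      | zero => exact ⟨0, zero_mem _, by simp⟩
      | add x y _ _ hx hy =>
        obtain ⟨q, h1, h2⟩ := hx
        obtain ⟨q', h1', h2'⟩ := hy
        exact ⟨q + q', add_mem h1 h1', by rw [map_add, h2, h2', mul_add]⟩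
      | smul c x _ hx =>
        obtain ⟨q, h1, h2⟩ := hx
        exact ⟨c • q, Submodule.smul_mem _ c h1, by rw [map_smul, h2, mul_smul_comm]⟩
    obtain ⟨q, ⟨h1, h2⟩, h3⟩ := key
    exact ⟨q, wtd_le_iff.2 h1, (degreeOf_lt_iff hN).2 ((mem_restrictSupport_iff k).1 h2), h3⟩

theorem BG.Gen.red {B : BG k₀ F s} {a : ℤ} {N : ℕ} (h : B.Gen a N) : ∃ S : Finset F,
    ∀ {Λ : Subring k₀} {k W : Type} [Field k] [CommRing W] [Algebra k W]
      (R : Red' B.Y B.P Λ k W) (hy : ∀ i, (xi B.Y i)⁻¹ ∈ R.W)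
      (hd : (aeval B.Y (pderiv none B.P))⁻¹ ∈ R.W), (∀ x ∈ S, x ∈ R.W) →
      (B.red R hy hd).Gen a N := by
  classical
  obtain ⟨M, h⟩ := h
  choose l h1 h2 using fun i => exists_list (h i)
  refine ⟨Finset.univ.biUnion fun i => ((l i).map Prod.fst).toFinset ∪ ((l i).map Prod.snd).toFinset,
    fun R hy hd hS => ⟨M, fun i => ?_⟩⟩
  obtain ⟨w, h3, h4⟩ := Red'.bar_list (R := R) (l i) (h1 i) fun p hp =>
    ⟨hS _ (Finset.mem_biUnion.2 ⟨i, Finset.mem_univ _, Finset.mem_union_left _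
      (List.mem_toFinset.2 (List.mem_map_of_mem hp))⟩),
     hS _ (Finset.mem_biUnion.2 ⟨i, Finset.mem_univ _, Finset.mem_union_right _
      (List.mem_toFinset.2 (List.mem_map_of_mem hp))⟩)⟩
  rw [← h2] at h3
  rw [Red'.uniq h3 (Red'.gr_pow (R.gr_xi i) _)] at h4
  exact h4

theorem Dat.sol {Λ : Type} [Fintype Λ] (d : Dat k₀ F Λ s)
    (monic : (optionEquivLeft k₀ (Fin s) d.P).Monic) (ker : ∀ q, aeval d.Y q = 0 ↔ d.P ∣ q)
    (den : ∀ z : F, ∃ q ρ : MvPolynomial (Option (Fin s)) k₀, ρ ≠ 0 ∧ ρ.degreeOf none = 0 ∧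
      aeval d.Y ρ * z = aeval d.Y q) : d.Sol := by
  classical
  by_contra hn
  rw [Dat.sol_iff] at hn
  obtain ⟨C, hC⟩ := trf1 monic ker d.toBG.deg_pos den d.e_pos _ d.A d.B hn
  obtain ⟨N₁, hN₁⟩ := d.inv
  obtain ⟨N, hN0, hN⟩ := d.nef
  obtain ⟨S₁, hS₁⟩ := hN₁.red
  obtain ⟨S₂, hS₂⟩ := hN.red
  obtain ⟨Λ₀, k, W, _, p, _, _, _, _, _, R, h1, h2⟩ := exists_red' d.Y d.P monic ker den
    (S₁ ∪ S₂ ∪ Finset.univ.image (fun i => (xi d.Y i)⁻¹) ∪ Finset.univ.image d.u ∪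
      Finset.univ.image d.a ∪
      {(aeval d.Y (pderiv none d.P))⁻¹, (d.e₀ : F), ((d.e₀⁻¹ : Fˣ) : F)}) C
  have hy : ∀ i, (xi d.Y i)⁻¹ ∈ R.W := fun i => h2 _ (by simp)
  have hd : (aeval d.Y (pderiv none d.P))⁻¹ ∈ R.W := h2 _ (by simp)
  have hu : ∀ l, (d.u l, R.π (d.u l)) ∈ R.Gr := fun l => R.gr_of (h2 _ (by simp))
  have ha : ∀ i, (d.a i, R.π (d.a i)) ∈ R.Gr := fun i => R.gr_of (h2 _ (by simp))
  have he : ((d.e₀ : F), R.π d.e₀) ∈ R.Gr := R.gr_of (h2 _ (by simp))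
  have he' : (((d.e₀⁻¹ : Fˣ) : F), R.π (d.e₀⁻¹ : Fˣ)) ∈ R.Gr := R.gr_of (h2 _ (by simp))
  have he1 : R.π d.e₀ * R.π (d.e₀⁻¹ : Fˣ) = 1 := by
    have h := Red'.gr_mul he he'
    rw [Units.mul_inv] at h
    exact Red'.uniq h (one_mem R.Gr)
  have hc : ∀ i j, ((xi d.Y i * xi d.Y j) ^ d.n * (d.a i - d.a j),
      (xi R.Φ.Y i * xi R.Φ.Y j) ^ d.n * (R.π (d.a i) - R.π (d.a j))) ∈ R.Gr := fun i j =>
    Red'.gr_mul (Red'.gr_pow (Red'.gr_mul (R.gr_xi i) (R.gr_xi j)) _) (Red'.gr_sub (ha i) (ha j))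
  let d' : Dat k W Λ s :=
    { toBG := d.toBG.red R hy hd
      κ := d.κ, b := d.b, t := d.t, m := d.m, n := d.n, μ := d.μ, E := d.E
      e₀ := ⟨R.π d.e₀, R.π (d.e₀⁻¹ : Fˣ), he1, by rw [mul_comm, he1]⟩
      u := fun l => R.π (d.u l)
      a := fun i => R.π (d.a i)
      κ_pos := d.κ_pos, μ_pos := d.μ_pos, hμ := d.hμ
      inv := ⟨N₁, hS₁ R hy hd fun x hx => h2 x (by simp [hx])⟩
      nef := ⟨N, hN0, hS₂ R hy hd fun x hx => h2 x (by simp [hx])⟩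
      hu := fun l => Red'.mem_bar (d.hu l) (hu l)
      hu' := fun l => Red'.mem_bar (d.hu' l) (Red'.gr_mul he (Red'.gr_pow (hu l) _))
      ha := fun i j => Red'.mem_bar (d.ha i j) (hc i j)
      ha' := fun i j => Red'.mem_bar (d.ha' i j) (Red'.gr_mul (Red'.gr_pow (hc i j) _) he') }
  refine hC Λ₀ h1 k W R d'.A d'.B (fun ε l => ?_) (fun l => ?_)
    (d'.sol_iff.1 (fib p d' R.Φ rfl rfl))
  · have h0 : ((0 : F), (0 : W)) ∈ R.Gr := zero_mem R.Gr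
    rcases l with x | x
    · refine Red'.gr_sub ?_ ?_ <;> split_ifs
      exacts [hu _, h0, hu _, h0]
    · refine Red'.gr_sub ?_ ?_ <;> split_ifs
      exacts [Red'.gr_pow (R.gr_xi _) _, h0, Red'.gr_pow (R.gr_xi _) _, h0]
  · rcases l with x | x
    · exact zero_mem R.Gr
    · exact Red'.gr_mul R.gr_d (Red'.gr_mul (Red'.gr_mul
        (Red'.gr_pow (Red'.gr_mul (R.gr_xi _) (R.gr_xi _)) _) (hu _)) (Red'.gr_sub (ha _) (ha _)))

/-- The sharp lifting lemma, valuation free form. -/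
theorem nc0 {k F Λ : Type} [Field k] [Field F] [Algebra k F] [Fintype Λ] (d : Dat k F Λ s)
    (monic : (optionEquivLeft k (Fin s) d.P).Monic) (ker : ∀ q, aeval d.Y q = 0 ↔ d.P ∣ q)
    (den : ∀ z : F, ∃ q ρ : MvPolynomial (Option (Fin s)) k, ρ ≠ 0 ∧ ρ.degreeOf none = 0 ∧
      aeval d.Y ρ * z = aeval d.Y q) :
    ∃ a' : F, ∀ i l, ∃ σ : MvPolynomial (Option (Fin s)) k,
      σ.weightedTotalDegree (wt s d.e) ≤ d.μ + d.c ∧
        aeval d.Y σ = aeval d.Y (pderiv none d.P) * (xi d.Y i ^ d.n * d.u l * (d.a i - a')) := by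
  obtain ⟨σ, h1, h2, h3⟩ := d.sol monic ker den
  by_cases hu : ∀ l, d.u l = 0
  · exact ⟨0, fun i l => ⟨0, wtd_le_iff.2 (zero_mem _), by simp [hu]⟩⟩
  obtain ⟨l₀, hl₀⟩ := not_forall.1 hu
  have hd := d.unit_d.ne_zero
  refine ⟨d.a none - aeval d.Y (σ none l₀) / (aeval d.Y (pderiv none d.P) * d.u l₀),
    fun i l => ⟨σ i l, wtd_le_iff.2 (h1 i l), mul_left_cancel₀ hl₀ ?_⟩⟩
  have h4 := h3 i none l₀
  have h5 : xi d.Y none = 1 := rfl
  rw [h5, one_pow, one_mul, mul_one] at h4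
  rw [h2 i l l₀]
  field_simp
  linear_combination d.u l * h4

end

end Pool.Agent.Lib.MP_bc213e_ag.KBN
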