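import Pool.Agent.Lib.MP_bc213e_ag.KBN.Defs
import Pool.Agent.Lib.MP_bc213e_ag.KBB.Hyp

/-! The weighted hypersurface model of a finite separable extension of `k(y)`. -/

namespace Pool.Agent.Lib.MP_bc213e_ag.KBN

open MvPolynomial

noncomputable section

section sp

variable {k : Type} [Field k] {s e : ℕ}

/-- All monomials have weight at most `μ` and degree at most `d` in the last variable. -/
def Sp (e μ d : ℕ) (q : MvPolynomial (Option (Fin s)) k) : Prop :=
  ∀ m ∈ q.support, Finsupp.weight (wt s e) m ≤ μ ∧ m none ≤ d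

theorem model_weight (m : Option (Fin s) →₀ ℕ) :
    Finsupp.weight (wt s e) m = e * m none + m.some.degree := by
  rw [Finsupp.weight_apply, Finsupp.sum_fintype _ _ (by simp), Fintype.sum_option,
    Finsupp.degree_eq_sum]
  simp [wt, mul_comm]

theorem Sp.mono {μ d μ' d' : ℕ} {q : MvPolynomial (Option (Fin s)) k} (h : Sp e μ d q)
    (h1 : μ ≤ μ') (h2 : d ≤ d') : Sp e μ' d' q :=
  fun m hm => ⟨(h m hm).1.trans h1, (h m hm).2.trans h2⟩

theorem Sp.add {μ d : ℕ} {q q' : MvPolynomial (Option (Fin s)) k} (h : Sp e μ d q)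
    (h' : Sp e μ d q') : Sp e μ d (q + q') := by
  classical
  intro m hm
  rcases Finset.mem_union.1 (support_add hm) with h1 | h1
  exacts [h m h1, h' m h1]

theorem Sp.sum {μ d : ℕ} {α : Type} (t : Finset α) {q : α → MvPolynomial (Option (Fin s)) k}
    (h : ∀ a ∈ t, Sp e μ d (q a)) : Sp e μ d (∑ a ∈ t, q a) :=
  Finset.sum_induction _ _ (fun _ _ => Sp.add) (fun m hm => by simp at hm) h

theorem Sp.mul {μ d μ' d' : ℕ} {q q' : MvPolynomial (Option (Fin s)) k} (h : Sp e μ d q)
    (h' : Sp e μ' d' q') : Sp e (μ + μ') (d + d') (q * q') := by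
  classical
  intro m hm
  obtain ⟨a, ha, b, hb, rfl⟩ := Finset.mem_add.1 (support_mul _ _ hm)
  rw [map_add, Finsupp.add_apply]
  exact ⟨add_le_add (h a ha).1 (h' b hb).1, add_le_add (h a ha).2 (h' b hb).2⟩

theorem sp_X_pow (j : ℕ) : Sp e (e * j) j (X none ^ j : MvPolynomial (Option (Fin s)) k) := by
  classical
  intro m hm
  rw [X_pow_eq_monomial] at hm
  obtain rfl := Finset.mem_singleton.1 (support_monomial_subset hm)
  rw [Finsupp.weight_single]
  simp [wt, mul_comm]

theorem sp_rename (a : MvPolynomial (Fin s) k) : Sp e a.totalDegree 0 (rename some a) := by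
  classical
  intro m hm
  rw [support_rename_of_injective (Option.some_injective _), Finset.mem_image] at hm
  obtain ⟨n, hn, rfl⟩ := hm
  have h0 : Finsupp.mapDomain some n none = 0 := Finsupp.mapDomain_of_notMem_range _ _ (by simp)
  have h1 : (Finsupp.mapDomain some n).some = n := by
    ext l
    rw [Finsupp.some_apply, Finsupp.mapDomain_apply (Option.some_injective _)]
  rw [model_weight, h0, h1, mul_zero, zero_add]
  exact ⟨le_totalDegree hn, le_rfl⟩

theorem Sp.wd {μ d : ℕ} {q : MvPolynomial (Option (Fin s)) k} (h : Sp e μ d q) :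
    q.weightedTotalDegree (wt s e) ≤ μ :=
  Finset.sup_le fun m hm => (h m hm).1

end sp

variable {k F₀ F : Type} [Field k] [Field F₀] [Field F] [Algebra k F₀] [Algebra k F]
  [Algebra F₀ F] [IsScalarTower k F₀ F] [FiniteDimensional F₀ F] [Algebra.IsSeparable F₀ F]
  {s : ℕ}

theorem model_prim {R : Type} [CommRing R] [IsDomain R] [Algebra R F₀] [IsFractionRing R F₀]
    [Algebra R F] [IsScalarTower R F₀ F] :
    ∃ θ : F, IsIntegral R θ ∧ Algebra.adjoin F₀ {θ} = ⊤ := by
  obtain ⟨α, hα⟩ := Field.exists_primitive_element F₀ F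
  have h1 : IsAlgebraic R α :=
    (IsFractionRing.isAlgebraic_iff R F₀ F).2 (Algebra.IsAlgebraic.isAlgebraic α)
  obtain ⟨ρ, hρ, h2⟩ := h1.exists_integral_multiple
  refine ⟨ρ • α, h2, ?_⟩
  have h3 : Algebra.adjoin F₀ {α} = ⊤ := by
    rw [← IntermediateField.adjoin_simple_toSubalgebra_of_isAlgebraic
      (Algebra.IsAlgebraic.isAlgebraic α), hα, IntermediateField.top_toSubalgebra]
  rw [eq_top_iff, ← h3, Algebra.adjoin_le_iff, Set.singleton_subset_iff]
  have h4 : algebraMap R F₀ ρ ≠ 0 := (map_ne_zero_iff _ (IsFractionRing.injective R F₀)).2 hρ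
  have h5 : α = (algebraMap R F₀ ρ)⁻¹ • (ρ • α) := by
    rw [← algebraMap_smul F₀ ρ α, smul_smul, inv_mul_cancel₀ h4, one_smul]
  have h6 := (Algebra.adjoin F₀ {ρ • α}).smul_mem (Algebra.self_mem_adjoin_singleton F₀ _)
    (algebraMap R F₀ ρ)⁻¹
  rwa [← h5] at h6

/-- The model, Euler's formula and the traces of the complementary module. -/
theorem exists_model (y : Fin s → F₀)
    (inj : Function.Injective (aeval y : MvPolynomial (Fin s) k →ₐ[k] F₀))
    (frac : ∀ x : F₀, ∃ p q : MvPolynomial (Fin s) k, q ≠ 0 ∧ x = aeval y p / aeval y q) :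
    ∃ (Y : Option (Fin s) → F) (P : MvPolynomial (Option (Fin s)) k) (e c : ℕ), 0 < e ∧
      (∀ l, Y (some l) = algebraMap F₀ F (y l)) ∧ (optionEquivLeft k (Fin s) P).Monic ∧
      (∀ q, aeval Y q = 0 ↔ P ∣ q) ∧
      (∀ z : F, ∃ q ρ : MvPolynomial (Option (Fin s)) k, ρ ≠ 0 ∧ ρ.degreeOf none = 0 ∧
        aeval Y ρ * z = aeval Y q) ∧
      P.weightedTotalDegree (wt s e) ≤ c + e ∧ aeval Y (pderiv none P) ≠ 0 ∧
      (∃ (N : ℕ) (a : ℕ → MvPolynomial (Fin s) k), (∀ j < N, (a j).totalDegree ≤ e * (N - j)) ∧
        Y none ^ N + ∑ j ∈ Finset.range N, algebraMap F₀ F (aeval y (a j)) * Y none ^ j = 0) ∧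
      (∀ (μ : ℕ) (r : F), (∀ i : ℕ, ∃ p : MvPolynomial (Fin s) k, p.totalDegree ≤ μ + e * i ∧
          Algebra.trace F₀ F (r * Y none ^ i) = aeval y p) →
        ∃ q : MvPolynomial (Option (Fin s)) k, q.weightedTotalDegree (wt s e) ≤ μ + c ∧
          q.degreeOf none < P.degreeOf none ∧ aeval Y q = aeval Y (pderiv none P) * r) ∧
      ∀ (μ : ℕ) (σ : MvPolynomial (Option (Fin s)) k) (x : F),
        σ.weightedTotalDegree (wt s e) ≤ μ + c → aeval Y σ = aeval Y (pderiv none P) * x →
        ∃ p : MvPolynomial (Fin s) k, p.totalDegree ≤ μ ∧ Algebra.trace F₀ F x = aeval y p := by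
  classical
  let _ : Algebra (MvPolynomial (Fin s) k) F₀ := (aeval y).toRingHom.toAlgebra
  let _ : Algebra (MvPolynomial (Fin s) k) F :=
    ((algebraMap F₀ F).comp (aeval y).toRingHom).toAlgebra
  have hal₀ : ∀ p : MvPolynomial (Fin s) k,
    algebraMap (MvPolynomial (Fin s) k) F₀ p = aeval y p := fun _ => rfl
  have hal : ∀ p : MvPolynomial (Fin s) k,
    algebraMap (MvPolynomial (Fin s) k) F p = algebraMap F₀ F (aeval y p) := fun _ => rfl
  have : IsScalarTower (MvPolynomial (Fin s) k) F₀ F := IsScalarTower.of_algebraMap_eq fun _ => rfl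
  have : FaithfulSMul (MvPolynomial (Fin s) k) F₀ :=
    (faithfulSMul_iff_algebraMap_injective _ _).2 inj
  have : IsFractionRing (MvPolynomial (Fin s) k) F₀ := IsFractionRing.of_field _ _ fun z => by
    obtain ⟨p, q, -, h⟩ := frac z
    exact ⟨p, q, h⟩
  have : FaithfulSMul (MvPolynomial (Fin s) k) F :=
    (faithfulSMul_iff_algebraMap_injective _ _).2 ((algebraMap F₀ F).injective.comp inj)
  obtain ⟨θ, hint, htop⟩ := model_prim (F₀ := F₀) (F := F) (R := MvPolynomial (Fin s) k)
  have hint₀ : IsIntegral F₀ θ := Algebra.IsIntegral.isIntegral θ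
  let Y : Option (Fin s) → F := fun l => l.elim θ fun l => algebraMap F₀ F (y l)
  have hY : ∀ q, aeval Y q = Polynomial.aeval θ (optionEquivLeft k (Fin s) q) := by
    intro q
    induction q using MvPolynomial.induction_on with
    | C a => simp [optionEquivLeft_C, hal, ← IsScalarTower.algebraMap_apply]
    | add p q hp hq => rw [map_add, map_add, map_add, hp, hq]
    | mul_X p l hp =>
      rw [map_mul, map_mul, map_mul, hp]
      cases l <;> simp [optionEquivLeft_X_none, optionEquivLeft_X_some, hal, Y]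
  have hρ : ∀ ρ : MvPolynomial (Fin s) k,
      aeval Y (rename some ρ) = algebraMap F₀ F (aeval y ρ) := fun ρ => by
    rw [hY, KBB.hyp_rename, Polynomial.aeval_C, hal]
  obtain ⟨p, hp⟩ : ∃ p, p = minpoly (MvPolynomial (Fin s) k) θ := ⟨_, rfl⟩
  have hm : p.Monic := hp ▸ minpoly.monic hint
  have hp₀ : minpoly F₀ θ = p.map (algebraMap _ F₀) :=
    hp ▸ minpoly.isIntegrallyClosed_eq_field_fractions' F₀ hint
  obtain ⟨d, hd⟩ : ∃ d, p.natDegree = d + 1 :=
    Nat.exists_eq_succ_of_ne_zero (hp ▸ (minpoly.natDegree_pos hint).ne')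
  have hd₀ : (minpoly F₀ θ).natDegree = d + 1 := by rw [hp₀, hm.natDegree_map, hd]
  obtain ⟨e, he, hea⟩ : ∃ e, 0 < e ∧ ∀ j ≤ d + 1, (p.coeff j).totalDegree ≤ e * (d + 1 - j) := by
    refine ⟨1 + ∑ j ∈ Finset.range (d + 1), (p.coeff j).totalDegree, by omega, fun j hj => ?_⟩
    rcases hj.eq_or_lt with rfl | hj
    · rw [← hd, hm.coeff_natDegree, totalDegree_one]
      exact Nat.zero_le _
    · have := Finset.single_le_sum (f := fun j => (p.coeff j).totalDegree)
        (fun _ _ => Nat.zero_le _) (Finset.mem_range.2 hj)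
      exact (this.trans (Nat.le_add_left _ 1)).trans (Nat.le_mul_of_pos_right _ (by omega))
  obtain ⟨P, hP⟩ := (optionEquivLeft k (Fin s)).surjective p
  have hdeg : P.degreeOf none = d + 1 := by rw [← natDegree_optionEquivLeft, hP, hd]
  have hder : aeval Y (pderiv none P) =
      Polynomial.aeval θ (Polynomial.derivative (minpoly F₀ θ)) := by
    rw [hY, KBB.hyp_pderiv, hP, hp₀, Polynomial.derivative_map, Polynomial.aeval_map_algebraMap]
  have hne : aeval Y (pderiv none P) ≠ 0 := by
    rw [hder]
    exact (Algebra.IsSeparable.isSeparable F₀ θ).aeval_derivative_ne_zero (minpoly.aeval _ _)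
  have heq : θ ^ (d + 1) +
      ∑ j ∈ Finset.range (d + 1), algebraMap F₀ F (aeval y (p.coeff j)) * θ ^ j = 0 := by
    have h1 : Polynomial.aeval θ p = 0 := hp ▸ minpoly.aeval _ _
    rw [Polynomial.aeval_eq_sum_range, hd, Finset.sum_range_succ, ← hd, hm.coeff_natDegree,
      one_smul, add_comm, hd] at h1
    simpa only [Algebra.smul_def, hal] using h1
  let pb : PowerBasis F₀ F := PowerBasis.ofAdjoinEqTop hint₀ htop
  have hdim : pb.dim = d + 1 := hd₀
  have hpb : ∀ i, pb.basis i = θ ^ (i : ℕ) := fun i => pb.basis_eq_pow i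
  have hdual : ∀ i, pb.basis.traceDual i =
      (minpolyDiv F₀ θ).coeff i / aeval Y (pderiv none P) := fun i => by
    rw [hder]
    exact Module.Basis.traceDual_powerBasis_eq pb i
  have hb : ∀ n i, i + n = d → ∃ q : MvPolynomial (Option (Fin s)) k,
      Sp e (e * n) n q ∧ aeval Y q = (minpolyDiv F₀ θ).coeff i := by
    intro n
    induction n with
    | zero =>
      intro i hi
      refine ⟨1, by simpa using sp_X_pow (k := k) (s := s) (e := e) 0, ?_⟩
      have h1 := natDegree_minpolyDiv_succ hint₀
      have h2 : i = (minpolyDiv F₀ θ).natDegree := by omega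
      rw [h2, (minpolyDiv_monic hint₀).coeff_natDegree, map_one]
    | succ n ih =>
      intro i hi
      obtain ⟨q, q1, q2⟩ := ih (i + 1) (by omega)
      refine ⟨rename some (p.coeff (i + 1)) + q * X none ^ 1, Sp.add ((sp_rename _).mono ?_
        (Nat.zero_le _)) ((q1.mul (sp_X_pow 1)).mono (by rw [mul_add]) le_rfl), ?_⟩
      · refine (hea (i + 1) (by omega)).trans (le_of_eq ?_)
        congr 1
        omega
      · rw [coeff_minpolyDiv, map_add, map_mul, q2, hρ, hp₀, Polynomial.coeff_map, hal₀, pow_one,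
          aeval_X]
        rfl
  have htr : ∀ i : ℕ, ∃ g : MvPolynomial (Fin s) k, (g = 0 ∨ g.totalDegree + e * d ≤ e * i) ∧
      Algebra.trace F₀ F (θ ^ i / aeval Y (pderiv none P)) = aeval y g := by
    intro i
    induction i using Nat.strong_induction_on with
    | _ i ih =>
      rcases le_or_gt i d with hi | hi
      · have h1 := pb.basis.trace_mul_traceDual ⟨i, by omega⟩ ⟨d, by omega⟩
        have h2 := natDegree_minpolyDiv_succ hint₀
        have h3 : (minpolyDiv F₀ θ).coeff d = 1 := by
          rw [show d = (minpolyDiv F₀ θ).natDegree by omega]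
          exact (minpolyDiv_monic hint₀).coeff_natDegree
        rw [hdual, hpb, h3, mul_one_div] at h1
        rw [h1]
        split_ifs with h
        · obtain rfl : i = d := congrArg Fin.val h
          exact ⟨1, Or.inr (by simp), by simp⟩
        · exact ⟨0, Or.inl rfl, by simp⟩
      · obtain ⟨n, rfl⟩ : ∃ n, i = n + (d + 1) := ⟨i - (d + 1), by omega⟩
        choose! g hg hg' using ih
        refine ⟨-∑ j ∈ Finset.range (d + 1), p.coeff j * g (n + j), Or.inr ?_, ?_⟩
        · rw [totalDegree_neg]
          have h1 : (∑ j ∈ Finset.range (d + 1), p.coeff j * g (n + j)).totalDegree ≤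
              e * (n + 1) := by
            refine totalDegree_finsetSum_le fun j hj => ?_
            have hj' := Finset.mem_range.1 hj
            rcases hg (n + j) (by omega) with h | h
            · simp [h]
            · refine (totalDegree_mul _ _).trans ?_
              have h2 := hea j hj'.le
              obtain ⟨r, rfl⟩ : ∃ r, d = j + r := ⟨d - j, by omega⟩
              rw [show j + r + 1 - j = r + 1 by omega] at h2
              simp only [mul_add] at h h2 ⊢
              omega
          simp only [mul_add] at h1 ⊢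
          omega
        · have h1 : θ ^ (n + (d + 1)) / aeval Y (pderiv none P) =
              -∑ j ∈ Finset.range (d + 1),
                aeval y (p.coeff j) • (θ ^ (n + j) / aeval Y (pderiv none P)) := by
            rw [pow_add, eq_neg_of_add_eq_zero_left heq, mul_neg, neg_div, Finset.mul_sum,
              Finset.sum_div]
            refine congrArg _ (Finset.sum_congr rfl fun j _ => ?_)
            rw [Algebra.smul_def, pow_add]
            ring
          rw [h1, map_neg, map_neg, map_sum, map_sum]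
          refine congrArg _ (Finset.sum_congr rfl fun j hj => ?_)
          rw [map_smul, hg' _ (by have := Finset.mem_range.1 hj; omega), map_mul, smul_eq_mul]
  refine ⟨Y, P, e, e * d, he, fun _ => rfl, hP ▸ hm, fun q => ?_, fun z => ?_, ?_, hne,
    ⟨d + 1, p.coeff, fun j hj => hea j hj.le, heq⟩, fun μ r hr => ?_, fun μ σ x hσ hx => ?_⟩
  · rw [hY, minpoly.isIntegrallyClosed_dvd_iff hint, ← hp, ← hP, map_dvd_iff]
  · obtain ⟨f, rfl⟩ := pb.exists_eq_aeval' z
    obtain ⟨b, hb0, hb⟩ := IsLocalization.integerNormalization_spec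
      (nonZeroDivisors (MvPolynomial (Fin s) k)) f
    obtain ⟨q, hq⟩ := (optionEquivLeft k (Fin s)).surjective
      (IsLocalization.integerNormalization (nonZeroDivisors (MvPolynomial (Fin s) k)) f)
    refine ⟨q, rename some b, (map_ne_zero_iff _ (rename_injective _ (Option.some_injective _))).2
      (nonZeroDivisors.ne_zero hb0), ?_, ?_⟩
    · rw [← natDegree_optionEquivLeft, KBB.hyp_rename, Polynomial.natDegree_C]
    · rw [hρ, hY, hq, ← Polynomial.aeval_map_algebraMap F₀ θ, hb, ← algebraMap_smul F₀ b f,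
        map_smul, Algebra.smul_def, hal₀]
      rfl
  · have h1 : P = ∑ j ∈ Finset.range (d + 1 + 1), rename some (p.coeff j) * X none ^ j := by
      apply (optionEquivLeft k (Fin s)).injective
      rw [hP, map_sum]
      simp only [map_mul, map_pow, KBB.hyp_rename, optionEquivLeft_X_none]
      rw [← hd]
      exact p.as_sum_range_C_mul_X_pow
    rw [h1]
    refine (Sp.sum (d := d + 1) _ fun j hj => ?_).wd
    have hj' : j ≤ d + 1 := Nat.lt_succ_iff.1 (Finset.mem_range.1 hj)
    refine ((sp_rename _).mul (sp_X_pow j)).mono ?_ (by omega)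
    have h2 := hea j hj'
    obtain ⟨r, hr⟩ : ∃ r, d + 1 = j + r := ⟨d + 1 - j, by omega⟩
    have h3 : e * (d + 1) = e * (j + r) := by rw [hr]
    rw [show d + 1 - j = r by omega] at h2
    simp only [mul_add] at h3
    omega
  · choose g hg hg' using hr
    choose q hq hq' using fun i : Fin pb.dim => hb (d - i) i (by have := i.2; omega)
    have h1 : Sp e (μ + e * d) d (∑ i : Fin pb.dim, rename some (g i) * q i) := by
      refine Sp.sum _ fun i _ => ((sp_rename _).mul (hq i)).mono ?_ (by omega)
      have h2 := hg i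
      have h3 : e * d = e * (i + (d - i)) := by
        congr 1
        have := i.2
        omega
      rw [mul_add] at h3
      omega
    refine ⟨_, h1.wd, ?_, ?_⟩
    · rw [hdeg, degreeOf_lt_iff (Nat.succ_pos d)]
      exact fun m hm => Nat.lt_succ_of_le (h1 m hm).2
    · conv_rhs => rw [← pb.basis.traceDual.sum_repr r, Finset.mul_sum]
      rw [map_sum]
      refine Finset.sum_congr rfl fun i _ => ?_
      rw [map_mul, hρ, hq', Module.Basis.traceDual_repr_apply, Algebra.traceForm_apply, hpb,
        hdual, Algebra.smul_def, ← hg', mul_left_comm, mul_div_cancel₀ _ hne]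
      rfl
  · choose g hg hg' using htr
    refine ⟨∑ m ∈ σ.support, monomial m.some (coeff m σ) * g (m none), ?_, ?_⟩
    · refine totalDegree_finsetSum_le fun m hm => ?_
      rcases hg (m none) with h | h
      · simp [h]
      · have h1 := (le_weightedTotalDegree _ hm).trans hσ
        rw [model_weight] at h1
        have h2 : (monomial m.some (coeff m σ)).totalDegree ≤ m.some.degree :=
          totalDegree_monomial_le _ _
        have h3 := totalDegree_mul (monomial m.some (coeff m σ)) (g (m none))
        omega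
    · have h1 : x = ∑ m ∈ σ.support, aeval y (monomial m.some (coeff m σ)) •
          (θ ^ m none / aeval Y (pderiv none P)) := by
        rw [← mul_div_cancel_left₀ x hne, ← hx]
        conv_lhs => rw [σ.as_sum, map_sum, Finset.sum_div]
        refine Finset.sum_congr rfl fun m _ => ?_
        rw [hY (monomial m _), optionEquivLeft_monomial, Polynomial.aeval_monomial, hal,
          Algebra.smul_def, mul_div_assoc]
      rw [h1, map_sum, map_sum]
      refine Finset.sum_congr rfl fun m _ => ?_
      rw [map_smul, hg', map_mul, smul_eq_mul]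

end

end Pool.Agent.Lib.MP_bc213e_ag.KBN
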