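import Pool.Agent.Lib.MP_bc213e_ag.KBN.Val
import Pool.Agent.Lib.MP_bc213e_ag.KBN.Model
import Pool.Agent.Lib.MP_bc213e_ag.KBN.CoreZ

/-! From valuations to the graded data of the sharp lifting lemma. -/

set_option linter.unusedSectionVars false

namespace Pool.Agent.Lib.MP_bc213e_ag.KBN

open KBV KBV.Base Module MvPolynomial

variable {k F₀ Ω : Type} [Field k] [Field F₀] [Field Ω] [Algebra k F₀] [Algebra F₀ Ω]
  [Algebra k Ω] [IsScalarTower k F₀ Ω] [IsAlgClosure F₀ Ω] [CharZero k] [CharZero F₀] [CharZero Ω]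
  {B : Base k F₀ Ω} {F K : IntermediateField F₀ Ω} {D D' L : B.Dv} {s : ℕ}

variable (B F) in
/-- Global sections as a subspace of `F`. -/
def GF (D : B.Dv) : Submodule k F := (B.Γ F D).comap (F.val.toLinearMap.restrictScalars k)

theorem mem_GF' {x : F} : x ∈ GF B F D ↔ (x : Ω) ∈ B.Γ F D := Iff.rfl

theorem mem_GF {x : F} : x ∈ GF B F D ↔ ∀ v : B.P, v.1.Ge x (-D v) :=
  mem_Γ.trans (and_iff_right x.2)

theorem GF_mul {x y : F} (hx : x ∈ GF B F D) (hy : y ∈ GF B F D') : x * y ∈ GF B F (D + D') :=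
  mem_GF'.2 (mul_mem_Γ (mem_GF'.1 hx) (mem_GF'.1 hy))

theorem GF_pow {x : F} (hx : x ∈ GF B F D) (n : ℕ) : x ^ n ∈ GF B F (n • D) :=
  mem_GF'.2 (pow_mem_Γ (mem_GF'.1 hx) n)

theorem GF_dv (x : F) : x ∈ GF B F (-B.dv x) := mem_Γ_dv x.2

theorem GF_inv (x : F) : x⁻¹ ∈ GF B F (B.dv x) := by
  simpa using GF_dv (B := B) x⁻¹

theorem GF_le {x : F} (hx : x ∈ GF B F D) (h : D ≤ D') : x ∈ GF B F D' := Γ_mono h hx

theorem GF_lift (hK : K ≤ F) {x : F} (hx : (x : Ω) ∈ B.Γ K D * B.Γ K D') :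
    x ∈ GF B F D * GF B F D' := by
  have h : ∀ z ∈ B.Γ K D * B.Γ K D', ∃ w ∈ GF B F D * GF B F D', (w : Ω) = z := fun z hz => by
    refine Submodule.mul_induction_on hz (fun a ha b hb => ?_) ?_
    · exact ⟨⟨a, hK ha.1⟩ * ⟨b, hK hb.1⟩, Submodule.mul_mem_mul
        (Γ_mono_field hK le_rfl ha) (Γ_mono_field hK le_rfl hb), rfl⟩
    · rintro _ _ ⟨a, ha, rfl⟩ ⟨b, hb, rfl⟩
      exact ⟨a + b, add_mem ha hb, rfl⟩
  obtain ⟨w, h1, h2⟩ := h _ hx
  rwa [← Subtype.ext h2]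

variable (B F) in
/-- The trace of `x` is a section of `μ H`. -/
def TrS (μ : ℤ) (x : F) : Prop := algebraMap F₀ F (Algebra.trace F₀ F x) ∈ GF B F (μ • B.H)

/-- The base is a projective space with the coordinates `1, y` and the hyperplanes `Q`. -/
structure PS (B : Base k F₀ Ω) (y : Fin s → F₀) (Q : Option (Fin s) → QVal F₀) : Prop where
  inj : Function.Injective (aeval y : MvPolynomial (Fin s) k →ₐ[k] F₀)
  frac : ∀ z : F₀, ∃ p q : MvPolynomial (Fin s) k, q ≠ 0 ∧ z = aeval y p / aeval y q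
  gam : ∀ (μ : ℕ) (z : F₀), (∀ v : B.P, v.1.Ge (algebraMap F₀ Ω z) (-(μ * B.H v))) ↔
    ∃ f : MvPolynomial (Fin s) k, f.totalDegree ≤ μ ∧ z = aeval y f
  hQ : ∀ i : Option (Fin s), B.H + B.dv (algebraMap F₀ Ω (i.elim 1 y)) = B.ov (Q i)

variable {y : Fin s → F₀} {Q : Option (Fin s) → QVal F₀}

theorem PS.ne (S : PS B y Q) (i : Option (Fin s)) : (i.elim 1 y : F₀) ≠ 0 := by
  cases i with
  | none => exact one_ne_zero
  | some l => simpa using (map_ne_zero_iff _ S.inj).2 (X_ne_zero l)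

theorem PS.mem (S : PS B y Q) (i : Option (Fin s)) :
    algebraMap F₀ F (i.elim 1 y) ∈ GF B F B.H :=
  GF_le (GF_dv _) (neg_le_iff_add_nonneg.2 ((ov_nonneg _).trans_eq (S.hQ i).symm))

theorem nv_H {v w : B.P} (h : B.res v = B.res w) : B.H v = B.H w := by
  unfold Base.H Base.ov
  rw [h]

variable [FiniteDimensional F₀ F]

theorem trS_of {μ : ℤ} {x : F} (hx : x ∈ GF B F (μ • B.H)) : TrS B F μ x :=
  mem_GF.2 fun w => (QVal.comap_ge _ _ _ _).1 (nv_trace w fun v hv => by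
    have h := mem_GF.1 hx v
    rwa [Pi.smul_apply, nv_H hv] at h)

theorem PS.trS_iff (S : PS B y Q) {μ : ℕ} {x : F} : TrS B F μ x ↔
    ∃ f : MvPolynomial (Fin s) k, f.totalDegree ≤ μ ∧ Algebra.trace F₀ F x = aeval y f := by
  rw [← S.gam, TrS, mem_GF]
  simp only [Pi.smul_apply, zsmul_eq_mul, Int.cast_natCast]
  rfl

variable (F L) in
theorem PS.exists_bg (S : PS B y Q) : ∃ d : BG k F s,
    (∀ m μ, d.Γ m μ = GF B F (μ • B.H + m • L)) ∧
    (∀ i, xi d.Y i = algebraMap F₀ F (i.elim 1 y)) ∧ (optionEquivLeft k (Fin s) d.P).Monic ∧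
    (∀ q, aeval d.Y q = 0 ↔ d.P ∣ q) ∧
    (∀ z : F, ∃ q ρ : MvPolynomial (Option (Fin s)) k, ρ ≠ 0 ∧ ρ.degreeOf none = 0 ∧
      aeval d.Y ρ * z = aeval d.Y q) ∧
    ∀ (μ : ℕ) (σ : MvPolynomial (Option (Fin s)) k) (x : F),
      σ.weightedTotalDegree (wt s d.e) ≤ μ + d.c →
        aeval d.Y σ = aeval d.Y (pderiv none d.P) * x → TrS B F μ x := by
  obtain ⟨Y, P, e, c, h1, h2, h3, h4, h5, h6, h7, ⟨N, a, h8, h9⟩, h10, h11⟩ :=
    exists_model (F := F) y S.inj S.frac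
  have hx : ∀ i, xi Y i = algebraMap F₀ F (i.elim 1 y) := fun i => by
    cases i with
    | none => exact (map_one _).symm
    | some l => exact h2 l
  have hθ : Y none ∈ GF B F (e • B.H) := mem_GF.2 fun v => by
    refine (QVal.comap_ge v.1 (algebraMap F Ω) _ _).1 (nv_root _ (fun j hj => ?_) h9)
    have h := (S.gam _ _).2 ⟨a j, h8 j hj, rfl⟩ v
    rw [QVal.comap_ge, Pi.smul_apply, nsmul_eq_mul, ← mul_assoc, ← Nat.cast_mul, mul_comm _ e]
    exact h
  refine ⟨⟨Y, P, e, c, fun m μ => GF B F (μ • B.H + m • L), h1, h6, fun i => ?_, h7.isUnit, ?_,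
    fun i => ?_, fun hx hy => ?_, fun μ r hr => h10 μ r fun i => ?_⟩, fun _ _ => rfl, hx, h3, h4,
    h5, fun μ σ x h12 h13 => S.trS_iff.2 (h11 μ σ x h12 h13)⟩
  · rw [hx]
    exact ((map_ne_zero _).2 (S.ne i)).isUnit
  · simpa using GF_dv (B := B) (1 : F)
  · rw [hx]
    simpa using S.mem i
  · exact GF_le (GF_mul hx hy) (le_of_eq (by module))
  · exact S.trS_iff.1 (trS_of (GF_le (GF_mul hr (GF_pow hθ i)) (le_of_eq (by push_cast; module))))

omit [FiniteDimensional F₀ F] in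
theorem TrS.mul {μ ν : ℤ} {x : F} {z : F₀} (hz : algebraMap F₀ F z ∈ GF B F (ν • B.H))
    (h : TrS B F μ x) : TrS B F (ν + μ) (algebraMap F₀ F z * x) := by
  rw [TrS, ← Algebra.smul_def, map_smul, smul_eq_mul, map_mul, add_smul]
  exact GF_mul hz h

/-- It suffices to test the traces on finitely many sections. -/
theorem PS.test (S : PS B y Q) (d : BG k F s) (hΓ : ∀ μ : ℕ, d.Γ 0 μ = GF B F (μ • B.H))
    (hx : ∀ i, xi d.Y i = algebraMap F₀ F (i.elim 1 y)) (hD : 0 ≤ D) :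
    ∃ (j : ℕ) (T : Finset F), (∀ u ∈ T, u ∈ GF B F (j • B.H - D)) ∧
      ∀ (x : F) (μ : ℤ), (∀ u ∈ T, TrS B F μ (u * x)) →
        ∀ r : ℕ, ∀ u ∈ GF B F ((j + r) • B.H - D), TrS B F (r + μ) (u * x) := by
  have hle : ∀ j : ℕ, GF B F (j • B.H - D) ≤ d.Γ 0 j := fun j u hu => by
    rw [hΓ]
    exact GF_le hu (sub_le_self _ hD)
  obtain ⟨j, hj⟩ := d.hgen.sub d.step d.fg hle fun a j v hv => by
    rw [BG.xu_coe, hx, smul_eq_mul]
    exact GF_le (GF_mul (S.mem a) hv) (le_of_eq (by module))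
  obtain ⟨T, hT⟩ := (d.fg j).of_le (hle j)
  refine ⟨j, T, fun u hu => hT ▸ Submodule.subset_span hu, fun x μ h r => ?_⟩
  induction r with
  | zero =>
    rw [add_zero, ← hT, Nat.cast_zero, zero_add]
    intro u hu
    induction hu using Submodule.span_induction with
    | mem u hu => exact h u hu
    | zero =>
      rw [TrS, zero_mul, map_zero, map_zero]
      exact zero_mem _
    | add a b _ _ ha hb =>
      rw [TrS, add_mul, map_add, map_add]
      exact add_mem ha hb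
    | smul c a _ ha =>
      rw [TrS, smul_mul_assoc, LinearMap.map_smul_of_tower, Algebra.smul_def c,
        map_mul (algebraMap F₀ F), ← IsScalarTower.algebraMap_apply, ← Algebra.smul_def]
      exact Submodule.smul_mem _ c ha
  | succ r ih =>
    intro u hu
    obtain ⟨w, h1, rfl⟩ := hj (j + r) (by omega) u hu
    rw [TrS, Finset.sum_mul, map_sum, map_sum]
    refine sum_mem fun a _ => ?_
    have h2 := TrS.mul (ν := 1) (by simpa using S.mem a) (ih _ (h1 a))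
    rw [BG.xu_coe, hx, smul_eq_mul, mul_assoc, Nat.cast_succ, add_comm _ (1 : ℤ), add_assoc]
    exact h2

end Pool.Agent.Lib.MP_bc213e_ag.KBN
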