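import Pool.Agent.Lib.MP_bc213e_ag.KBV.Div

/-! Traces, approximation and the codifferent for the valuations of the virtual curve. -/

set_option linter.unusedSectionVars false

namespace Pool.Agent.Lib.MP_bc213e_ag.KBN

open KBV KBV.Base Module

variable {k F₀ Ω : Type} [Field k] [Field F₀] [Field Ω] [Algebra k F₀] [Algebra F₀ Ω]
  [Algebra k Ω] [IsScalarTower k F₀ Ω] [IsAlgClosure F₀ Ω] [CharZero k] [CharZero F₀] [CharZero Ω]
  {B : Base k F₀ Ω} {F : IntermediateField F₀ Ω} {D D' : B.Dv}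

/-- A root of a monic equation has bounded poles. -/
theorem nv_root {E : Type} [Field E] (V : QVal E) {θ : E} {N : ℕ} {a : ℕ → E} {w : ℚ}
    (ha : ∀ j < N, V.Ge (a j) (-(((N - j : ℕ) : ℚ) * w)))
    (h : θ ^ N + ∑ j ∈ Finset.range N, a j * θ ^ j = 0) : V.Ge θ (-w) := by
  by_contra hc
  obtain ⟨h0, h1⟩ := QVal.not_ge_iff.1 hc
  refine (QVal.ord_add_of_gt (V := V) (pow_ne_zero N h0) (QVal.Gt.sum fun j hj => ?_)).1 h
  have hj' := Finset.mem_range.1 hj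
  have h2 : (0 : ℚ) < (N : ℚ) - j := sub_pos.2 (by exact_mod_cast hj')
  refine ((ha j hj').mul ((V.ge_ord θ).pow j)).gt ?_
  rw [V.ord_pow, Nat.cast_sub hj'.le]
  nlinarith

theorem nv_emb (σ : F →ₐ[F₀] Ω) (w : B.P) :
    ∃ v : B.P, B.res v = B.res w ∧ ∀ x : F, v.1.ord x = w.1.ord (σ x) := by
  have e : (w.1.comap (σ.liftNormal Ω : Ω →+* Ω)).comap (algebraMap F₀ Ω) = B.res w :=
    QVal.ext (funext fun z => by simp)
  exact ⟨⟨w.1.comap (σ.liftNormal Ω : Ω →+* Ω), e ▸ res_mem w⟩, e,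
    fun x => congrArg w.1.ord (σ.liftNormal_commutes Ω x)⟩

theorem nv_ge {σ : F →ₐ[F₀] Ω} {v w : B.P} (h : ∀ x : F, v.1.ord x = w.1.ord (σ x)) {x : F}
    {c : ℚ} : w.1.Ge (σ x) c ↔ v.1.Ge x c := by
  simp [QVal.Ge, h]

theorem nv_gt {σ : F →ₐ[F₀] Ω} {v w : B.P} (h : ∀ x : F, v.1.ord x = w.1.ord (σ x)) {x : F}
    {c : ℚ} : w.1.Gt (σ x) c ↔ v.1.Gt x c := by
  simp [QVal.Gt, h]

/-- `D` is bounded below and negative over finitely many places only. -/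
def Lb (B : Base k F₀ Ω) (D : B.Dv) : Prop :=
  (∃ S : Set (QVal F₀), S.Finite ∧ ∀ v, D v < 0 → B.res v ∈ S) ∧ ∃ C : ℕ, ∀ v, -(C : ℚ) ≤ D v

theorem Lb.mono (h : Lb B D) (hle : D ≤ D') : Lb B D' := by
  obtain ⟨⟨S, hS, h1⟩, C, h2⟩ := h
  exact ⟨⟨S, hS, fun v hv => h1 v ((hle v).trans_lt hv)⟩, C, fun v => (h2 v).trans (hle v)⟩

theorem Lb.of_nsmul {n : ℕ} (hn : 0 < n) (h : Lb B (n • D)) : Lb B D := by
  obtain ⟨⟨S, hS, h1⟩, C, h2⟩ := h
  have hn' : (1 : ℚ) ≤ n := by exact_mod_cast hn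
  refine ⟨⟨S, hS, fun v hv => h1 v ?_⟩, C, fun v => ?_⟩
  · rw [Pi.smul_apply, nsmul_eq_mul]
    nlinarith
  · have h3 := h2 v
    rw [Pi.smul_apply, nsmul_eq_mul] at h3
    by_contra h4
    have h5 : (0 : ℚ) ≤ C := Nat.cast_nonneg C
    nlinarith

theorem Lb.add (h : Lb B D) (h' : Lb B D') : Lb B (D + D') := by
  obtain ⟨⟨S, hS, h1⟩, C, h2⟩ := h
  obtain ⟨⟨S', hS', h1'⟩, C', h2'⟩ := h'
  refine ⟨⟨S ∪ S', hS.union hS', fun v hv => ?_⟩, C + C', fun v => ?_⟩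
  · by_contra hc
    rw [Set.mem_union, not_or] at hc
    exact hv.not_ge (add_nonneg (not_lt.1 (mt (h1 v) hc.1)) (not_lt.1 (mt (h1' v) hc.2)))
  · rw [Nat.cast_add, neg_add]
    exact add_le_add (h2 v) (h2' v)

theorem nv_pic (S : Finset (QVal F₀)) (hS : ∀ q ∈ S, q ∈ B.Pl) : ∃ (m : ℕ) (z : F₀), z ≠ 0 ∧
    m • B.H + B.dv (algebraMap F₀ Ω z) = ∑ q ∈ S, B.ov q := by
  classical
  induction S using Finset.induction_on with
  | empty => exact ⟨0, 1, one_ne_zero, by simp⟩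
  | insert q S hq ih =>
    obtain ⟨m, z, hz, h⟩ := ih fun q hq => hS q (Finset.mem_insert_of_mem hq)
    obtain ⟨m', z', hz', h'⟩ := pic' (hS q (Finset.mem_insert_self q S))
    refine ⟨m' + m, z' * z, mul_ne_zero hz' hz, ?_⟩
    rw [Finset.sum_insert hq, ← h, ← h', map_mul, dv_mul (by simpa using hz') (by simpa using hz),
      add_nsmul]
    abel

/-- Clearing the poles away from `T` by a section of a multiple of `H` without zeros over `T`. -/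
theorem Lb.exists_sec (h : Lb B D) {T : Set (QVal F₀)} (hT : ∀ v, B.res v ∈ T → 0 ≤ D v) :
    ∃ (m : ℕ) (z : F₀), z ≠ 0 ∧ 0 ≤ D + (m • B.H + B.dv (algebraMap F₀ Ω z)) ∧
      ∀ v, B.res v ∈ T → (m • B.H + B.dv (algebraMap F₀ Ω z)) v = 0 := by
  classical
  obtain ⟨⟨S, hS, h1⟩, C, h2⟩ := h
  obtain ⟨m, z, hz, h⟩ := nv_pic (B := B) (hS.toFinset.filter fun q => q ∈ B.Pl ∧ q ∉ T)
    fun q hq => (Finset.mem_filter.1 hq).2.1
  have e : ∀ v, ((C * m) • B.H + B.dv (algebraMap F₀ Ω (z ^ C))) v =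
      if B.res v ∈ S ∧ B.res v ∉ T then (C : ℚ) else 0 := fun v => by
    rw [map_pow, dv_pow, mul_smul, ← smul_add, h, Pi.smul_apply, Finset.sum_apply]
    simp [ov, res_mem v]
  refine ⟨C * m, z ^ C, pow_ne_zero _ hz, fun v => ?_, fun v hv => ?_⟩
  · rw [Pi.add_apply, e, Pi.zero_apply]
    split_ifs with hv
    · linarith [h2 v]
    · rw [add_zero]
      by_contra hc
      exact hv ⟨h1 v (not_le.1 hc), fun h3 => hc (hT v h3)⟩
  · rw [e, if_neg fun h3 => h3.2 hv]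

variable [FiniteDimensional F₀ F]

variable (F) in
theorem nv_reps (p : QVal F₀) : ∃ T : Finset B.P, (∀ t ∈ T, B.res t = p) ∧
    ∀ v, B.res v = p → ∃ t ∈ T, B.Same F v t := by
  classical
  by_cases hp : ∃ w, B.res w = p
  · obtain ⟨w, rfl⟩ := hp
    choose u h1 h2 using fun σ : F →ₐ[F₀] Ω => nv_emb σ w
    refine ⟨Finset.univ.image u, fun t ht => ?_, fun v hv => ?_⟩
    · obtain ⟨σ, -, rfl⟩ := Finset.mem_image.1 ht
      exact h1 σ
    · obtain ⟨σ, -, rfl⟩ := (same_bot hv).exists_act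
      exact ⟨_, Finset.mem_image_of_mem u (Finset.mem_univ ((σ : Ω →ₐ[F₀] Ω).comp F.val)),
        fun x hx => (h2 ((σ : Ω →ₐ[F₀] Ω).comp F.val) ⟨x, hx⟩).symm⟩
  · exact ⟨∅, by simp, fun v hv => absurd ⟨v, hv⟩ hp⟩

theorem nv_lb (h : B.IsDiv F D) : Lb B D := by
  obtain ⟨S, hS, h1⟩ := h.fin
  refine ⟨⟨S, hS, fun v hv => h1 v hv.ne⟩, ?_⟩
  choose T _ h3 using nv_reps (B := B) F
  obtain ⟨c, hc⟩ := ((hS.biUnion fun p _ => (T p).finite_toSet).image D).bddBelow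
  obtain ⟨C, hC⟩ := exists_nat_ge (-c)
  refine ⟨C, fun v => ?_⟩
  by_cases hv : D v = 0
  · simp [hv]
  · obtain ⟨t, h4, h5⟩ := h3 _ v rfl
    have h6 := hc ⟨t, Set.mem_biUnion (h1 v hv) h4, rfl⟩
    rw [h.same v t h5]
    linarith

theorem nv_trace (w : B.P) {x : F} {c : ℚ} (h : ∀ v : B.P, B.res v = B.res w → v.1.Ge x c) :
    (B.res w).Ge (Algebra.trace F₀ F x) c := by
  have := IsAlgClosure.isAlgClosed F₀ (K := Ω)
  rw [Base.res, QVal.comap_ge, trace_eq_sum_embeddings]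
  refine QVal.Ge.sum fun σ _ => ?_
  obtain ⟨v, h1, h2⟩ := nv_emb σ w
  exact (nv_ge h2).2 (h v h1)

variable (F) in
theorem nv_eps (v : B.P) : IsLeast {q : ℚ | 0 < q ∧ ∃ x ∈ F, v.1.ord x = q} (B.eps F v) := by
  classical
  have hd : (0 : ℚ) < (finrank F₀ F).factorial := by exact_mod_cast Nat.factorial_pos _
  have key : ∀ x ∈ F, 0 < v.1.ord x →
      ∃ n : ℕ, 0 < n ∧ (finrank F₀ F).factorial * v.1.ord x = n := fun x hx h0 => by
    obtain ⟨n, y, h1, h2, -, h3⟩ := (v.1.comap (algebraMap F Ω)).exists_tors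
      (Algebra.IsAlgebraic.isAlgebraic (R := F₀) (⟨x, hx⟩ : F)) (by
        rintro h
        rw [show x = 0 from congrArg Subtype.val h] at h0
        simp at h0)
    obtain ⟨c, hc⟩ := Nat.dvd_factorial h1 (h2.trans (minpoly.natDegree_le _))
    obtain ⟨z, hz⟩ := B.int _ (res_mem v) y
    have h4 : ((finrank F₀ F).factorial : ℚ) * v.1.ord x = ((c * z : ℤ) : ℚ) := by
      rw [hc, Int.cast_mul, ← hz, Nat.cast_mul, mul_comm (n : ℚ), mul_assoc]
      exact congrArg _ h3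
    have h5 : 0 < c * z := by exact_mod_cast h4 ▸ mul_pos hd h0
    obtain ⟨r, hr⟩ := Int.eq_ofNat_of_zero_le h5.le
    exact ⟨r, by omega, by rw [h4, hr, Int.cast_natCast]⟩
  obtain ⟨π, -, hπ⟩ := exists_unif (res_mem v)
  have hex : ∃ n : ℕ, ∃ x ∈ F, 0 < v.1.ord x ∧ (finrank F₀ F).factorial * v.1.ord x = n := by
    have h1 : 0 < v.1.ord (algebraMap F₀ Ω π) := by rw [← res_ord, hπ]; exact one_pos
    obtain ⟨n, -, h⟩ := key _ (F.algebraMap_mem π) h1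
    exact ⟨n, _, F.algebraMap_mem π, h1, h⟩
  obtain ⟨x, h1, h2, h3⟩ := Nat.find_spec hex
  refine Classical.epsilon_spec
    (p := fun e => IsLeast {q : ℚ | 0 < q ∧ ∃ x ∈ F, v.1.ord x = q} e) ⟨_, ⟨h2, x, h1, rfl⟩, ?_⟩
  rintro _ ⟨h4, y, h5, rfl⟩
  obtain ⟨n, -, h6⟩ := key y h5 h4
  refine le_of_mul_le_mul_left ?_ hd
  rw [h3, h6, Nat.cast_le]
  exact Nat.find_min' hex ⟨y, h5, h4, h6⟩

variable (F) in
theorem nv_cod : 0 ≤ B.Cod F := fun v => by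
  obtain ⟨π, -, hπ⟩ := exists_unif (res_mem v)
  exact sub_nonneg.2 ((nv_eps F v).2 ⟨one_pos, _, F.algebraMap_mem π, hπ⟩)

theorem nv_sep {v₀ v : B.P} (hv : B.res v = B.res v₀) (h : ¬ B.Same F v v₀) (C : ℕ) :
    ∃ y : F, y ≠ 0 ∧ v₀.1.ord y = 0 ∧ v.1.Ge y C ∧
      ∀ u : B.P, B.res u = B.res v₀ → u.1.Ge y 0 := by
  have hr : ∀ u : B.P, B.res u = B.res v₀ → ∀ c : F₀,
      (u.1.comap (algebraMap F Ω)).ord (algebraMap F₀ F c) =
        (v₀.1.comap (algebraMap F Ω)).ord (algebraMap F₀ F c) := fun u hu c =>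
    congrArg (fun p : QVal F₀ => p.ord c) hu
  obtain ⟨z, h1, h2⟩ : ∃ z, (v₀.1.comap (algebraMap F Ω)).Ge z 0 ∧
      ¬ (v.1.comap (algebraMap F Ω)).Ge z 0 := by
    by_contra hc
    push Not at hc
    have h1 := QVal.ext_of_ge (fun c => (hr v hv c).symm) hc
    exact h fun x hx => congrArg (fun p : QVal F => p.ord ⟨x, hx⟩) h1.symm
  obtain ⟨y, h3, h4, h5⟩ := QVal.exists_denom _ (Algebra.IsAlgebraic.isAlgebraic (R := F₀) z) h1
  obtain ⟨h6, h7⟩ := QVal.not_ge_iff.1 h2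
  have h8 := (h5 _ (hr v hv)).2.le (mul_ne_zero h6 h3)
  rw [QVal.ord_mul _ h6 h3] at h8
  obtain ⟨n, hn⟩ := Archimedean.arch (C : ℚ)
    (show 0 < (v.1.comap (algebraMap F Ω)).ord y by linarith)
  refine ⟨y ^ n, pow_ne_zero _ h3, ?_, .of_le ?_, fun u hu => ?_⟩
  · rw [SubmonoidClass.coe_pow, QVal.ord_pow]
    exact mul_eq_zero_of_right _ h4
  · rw [SubmonoidClass.coe_pow, QVal.ord_pow, ← nsmul_eq_mul]
    exact hn
  · rw [SubmonoidClass.coe_pow]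
    exact ((QVal.comap_ge _ _ _ _).1 (h5 _ (hr u hu)).1).pow₀ n

/-- Approximation. -/
theorem nv_approx (v₀ : B.P) (C : ℕ) : ∃ z : F, v₀.1.Gt ((z - 1 : F) : Ω) 0 ∧
    ∀ v : B.P, B.res v = B.res v₀ → ¬ B.Same F v v₀ → v.1.Ge z C := by
  classical
  obtain ⟨T, hT, hT'⟩ := nv_reps (B := B) F (B.res v₀)
  obtain ⟨y, h0, h1, h2, h3⟩ : ∃ y : F, y ≠ 0 ∧ v₀.1.ord y = 0 ∧
      (∀ u : B.P, B.res u = B.res v₀ → u.1.Ge y 0) ∧
      ∀ v : B.P, B.res v = B.res v₀ → ¬ B.Same F v v₀ → v.1.Ge y C := by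
    choose! y h0 h1 h2 h3 using fun (t : B.P) (ht : t ∈ T.filter fun t => ¬ B.Same F t v₀) =>
      nv_sep (hT t (Finset.mem_filter.1 ht).1) (Finset.mem_filter.1 ht).2 C
    refine ⟨∏ t ∈ T.filter fun t => ¬ B.Same F t v₀, y t, Finset.prod_ne_zero_iff.2 h0, ?_,
      fun u hu => ?_, fun v hv h => ?_⟩
    · rw [SubmonoidClass.coe_finsetProd, QVal.ord_prod _ _ _ fun t ht => by simpa using h0 t ht]
      exact Finset.sum_eq_zero h1
    · rw [SubmonoidClass.coe_finsetProd]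
      exact prod_mem (S := u.1.O) fun t ht => h3 t ht u hu
    · obtain ⟨t, h4, h5⟩ := hT' v hv
      have h6 : t ∈ T.filter fun t => ¬ B.Same F t v₀ :=
        Finset.mem_filter.2 ⟨h4, fun h6 => h (h5.trans h6)⟩
      rw [← Finset.prod_erase_mul _ _ h6, MulMemClass.coe_mul, SubmonoidClass.coe_finsetProd]
      exact QVal.Ge.mul₀ (prod_mem (S := v.1.O) fun t ht => h3 t (Finset.mem_of_mem_erase ht) v hv)
        ((h5.ge (y t).2).2 (h2 t h6))
  obtain ⟨n, a, h4, h5, h6⟩ := conj_rel v₀.1 (Algebra.IsAlgebraic.isAlgebraic (R := F₀) (y : Ω))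
  obtain ⟨h7, h8⟩ := Nat.find_spec h5
  have h9 := fun i => Nat.find_min h5 (m := i)
  generalize Nat.find h5 = j at h7 h8 h9
  obtain ⟨r, rfl⟩ := Nat.exists_eq_add_of_lt h7
  obtain ⟨h10, h11⟩ := QVal.not_gt_iff.1 h8
  have h12 : v₀.1.ord (algebraMap F₀ Ω (a j)) = 0 := le_antisymm h11 ((h4 j).le h10)
  have h0' : (y : Ω) ≠ 0 := by simpa using h0
  rw [add_assoc, Finset.sum_range_add, Finset.sum_range_succ'] at h6
  refine ⟨-(∑ i ∈ Finset.range r, algebraMap F₀ F (a (j + (i + 1)) / a j) * y ^ i) * y, ?_,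
    fun v hv h => ?_⟩
  · have e : ((-(∑ i ∈ Finset.range r, algebraMap F₀ F (a (j + (i + 1)) / a j) * y ^ i) * y - 1 :
        F) : Ω) = (∑ i ∈ Finset.range j, algebraMap F₀ Ω (a i) * (y : Ω) ^ i) /
          (algebraMap F₀ Ω (a j) * (y : Ω) ^ j) := by
      rw [eq_div_iff (mul_ne_zero h10 (pow_ne_zero _ h0')), eq_neg_of_add_eq_zero_left h6]
      push_cast
      rw [sub_mul, neg_mul, neg_mul, Finset.sum_mul, Finset.sum_mul, neg_add, one_mul, add_zero,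
        sub_eq_add_neg]
      congr 2
      refine Finset.sum_congr rfl fun i _ => ?_
      change algebraMap F₀ Ω _ / algebraMap F₀ Ω _ * _ * _ * _ = _
      field_simp
      ring
    rw [e, QVal.gt_div_iff (mul_ne_zero h10 (pow_ne_zero _ h0')),
      QVal.ord_mul _ h10 (pow_ne_zero _ h0'), QVal.ord_pow, h12, h1, mul_zero, add_zero, add_zero]
    refine QVal.Gt.sum fun i hi => ?_
    have h13 := Finset.mem_range.1 hi
    have h14 := not_not.1 fun h => h9 i h13 ⟨by omega, h⟩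
    simpa using h14.mul_ge ((h2 v₀ rfl).pow₀ i)
  · rw [MulMemClass.coe_mul]
    refine QVal.Ge.mul₀ ?_ (h3 v hv h)
    push_cast
    refine (QVal.Ge.sum fun i _ => QVal.Ge.mul₀ ?_ ((h2 v hv).pow₀ i)).neg
    rw [← map_div₀, ← QVal.comap_ge, show v.1.comap _ = _ from hv, Base.res, QVal.comap_ge,
      map_div₀, QVal.ge_div_iff h10, h12, add_zero]
    exact h4 _

/-- Duality for the trace form. -/
theorem nv_codiff {G : B.Dv} (hG : B.IsDiv F G) (v₀ : B.P) {x : F}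
    (h : ∀ z : F, (∀ v : B.P, B.res v = B.res v₀ → v.1.Ge z (G v - B.Cod F v)) →
      (B.res v₀).Ge (Algebra.trace F₀ F (x * z)) 0) : v₀.1.Ge x (-G v₀) := by
  classical
  have := IsAlgClosure.isAlgClosed F₀ (K := Ω)
  by_contra hc
  obtain ⟨h0, h1⟩ := QVal.not_ge_iff.1 hc
  obtain ⟨π, hπ0, hπ⟩ := exists_unif (res_mem v₀)
  have hπ' : algebraMap F₀ Ω π ≠ 0 := by simpa using hπ0
  obtain ⟨-, C, hC⟩ := nv_lb (hG.add (isDiv_dv x.2)).neg
  obtain ⟨z, h2, h3⟩ := nv_approx (F := F) v₀ (C + 1)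
  have h4 := h (π⁻¹ • z / x) fun v hv => by
    have e : ((π⁻¹ • z / x : F) : Ω) = z / algebraMap F₀ Ω π / x := by
      push_cast
      rw [Algebra.smul_def, map_inv₀, inv_mul_eq_div]
    rw [e, QVal.ge_div_iff h0, QVal.ge_div_iff hπ', ← res_ord, hv, hπ]
    by_cases hs : B.Same F v v₀
    · have h5 := (hs.gt (z - 1).2).2 h2
      have h6 : v.1.Ge z 0 := by simpa using h5.ge.add v.1.ge_one
      obtain ⟨g, h7, h8, h9⟩ := hG.val v
      have h10 : v.1.ord (x * g : Ω)⁻¹ = -v.1.ord x - G v := by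
        rw [QVal.ord_inv, QVal.ord_mul _ h0 h8, h9]
        ring
      have h11 := (nv_eps F v).2 ⟨(show 0 < -v.1.ord x - G v by
        rw [hs x x.2, hG.same v v₀ hs]; linarith), _, inv_mem (mul_mem x.2 h7), h10⟩
      refine h6.mono ?_
      rw [Base.Cod]
      linarith
    · refine (h3 v hv hs).mono ?_
      have h5 := hC v
      have h6 := nv_cod F v
      simp only [Pi.neg_apply, Pi.add_apply, dv_apply, Pi.zero_apply] at h5 h6
      push_cast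
      linarith
  choose u h5 h6 using fun σ : F →ₐ[F₀] Ω => nv_emb σ v₀
  have h7 : (((Finset.univ.filter fun σ => B.Same F (u σ) v₀).card : ℕ) : Ω) ≠ 0 :=
    Nat.cast_ne_zero.2 (Finset.card_ne_zero.2
      ⟨F.val, Finset.mem_filter.2 ⟨Finset.mem_univ _, fun y hy => h6 _ ⟨y, hy⟩⟩⟩)
  have h8 := QVal.ord_eq_of_sub (V := v₀.1) (g := algebraMap F₀ Ω (Algebra.trace F₀ F z)) h7 (by
    rw [ord_natCast, trace_eq_sum_embeddings, Finset.card_filter, Nat.cast_sum,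
      ← Finset.sum_sub_distrib]
    refine QVal.Gt.sum fun σ _ => ?_
    split_ifs with hs
    · rw [Nat.cast_one, ← map_one σ, ← map_sub, nv_gt (h6 σ)]
      exact (hs.gt (z - 1).2).2 h2
    · rw [Nat.cast_zero, sub_zero, nv_gt (h6 σ)]
      exact (h3 _ (h5 σ) hs).gt (by positivity))
  rw [mul_div_cancel₀ _ (by simpa using h0), map_smul, smul_eq_mul, mul_comm,
    QVal.ge_mul_iff (inv_ne_zero hπ0), QVal.ord_inv, hπ, QVal.ge_iff (by simpa using h8.1),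
    res_ord, h8.2, ord_natCast] at h4
  linarith

/-- Local sections extend after multiplication by powers of the equations. -/
theorem nv_glob (hD : B.IsDiv F D) {p q : QVal F₀} {ξ η x : Ω} (h1 : ξ ∈ F) (h2 : η ∈ F)
    (h3 : ξ ≠ 0) (h4 : η ≠ 0) (hp : B.H + B.dv ξ = B.ov p) (hq : B.H + B.dv η = B.ov q)
    (hx : x ∈ B.Γ' F {v | B.res v ≠ p ∧ B.res v ≠ q} D) :
    ∃ n₀ : ℕ, ∀ n, n₀ ≤ n → (ξ * η) ^ n * x ∈ B.Γ F (D + (2 * n) • B.H) := by
  by_cases h0 : x = 0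
  · exact ⟨0, fun n _ => by simp [h0]⟩
  obtain ⟨-, C, hC⟩ := nv_lb (hD.add (isDiv_dv hx.1))
  refine ⟨C, fun n hn => ?_⟩
  rw [mul_comm _ x, mul_mem_Γ_iff (pow_mem (mul_mem h1 h2) n) (pow_ne_zero _ (mul_ne_zero h3 h4)),
    mem_Γ_iff_dv h0, dv_pow, dv_mul h3 h4, eq_sub_of_add_eq' hp, eq_sub_of_add_eq' hq]
  refine ⟨hx.1, fun v => ?_⟩
  have h5 := hC v
  have h6 := ov_nonneg p v
  have h7 := ov_nonneg q v
  have h8 : (C : ℚ) ≤ n := by exact_mod_cast hn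
  have h9 : (0 : ℚ) ≤ C := Nat.cast_nonneg C
  simp only [Pi.add_apply, Pi.sub_apply, Pi.smul_apply, Pi.zero_apply, dv_apply] at h5 h6 h7 ⊢
  simp only [nsmul_eq_mul, Nat.cast_mul, Nat.cast_ofNat]
  by_cases e1 : B.res v = p
  · rw [ov_of_eq e1]
    nlinarith
  by_cases e2 : B.res v = q
  · rw [ov_of_eq e2]
    nlinarith
  have h10 := (hx.2 v ⟨e1, e2⟩).le h0
  rw [ov_of_ne e1, ov_of_ne e2]
  linarith

end Pool.Agent.Lib.MP_bc213e_ag.KBN
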